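import Pool.Agent.Helper1.TD.Link
import Pool.Agent.Helper82.TK.PackObs
import Pool.Agent.Helper82.TK.Index2

/-!
# Global part: internally 4-connected labelled graphs of index at least three

* `I4 G c U`: minimum degree three, small cuts are trivial, no two vertices meet all odd cycles.
* `I4.no_bal3`: no balanced set of at least two vertices has at most three neighbours.
* `I4.virtual`: outside a balanced set `D` with `Nb G D ⊆ {v, m1, m2, m3}` the vertices `m1`, `m2`
  are joined by a path with the wrong label which avoids `v` and `m3`.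
-/

set_option autoImplicit false

namespace Pool.Agent.Helper1.GL

open SimpleGraph Pool.Agent.Helper57.TOK Pool.Agent.Helper57.TD Pool.Agent.Helper82.TK
  Pool.Agent.Helper1.TD

variable {V : Type*}

/-- Minimum degree three, trivial small cuts, index at least three. -/
structure I4 (G : SimpleGraph V) (c : Sym2 V → ZMod 2) (U : Set V) : Prop where
  edge_mem : ∀ u v, G.Adj u v → u ∈ U
  deg3 : ∀ y ∈ U, 3 ≤ (G.neighborSet y).ncard
  cut : ∀ Y ⊆ U, 2 ≤ Y.ncard → (Nb G Y).ncard ≤ 3 → (U \ (Y ∪ Nb G Y)).ncard ≤ 1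
  idx : ∀ z1 z2 κ, ¬ BalOff G c {z1, z2} κ

lemma mem_or_Nb1 {Z : SimpleGraph V} {Y : Set V} {u v : V} (hu : u ∈ Y) (h : Z.Adj u v) :
    v ∈ Y ∨ v ∈ Nb Z Y := by
  by_cases hv : v ∈ Y
  · exact Or.inl hv
  · exact Or.inr ⟨hv, u, hu, h⟩

lemma exists_sub_three [Finite V] {N : Set V} (h : N.ncard ≤ 3) (y : V) :
    ∃ a b d, N ⊆ {a, b, d} := by
  rcases Nat.lt_or_ge N.ncard 1 with h0 | h0
  · rw [Nat.lt_one_iff, Set.ncard_eq_zero (Set.toFinite _)] at h0
    exact ⟨y, y, y, by rw [h0]; exact Set.empty_subset _⟩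
  rcases Nat.lt_or_ge N.ncard 2 with h1 | h1
  · obtain ⟨a, rfl⟩ := Set.ncard_eq_one.1 (by omega : N.ncard = 1)
    exact ⟨a, a, a, by intro x hx; left; exact hx⟩
  rcases Nat.lt_or_ge N.ncard 3 with h2 | h2
  · obtain ⟨a, b, -, rfl⟩ := Set.ncard_eq_two.1 (by omega : N.ncard = 2)
    refine ⟨a, b, b, ?_⟩
    rintro x (hx | hx)
    · exact Or.inl hx
    · exact Or.inr (Or.inl hx)
  · obtain ⟨a, b, d, -, -, -, rfl⟩ := Set.ncard_eq_three.1 (by omega : N.ncard = 3)
    exact ⟨a, b, d, subset_rfl⟩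

lemma two_le_ncard_of [Finite V] {S : Set V} {a b : V} (ha : a ∈ S) (hb : b ∈ S) (hab : a ≠ b) :
    2 ≤ S.ncard := by
  rw [← Set.ncard_pair hab]
  apply Set.ncard_le_ncard _ (Set.toFinite _)
  rintro x (rfl | rfl)
  · exact ha
  · exact hb

lemma eq_of_ncard_le_one [Finite V] {S : Set V} (h : S.ncard ≤ 1) {a b : V} (ha : a ∈ S)
    (hb : b ∈ S) : a = b := by
  by_contra hab
  have := two_le_ncard_of ha hb hab
  omega

lemma three_sub [Finite V] {S : Set V} {a b d : V} (h : S ⊆ {a, b, d}) : S.ncard ≤ 3 := by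
  have h1 := Set.ncard_le_ncard h (Set.toFinite _)
  have h2 := Set.ncard_insert_le a ({b, d} : Set V)
  have h3 := ncard_pair_le' b d
  omega

/-- No balanced set of at least two vertices has at most three neighbours. -/
theorem I4.no_bal3 [Finite V] {G : SimpleGraph V} {c : Sym2 V → ZMod 2} {U : Set V}
    (h : I4 G c U) {Y : Set V} (hY : Y ⊆ U) (h2 : 2 ≤ Y.ncard) (h3 : (Nb G Y).ncard ≤ 3)
    {κ : V → ZMod 2} (hb : BalOn G c Y κ) : False := by
  classical
  have hR := h.cut Y hY h2 h3
  obtain ⟨y0, hy0⟩ : Y.Nonempty := by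
    rw [← Set.ncard_pos (Set.toFinite _)]; omega
  obtain ⟨n1, n2, n3, hN⟩ := exists_sub_three h3 y0
  set R : Set V := U \ (Y ∪ Nb G Y) with hRd
  set κ' : V → ZMod 2 := fun x => if x ∈ R then κ n3 + c s(x, n3) else κ x with hκ'
  have hcov : ∀ x y, G.Adj x y → x ∈ Y ∨ x ∈ Nb G Y ∨ x ∈ R := by
    intro x y hxy
    by_cases h1 : x ∈ Y
    · exact Or.inl h1
    by_cases h2 : x ∈ Nb G Y
    · exact Or.inr (Or.inl h2)
    · exact Or.inr (Or.inr ⟨h.edge_mem x y hxy, fun h3 => h3.elim h1 h2⟩)
  have hnR : ∀ x, x ∉ R → κ' x = κ x := by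
    intro x hx
    rw [hκ']; simp only [if_neg hx]
  have hin : ∀ x, x ∈ Y → x ∉ R := fun x hx hx' => hx'.2 (Or.inl hx)
  have hin' : ∀ x, x ∈ Nb G Y → x ∉ R := fun x hx hx' => hx'.2 (Or.inr hx)
  have g1 : ∀ x y, x ∈ Y → G.Adj x y → c s(x, y) = κ' x + κ' y := by
    intro x y hx hxy
    have hy : y ∉ R := by
      intro hy
      exact hy.2 (mem_or_Nb1 hx hxy)
    rw [hnR x (hin x hx), hnR y hy]
    exact hb x y hx hxy
  have g2 : ∀ x y, x ∈ Nb G Y → y ∈ R → x ∉ ({n1, n2} : Set V) → G.Adj x y →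
      c s(x, y) = κ' x + κ' y := by
    intro x y hx hy hx12 hxy
    have hx3 : x = n3 := by
      rcases hN hx with h4 | h4 | h4
      · exact absurd (Or.inl h4) hx12
      · exact absurd (Or.inr h4) hx12
      · exact h4
    subst hx3
    rw [hnR x (hin' x hx)]
    have : κ' y = κ x + c s(y, x) := by rw [hκ']; simp only [if_pos hy]
    rw [this, ← add_assoc, CharTwo.add_self_eq_zero, zero_add, Sym2.eq_swap]
  apply h.idx n1 n2 κ'
  intro x y hx hy hxy
  rcases hcov x y hxy with h1 | h1 | h1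
  · exact g1 x y h1 hxy
  · rcases hcov y x hxy.symm with h4 | h4 | h4
    · rw [Sym2.eq_swap, add_comm]; exact g1 y x h4 hxy.symm
    · exfalso
      have e1 : x = n3 := by
        rcases hN h1 with h5 | h5 | h5
        · exact absurd (Or.inl h5) hx
        · exact absurd (Or.inr h5) hx
        · exact h5
      have e2 : y = n3 := by
        rcases hN h4 with h5 | h5 | h5
        · exact absurd (Or.inl h5) hy
        · exact absurd (Or.inr h5) hy
        · exact h5
      exact hxy.ne (e1.trans e2.symm)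
    · exact g2 x y h1 h4 hx hxy
  · rcases hcov y x hxy.symm with h4 | h4 | h4
    · rw [Sym2.eq_swap, add_comm]; exact g1 y x h4 hxy.symm
    · rw [Sym2.eq_swap, add_comm]; exact g2 y x h4 h1 hy hxy.symm
    · exact absurd (eq_of_ncard_le_one hR h1 h4) hxy.ne

/-- Support of a walk stays in a set closed under adjacency. -/
lemma walk_mem {H : SimpleGraph V} {S : Set V} (hS : ∀ x y, H.Adj x y → y ∈ S) {a b : V}
    (p : H.Walk a b) (ha : a ∈ S) : ∀ x ∈ p.support, x ∈ S := by
  induction p with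
  | nil =>
    intro x hx
    simp only [Walk.support_nil, List.mem_cons, List.not_mem_nil, or_false] at hx
    rwa [hx]
  | cons h q ih =>
    intro x hx
    rw [Walk.support_cons, List.mem_cons] at hx
    rcases hx with rfl | hx
    · exact ha
    · exact ih (hS _ _ h) x hx

lemma Nb_Reach {H : SimpleGraph V} {A S : Set V} : Nb H (Reach H A S) ⊆ S := by
  rintro v ⟨hv, u, hu, huv⟩
  by_contra hvS
  exact hv (reach_adj hu huv hvS)

/-- Two attachments of an outside component lie in `B`. -/
lemma obs_comp {H : SimpleGraph V} {c : Sym2 V → ZMod 2} {π : V → ZMod 2} {A X A1 B : Set V}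
    {ρ : V → ZMod 2} (hO : Obs H c π A X A1 B ρ) {x : V} {S : Set V} (hS : A1 ∪ X ⊆ S) {u w : V}
    (hu : u ∈ A1) (huN : u ∈ Nb H (Reach H {x} S)) (hw : w ∈ A1)
    (hwN : w ∈ Nb H (Reach H {x} S)) (hne : u ≠ w) : u ∈ B ∧ w ∈ B := by
  obtain ⟨-, u', ⟨a, ha, p, hp⟩, huu⟩ := huN
  obtain ⟨-, w', ⟨b, hb, q, hq⟩, hww⟩ := hwN
  rw [Set.mem_singleton_iff] at ha hb
  subst ha
  subst hb
  apply hO.walk u hu w hw hne u' w' huu.symm hww.symm (p.reverse.append q)
  intro z hz
  rw [Walk.mem_support_append_iff, Walk.support_reverse, List.mem_reverse] at hz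
  have hz' : z ∉ S := by
    rcases hz with hz | hz
    · exact hp z hz
    · exact hq z hz
  exact ⟨fun h1 => hz' (hS (Or.inl h1)), fun h1 => hz' (hS (Or.inr h1))⟩

/-- The graph `G - D - v - m3` with the extra edge `v m3`. -/
def virtG (G : SimpleGraph V) (D : Set V) (v m : V) (hvm : v ≠ m) : SimpleGraph V where
  Adj x y := (delG G (D ∪ {v, m})).Adj x y ∨ (x = v ∧ y = m) ∨ (x = m ∧ y = v)
  symm := ⟨by
    rintro x y (h | ⟨h1, h2⟩ | ⟨h1, h2⟩)
    · exact Or.inl h.symm
    · exact Or.inr (Or.inr ⟨h2, h1⟩)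
    · exact Or.inr (Or.inl ⟨h2, h1⟩)⟩
  loopless := ⟨by
    rintro x (h | ⟨h1, h2⟩ | ⟨h1, h2⟩)
    · exact h.ne rfl
    · exact hvm (h1.symm.trans h2)
    · exact hvm (h2.symm.trans h1)⟩

/-- A path with the wrong label outside a balanced set. -/
theorem I4.virtual [Finite V] {G : SimpleGraph V} {c : Sym2 V → ZMod 2} {U : Set V}
    (h : I4 G c U) {D : Set V} {κ : V → ZMod 2} {v m1 m2 m3 : V}
    (hD : D.Nonempty ∨ c s(m1, m2) ≠ κ m1 + κ m2)
    (hDU : D ⊆ U) (h12 : m1 ≠ m2) (h13 : m1 ≠ m3) (h23 : m2 ≠ m3) (hv1 : v ≠ m1) (hv2 : v ≠ m2)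
    (hv3 : v ≠ m3) (hm1U : m1 ∈ U) (hm2U : m2 ∈ U) (hm1D : m1 ∉ D) (hm2D : m2 ∉ D)
    (hm3D : m3 ∉ D) (hvD : v ∉ D) (hnb : Nb G D ⊆ {v, m1, m2, m3})
    (hpot : ∀ x ∈ D, ∀ y, (y ∈ D ∨ y = m1 ∨ y = m2) → G.Adj x y → c s(x, y) = κ x + κ y) :
    ∃ P : G.Walk m1 m2, P.IsPath ∧ wt c P = κ m1 + κ m2 + 1 ∧
      ∀ x ∈ P.support, x ∉ D ∧ x ≠ v ∧ x ≠ m3 := by
  classical
  set H : SimpleGraph V := virtG G D v m3 hv3 with hH
  have hHadj : ∀ x y, H.Adj x y → ((G.Adj x y ∧ x ∉ D ∧ y ∉ D ∧ x ≠ v ∧ x ≠ m3 ∧ y ≠ v ∧ y ≠ m3)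
      ∨ (x = v ∧ y = m3) ∨ (x = m3 ∧ y = v)) := by
    intro x y hxy
    rcases hxy with h1 | h1
    · left
      obtain ⟨h2, h3, h4⟩ := h1
      simp only [Set.mem_union, Set.mem_insert_iff, Set.mem_singleton_iff, not_or] at h3 h4
      exact ⟨h2, h3.1, h4.1, h3.2.1, h3.2.2, h4.2.1, h4.2.2⟩
    · exact Or.inr h1
  have hHof : ∀ x y, G.Adj x y → x ∉ D → y ∉ D → x ≠ v → x ≠ m3 → y ≠ v → y ≠ m3 →
      H.Adj x y := by
    intro x y h1 h2 h3 h4 h5 h6 h7
    left
    refine ⟨h1, ?_, ?_⟩
    · simp only [Set.mem_union, Set.mem_insert_iff, Set.mem_singleton_iff, not_or]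
      exact ⟨h2, h4, h5⟩
    · simp only [Set.mem_union, Set.mem_insert_iff, Set.mem_singleton_iff, not_or]
      exact ⟨h3, h6, h7⟩
  have hvm : H.Adj v m3 := Or.inr (Or.inl ⟨rfl, rfl⟩)
  set c' : Sym2 V → ZMod 2 := fun e => if e = s(v, m3) then 1 else c e with hc'
  set π : V → ZMod 2 := fun x => if x = v ∨ x = m3 then 0 else κ x with hπ
  have hc'of : ∀ x y, x ≠ v → y ≠ v → c' s(x, y) = c s(x, y) := by
    intro x y hx hy
    rw [hc']
    simp only
    rw [if_neg]
    intro he
    rw [Sym2.eq_iff] at he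
    rcases he with ⟨h1, -⟩ | ⟨-, h1⟩
    · exact hx h1
    · exact hy h1
  have hA : ({m1, m2, v, m3} : Set V).ncard = 4 := by
    rw [Set.ncard_insert_of_notMem, Set.ncard_insert_of_notMem, Set.ncard_pair hv3]
    · simp only [Set.mem_insert_iff, Set.mem_singleton_iff, not_or]
      exact ⟨hv2.symm, h23⟩
    · simp only [Set.mem_insert_iff, Set.mem_singleton_iff, not_or]
      exact ⟨h12, hv1.symm, h13⟩
  have hπ1 : π m1 = κ m1 := by
    rw [hπ]; simp only; rw [if_neg]; rintro (h1 | h1)
    · exact hv1 h1.symm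
    · exact h13 h1
  have hπ2 : π m2 = κ m2 := by
    rw [hπ]; simp only; rw [if_neg]; rintro (h1 | h1)
    · exact hv2 h1.symm
    · exact h23 h1
  rcases pack4 H c' π {m1, m2, v, m3} hA with hT | ⟨X, A1, B, ρ, hO⟩
  · obtain ⟨b, a', b', hA', P, Q, hP, hQ, hPQ, -, -, hPw, hQw⟩ :=
      hT.first (v := v) (by simp)
    have hb : b = m3 := by
      have hvb : v ≠ b := by
        rintro rfl
        rw [hA'] at hA
        have h1 : ({v, v, a', b'} : Set V) = {v, a', b'} := by simp
        rw [h1] at hA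
        have := three_sub (S := {v, a', b'}) subset_rfl
        omega
      cases P with
      | nil => exact absurd rfl hvb
      | @cons _ z _ hz P' =>
        have hzm : z = m3 := by
          rcases hHadj _ _ hz with h1 | ⟨-, h1⟩ | ⟨h1, -⟩
          · exact absurd rfl h1.2.2.2.1
          · exact h1
          · exact absurd h1 hv3
        subst hzm
        rw [Walk.cons_isPath_iff] at hP
        cases P' with
        | nil => rfl
        | @cons _ z' _ hz' P'' =>
          exfalso
          have hzv : z' = v := by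
            rcases hHadj _ _ hz' with h1 | ⟨h1, -⟩ | ⟨-, h1⟩
            · exact absurd rfl h1.2.2.2.2.1
            · exact absurd h1.symm hv3
            · exact h1
          apply hP.2
          rw [Walk.support_cons, List.mem_cons]
          right
          have h9 : ∀ w, w = z' → w ∈ P''.support := by
            rintro w rfl
            exact P''.start_mem_support
          exact h9 v hzv.symm
    subst hb
    have hvP : v ∈ P.support := P.start_mem_support
    have hmP : b ∈ P.support := P.end_mem_support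
    have hQv : ∀ x ∈ Q.support, x ≠ v := fun x hx hxv => hPQ v hvP (hxv ▸ hx)
    have hQm : ∀ x ∈ Q.support, x ≠ b := fun x hx hxv => hPQ b hmP (hxv ▸ hx)
    have ha' : a' = m1 ∨ a' = m2 := by
      have h1 : a' ∈ ({m1, m2, v, b} : Set V) := by rw [hA']; simp
      rcases h1 with h1 | h1 | h1 | h1
      · exact Or.inl h1
      · exact Or.inr h1
      · exact absurd h1 (hQv a' Q.start_mem_support)
      · exact absurd h1 (hQm a' Q.start_mem_support)
    have hb' : b' = m1 ∨ b' = m2 := by
      have h1 : b' ∈ ({m1, m2, v, b} : Set V) := by rw [hA']; simp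
      rcases h1 with h1 | h1 | h1 | h1
      · exact Or.inl h1
      · exact Or.inr h1
      · exact absurd h1 (hQv b' Q.end_mem_support)
      · exact absurd h1 (hQm b' Q.end_mem_support)
    have hab' : a' ≠ b' := by
      intro hab'
      rw [hA', hab'] at hA
      have h1 : ({v, b, b', b'} : Set V) = {v, b, b'} := by simp
      rw [h1] at hA
      have := three_sub (S := {v, b, b'}) subset_rfl
      omega
    have hQe : ∀ e ∈ Q.edges, e ∈ G.edgeSet ∧ c e = c' e := by
      intro e he
      induction e using Sym2.ind with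
      | _ x y =>
        have hx := Walk.fst_mem_support_of_mem_edges _ he
        have hy := Walk.snd_mem_support_of_mem_edges _ he
        have hxy : H.Adj x y := Walk.adj_of_mem_edges _ he
        refine ⟨?_, (hc'of x y (hQv x hx) (hQv y hy)).symm⟩
        rcases hHadj _ _ hxy with h1 | ⟨h1, -⟩ | ⟨-, h1⟩
        · exact h1.1
        · exact absurd h1 (hQv x hx)
        · exact absurd h1 (hQv y hy)
    have hQD : ∀ x ∈ Q.support, x ∉ D := by
      apply walk_mem (S := {x | x ∉ D}) _ Q
      · show a' ∉ D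
        rcases ha' with h1 | h1
        · rw [h1]; exact hm1D
        · rw [h1]; exact hm2D
      · intro x y hxy
        show y ∉ D
        rcases hHadj _ _ hxy with h1 | ⟨-, h1⟩ | ⟨-, h1⟩
        · exact h1.2.2.1
        · rw [h1]; exact hm3D
        · rw [h1]; exact hvD
    have hQG : ∃ R : G.Walk a' b', R.IsPath ∧ wt c R = π a' + π b' + 1 ∧
        ∀ x ∈ R.support, x ∉ D ∧ x ≠ v ∧ x ≠ b := by
      refine ⟨Q.transfer G (fun e he => (hQe e he).1), hQ.transfer _, ?_, ?_⟩
      · rw [wt_transfer, ← hQw]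
        exact wt_congr c c' Q (fun e he => (hQe e he).2)
      · intro x hx
        rw [Walk.support_transfer] at hx
        exact ⟨hQD x hx, hQv x hx, hQm x hx⟩
    obtain ⟨R, hR1, hR2, hR3⟩ := hQG
    rcases ha' with rfl | rfl <;> rcases hb' with rfl | rfl
    · exact absurd rfl hab'
    · exact ⟨R, hR1, by rw [hR2, hπ1, hπ2], hR3⟩
    · refine ⟨R.reverse, hR1.reverse, ?_, ?_⟩
      · rw [wt_reverse, hR2, hπ1, hπ2, add_comm (κ a')]
      · intro x hx
        rw [Walk.support_reverse, List.mem_reverse] at hx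
        exact hR3 x hx
    · exact absurd rfl hab'
  · exfalso
    have hvA : v ∈ A1 ∪ X := hO.A_sub (by simp)
    have hmA : m3 ∈ A1 ∪ X := hO.A_sub (by simp)
    have key : (v ∈ X ∨ m3 ∈ X) ∨ (v ∈ B ∧ m3 ∈ B) := by
      by_contra hcon
      rw [not_or, not_or] at hcon
      obtain ⟨⟨h1, h2⟩, h3⟩ := hcon
      have hv' := hvA.resolve_right h1
      have hm' := hmA.resolve_right h2
      have h4 := hO.edge v hv' m3 hm' hvm h3
      have h5 : ρ v = 0 := by
        rw [hO.pot v (by simp) hv', hπ]; simp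
      have h6 : ρ m3 = 0 := by
        rw [hO.pot m3 (by simp) hm', hπ]; simp
      rw [h5, h6, hc'] at h4
      simp at h4
    have hX : ∀ x ∈ X, x = v ∨ x = m3 := by
      intro x hx
      have hB := hO.B_empty ⟨x, hx⟩
      rcases key with (h1 | h1) | h1
      · exact Or.inl (eq_of_ncard_le_one hO.X_le hx h1)
      · exact Or.inr (eq_of_ncard_le_one hO.X_le hx h1)
      · rw [hB] at h1
        exact absurd h1.1 (Set.notMem_empty _)
    have hone : ∀ u w, u ≠ v → u ≠ m3 → w ≠ v → w ≠ m3 → u ≠ w → ¬ (u ∈ B ∧ w ∈ B) := by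
      rintro u w hu1 hu2 hw1 hw2 huw ⟨huB, hwB⟩
      have hXe : ¬ X.Nonempty := by
        intro hX
        rw [hO.B_empty hX] at huB
        exact huB
      have h1 : v ∈ B ∧ m3 ∈ B := by
        rcases key with (h1 | h1) | h1
        · exact absurd ⟨_, h1⟩ hXe
        · exact absurd ⟨_, h1⟩ hXe
        · exact h1
      have h2 : ({u, w, v, m3} : Set V).ncard = 4 := by
        rw [Set.ncard_insert_of_notMem, Set.ncard_insert_of_notMem, Set.ncard_pair hv3]
        · simp only [Set.mem_insert_iff, Set.mem_singleton_iff, not_or]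
          exact ⟨hw1, hw2⟩
        · simp only [Set.mem_insert_iff, Set.mem_singleton_iff, not_or]
          exact ⟨huw, hu1, hu2⟩
      have h3 : ({u, w, v, m3} : Set V) ⊆ B := by
        rintro x (rfl | rfl | rfl | rfl)
        · exact huB
        · exact hwB
        · exact h1.1
        · exact h1.2
      have h4 := Set.ncard_le_ncard h3 (Set.toFinite _)
      have h5 := hO.B_le
      omega
    have hm1A : m1 ∈ A1 := by
      rcases hO.A_sub (show m1 ∈ ({m1, m2, v, m3} : Set V) by simp) with h1 | h1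
      · exact h1
      · rcases hX _ h1 with h2 | h2
        · exact absurd h2.symm hv1
        · exact absurd h2 h13
    have hm2A : m2 ∈ A1 := by
      rcases hO.A_sub (show m2 ∈ ({m1, m2, v, m3} : Set V) by simp) with h1 | h1
      · exact h1
      · rcases hX _ h1 with h2 | h2
        · exact absurd h2.symm hv2
        · exact absurd h2 h23
    have hρ1 : ρ m1 = κ m1 := by rw [hO.pot m1 (by simp) hm1A, hπ1]
    have hρ2 : ρ m2 = κ m2 := by rw [hO.pot m2 (by simp) hm2A, hπ2]
    have hDadj : ∀ x y, x ∈ D → y ∉ D → y ≠ v → y ≠ m3 → G.Adj x y → y = m1 ∨ y = m2 := by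
      intro x y hx hy hyv hym hxy
      rcases hnb ⟨hy, x, hx, hxy⟩ with h1 | h1 | h1 | h1
      · exact absurd h1 hyv
      · exact Or.inl h1
      · exact Or.inr h1
      · exact absurd h1 hym
    have hDadj' : ∀ x y, x ∉ A1 → x ∉ D → x ≠ v → x ≠ m3 → G.Adj x y → y ∉ D := by
      intro x y hx hxD hxv hxm hxy hyD
      rcases hDadj y x hyD hxD hxv hxm hxy.symm with h1 | h1
      · exact hx (h1 ▸ hm1A)
      · exact hx (h1 ▸ hm2A)
    -- uniqueness of the attachment of an outside vertex
    have huniq : ∀ x y y', x ∉ A1 → x ∉ D → x ≠ v → x ≠ m3 → y ∈ A1 → y ≠ v → y ≠ m3 →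
        y' ∈ A1 → y' ≠ v → y' ≠ m3 → G.Adj x y → G.Adj x y' → y = y' := by
      intro x y y' hx hxD hxv hxm hy hyv hym hy' hyv' hym' hxy hxy'
      by_contra hne
      have hyD := hDadj' x y hx hxD hxv hxm hxy
      have hyD' := hDadj' x y' hx hxD hxv hxm hxy'
      have hxX : x ∉ X := by
        intro hxX
        rcases hX x hxX with h1 | h1
        · exact hxv h1
        · exact hxm h1
      have h1 := hO.walk y hy y' hy' hne x x (hHof y x hxy.symm hyD hxD hyv hym hxv hxm)
        (hHof y' x hxy'.symm hyD' hxD hyv' hym' hxv hxm) Walk.nil (by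
          intro z hz
          simp only [Walk.support_nil, List.mem_cons, List.not_mem_nil, or_false] at hz
          rw [hz]; exact ⟨hx, hxX⟩)
      exact hone y y' hyv hym hyv' hym' hne h1
    -- no edge between outside vertices
    have hout : ∀ x y, x ∉ A1 → x ∉ D → x ≠ v → x ≠ m3 → y ∉ A1 → y ≠ v → y ≠ m3 →
        ¬ G.Adj x y := by
      intro x y hx hxD hxv hxm hy hyv hym hxy
      have hyD := hDadj' x y hx hxD hxv hxm hxy
      have hXn : ∀ z, z ≠ v → z ≠ m3 → z ∉ X := by
        intro z h1 h2 h3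
        rcases hX z h3 with h4 | h4
        · exact h1 h4
        · exact h2 h4
      set C : Set V := Reach H {x} (A1 ∪ X) with hC
      have hxC : x ∈ C := reach_of_mem rfl (by
        rintro (h1 | h1)
        · exact hx h1
        · exact hXn x hxv hxm h1)
      have hyC : y ∈ C := reach_adj hxC (hHof x y hxy hxD hyD hxv hxm hyv hym) (by
        rintro (h1 | h1)
        · exact hy h1
        · exact hXn y hyv hym h1)
      have hvC : v ∉ C := fun h1 => not_mem_of_reach h1 hvA
      have hmC : m3 ∉ C := fun h1 => not_mem_of_reach h1 hmA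
      have hCA : ∀ z ∈ C, z ∉ A1 := fun z hz h1 => not_mem_of_reach hz (Or.inl h1)
      have hCD : ∀ z ∈ C, z ∉ D ∧ z ∈ U := by
        rintro z ⟨a, ha, p, hp⟩
        rw [Set.mem_singleton_iff] at ha
        subst ha
        refine ⟨?_, ?_⟩
        · have h1 : ∀ w ∈ p.support, w ∈ {w | w ∉ D} := by
            apply walk_mem (S := {w | w ∉ D}) _ p
            · exact hxD
            · intro w1 w2 h2
              show w2 ∉ D
              rcases hHadj _ _ h2 with h3 | ⟨-, h3⟩ | ⟨-, h3⟩
              · exact h3.2.2.1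
              · rw [h3]; exact hm3D
              · rw [h3]; exact hvD
          exact h1 z p.end_mem_support
        · by_cases haz : a = z
          · subst haz
            exact h.edge_mem _ _ hxy
          · obtain ⟨w, hw, -⟩ := exists_last_edge p haz
            have hzv : z ≠ v := by
              rintro rfl
              exact (hp z p.end_mem_support) hvA
            have hzm : z ≠ m3 := by
              rintro rfl
              exact (hp z p.end_mem_support) hmA
            rcases hHadj _ _ hw with h3 | ⟨-, h3⟩ | ⟨-, h3⟩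
            · exact h.edge_mem _ _ h3.1.symm
            · exact absurd h3 hzm
            · exact absurd h3 hzv
      have hCne : ∀ z ∈ C, z ≠ v ∧ z ≠ m3 := by
        intro z hz
        refine ⟨?_, ?_⟩
        · rintro rfl; exact hvC hz
        · rintro rfl; exact hmC hz
      -- neighbours of C
      have hNC : ∀ w ∈ Nb G C, w = v ∨ w = m3 ∨ (w ∈ A1 ∧ w ∈ Nb H C ∧ w ≠ v ∧ w ≠ m3) := by
        rintro w ⟨hw, z, hz, hzw⟩
        by_cases h1 : w = v
        · exact Or.inl h1
        by_cases h2 : w = m3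
        · exact Or.inr (Or.inl h2)
        right; right
        have hwD := hDadj' z w (hCA z hz) (hCD z hz).1 (hCne z hz).1 (hCne z hz).2 hzw
        have hH' : H.Adj z w := hHof z w hzw (hCD z hz).1 hwD (hCne z hz).1 (hCne z hz).2 h1 h2
        have hN : w ∈ Nb H C := ⟨hw, z, hz, hH'⟩
        refine ⟨?_, hN, h1, h2⟩
        rcases Nb_Reach hN with h3 | h3
        · exact h3
        · exact absurd h3 (hXn w h1 h2)
      have huq : ∀ w ∈ Nb G C, ∀ w' ∈ Nb G C, w ≠ v → w ≠ m3 → w' ≠ v → w' ≠ m3 → w = w' := by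
        intro w hw w' hw' h1 h2 h3 h4
        by_contra hne
        rcases hNC w hw with h5 | h5 | h5
        · exact h1 h5
        · exact h2 h5
        rcases hNC w' hw' with h6 | h6 | h6
        · exact h3 h6
        · exact h4 h6
        exact hone w w' h1 h2 h3 h4 hne (obs_comp hO subset_rfl h5.1 h5.2.1 h6.1 h6.2.1 hne)
      have hN3 : (Nb G C).ncard ≤ 3 := by
        by_cases hex : ∃ w ∈ Nb G C, w ≠ v ∧ w ≠ m3
        · obtain ⟨w, hw, h1, h2⟩ := hex
          apply three_sub (a := v) (b := m3) (d := w)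
          intro z hz
          by_cases h3 : z = v
          · exact Or.inl h3
          by_cases h4 : z = m3
          · exact Or.inr (Or.inl h4)
          · exact Or.inr (Or.inr (huq z hz w hw h3 h4 h1 h2))
        · push Not at hex
          apply three_sub (a := v) (b := m3) (d := m3)
          intro z hz
          by_cases h3 : z = v
          · exact Or.inl h3
          · exact Or.inr (Or.inl (hex z hz h3))
      have hrest := h.cut C (fun z hz => (hCD z hz).2) (two_le_ncard_of hxC hyC hxy.ne) hN3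
      rcases hD with ⟨d, hd⟩ | hD
      · have hdr : d ∈ U \ (C ∪ Nb G C) := by
          refine ⟨hDU hd, ?_⟩
          rintro (h1 | h1)
          · exact (hCD d h1).1 hd
          · obtain ⟨-, z, hz, hzd⟩ := h1
            exact hDadj' z d (hCA z hz) (hCD z hz).1 (hCne z hz).1 (hCne z hz).2 hzd hd
        have hmi : ∀ m, m ∈ U → m ∈ A1 → m ∉ D → m ∉ Nb G C → False := by
          intro m hmU hmA' hmD hmN
          have h1 : m ∈ U \ (C ∪ Nb G C) := by
            refine ⟨hmU, ?_⟩
            rintro (h2 | h2)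
            · exact hCA m h2 hmA'
            · exact hmN h2
          have h2 := eq_of_ncard_le_one hrest h1 hdr
          exact hmD (h2 ▸ hd)
        by_cases h1 : m1 ∈ Nb G C
        · by_cases h2 : m2 ∈ Nb G C
          · exact h12 (huq m1 h1 m2 h2 hv1.symm h13 hv2.symm h23)
          · exact hmi m2 hm2U hm2A hm2D h2
        · exact hmi m1 hm1U hm1A hm1D h1
      · -- no inner vertices: one of m1, m2 is the only remaining vertex
        have hmr : ∀ m, m ∈ U → m ∈ A1 → m ∉ Nb G C → m ∈ U \ (C ∪ Nb G C) := by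
          intro m hmU hmA' hmN
          refine ⟨hmU, ?_⟩
          rintro (h2 | h2)
          · exact hCA m h2 hmA'
          · exact hmN h2
        have hfin : ∀ m m', m ∈ U → m ∈ A1 → m ≠ v → m ≠ m3 → m ∉ D → m' ∈ A1 → m' ≠ v →
            m' ≠ m3 → m' ∉ D → m ≠ m' → m ∉ Nb G C → m' ∈ Nb G C →
            c s(m, m') ≠ ρ m + ρ m' → False := by
          intro m m' hmU hmA1 hmv hmm hmD hm'A1 hm'v hm'm hm'D hne hmN hm'N hlab
          have hmr' := hmr m hmU hmA1 hmN
          have hsub : G.neighborSet m ⊆ {v, m3, m'} := by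
            intro z hz
            have hzU : z ∈ U := h.edge_mem z m (SimpleGraph.Adj.symm hz)
            have hmz : G.Adj m z := hz
            by_cases hzC : z ∈ C
            · exfalso
              exact hmN ⟨fun h2 => hCA m h2 hmA1, z, hzC, hmz.symm⟩
            by_cases hzN : z ∈ Nb G C
            · by_cases h3 : z = v
              · exact Or.inl h3
              by_cases h4 : z = m3
              · exact Or.inr (Or.inl h4)
              · exact Or.inr (Or.inr (huq z hzN m' hm'N h3 h4 hm'v hm'm))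
            · exfalso
              have h3 : z ∈ U \ (C ∪ Nb G C) := ⟨hzU, fun h4 => h4.elim hzC hzN⟩
              exact hmz.ne (eq_of_ncard_le_one hrest hmr' h3)
          have h4 := h.deg3 m hmU
          have hadj : G.Adj m m' := by
            by_contra hna
            have h5 : G.neighborSet m ⊆ {v, m3} := by
              intro z hz
              rcases hsub hz with h6 | h6 | h6
              · exact Or.inl h6
              · exact Or.inr h6
              · exact absurd (h6 ▸ hz) hna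
            have h6 := (Set.ncard_le_ncard h5 (Set.toFinite _)).trans (ncard_pair_le' _ _)
            omega
          apply hlab
          rw [← hc'of m m' hmv hm'v]
          exact hO.edge m hmA1 m' hm'A1 (hHof m m' hadj hmD hm'D hmv hmm hm'v hm'm)
            (hone m m' hmv hmm hm'v hm'm hne)
        by_cases h1 : m1 ∈ Nb G C
        · by_cases h2 : m2 ∈ Nb G C
          · exact h12 (huq m1 h1 m2 h2 hv1.symm h13 hv2.symm h23)
          · refine hfin m2 m1 hm2U hm2A hv2.symm h23 hm2D hm1A hv1.symm h13 hm1D h12.symm h2 h1 ?_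
            rw [Sym2.eq_swap, hρ1, hρ2, add_comm]
            exact hD
        · by_cases h2 : m2 ∈ Nb G C
          · refine hfin m1 m2 hm1U hm1A hv1.symm h13 hm1D hm2A hv2.symm h23 hm2D h12 h1 h2 ?_
            rw [hρ1, hρ2]
            exact hD
          · exact h12 (eq_of_ncard_le_one hrest (hmr m1 hm1U hm1A h1) (hmr m2 hm2U hm2A h2))
    -- the potential
    have hw : ∀ x, ∃ w, (∃ w', w' ∈ A1 ∧ w' ≠ v ∧ w' ≠ m3 ∧ G.Adj x w') →
        (w ∈ A1 ∧ w ≠ v ∧ w ≠ m3 ∧ G.Adj x w) := by
      intro x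
      by_cases hex : ∃ w', w' ∈ A1 ∧ w' ≠ v ∧ w' ≠ m3 ∧ G.Adj x w'
      · obtain ⟨w, hw⟩ := hex
        exact ⟨w, fun _ => hw⟩
      · exact ⟨x, fun h1 => absurd h1 hex⟩
    choose f hf using hw
    set κ' : V → ZMod 2 := fun x => if x ∈ D then κ x else if x ∈ A1 then ρ x else
      ρ (f x) + c s(x, f x) with hκ'
    have k1 : ∀ x, x ∈ D → κ' x = κ x := by
      intro x hx; rw [hκ']; simp only [if_pos hx]
    have k2 : ∀ x, x ∉ D → x ∈ A1 → κ' x = ρ x := by
      intro x hx hx'; rw [hκ']; simp only [if_neg hx, if_pos hx']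
    have k3 : ∀ x, x ∉ D → x ∉ A1 → κ' x = ρ (f x) + c s(x, f x) := by
      intro x hx hx'; rw [hκ']; simp only [if_neg hx, if_neg hx']
    have g1 : ∀ x y, x ∈ D → y ≠ v → y ≠ m3 → G.Adj x y → c s(x, y) = κ' x + κ' y := by
      intro x y hx hyv hym hxy
      by_cases hyD : y ∈ D
      · rw [k1 x hx, k1 y hyD]
        exact hpot x hx y (Or.inl hyD) hxy
      · rcases hDadj x y hx hyD hyv hym hxy with rfl | rfl
        · rw [k1 x hx, k2 y hyD hm1A, hρ1]
          exact hpot x hx y (Or.inr (Or.inl rfl)) hxy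
        · rw [k1 x hx, k2 y hyD hm2A, hρ2]
          exact hpot x hx y (Or.inr (Or.inr rfl)) hxy
    have g2 : ∀ x y, x ∉ D → x ∉ A1 → x ≠ v → x ≠ m3 → y ∉ D → y ∈ A1 → y ≠ v → y ≠ m3 →
        G.Adj x y → c s(x, y) = κ' x + κ' y := by
      intro x y hxD hx hxv hxm hyD hy hyv hym hxy
      have h1 := hf x ⟨y, hy, hyv, hym, hxy⟩
      have h2 := huniq x (f x) y hx hxD hxv hxm h1.1 h1.2.1 h1.2.2.1 hy hyv hym h1.2.2.2 hxy
      rw [k3 x hxD hx, k2 y hyD hy, h2, add_comm (ρ y), add_assoc, CharTwo.add_self_eq_zero,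
        add_zero]
    apply h.idx v m3 κ'
    intro x y hx hy hxy
    simp only [Set.mem_insert_iff, Set.mem_singleton_iff, not_or] at hx hy
    by_cases hxD : x ∈ D
    · exact g1 x y hxD hy.1 hy.2 hxy
    by_cases hyD : y ∈ D
    · rw [Sym2.eq_swap, add_comm]; exact g1 y x hyD hx.1 hx.2 hxy.symm
    by_cases hxA : x ∈ A1
    · by_cases hyA : y ∈ A1
      · rw [k2 x hxD hxA, k2 y hyD hyA, ← hc'of x y hx.1 hy.1]
        exact hO.edge x hxA y hyA (hHof x y hxy hxD hyD hx.1 hx.2 hy.1 hy.2)
          (hone x y hx.1 hx.2 hy.1 hy.2 hxy.ne)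
      · rw [Sym2.eq_swap, add_comm]
        exact g2 y x hyD hyA hy.1 hy.2 hxD hxA hx.1 hx.2 hxy.symm
    · by_cases hyA : y ∈ A1
      · exact g2 x y hxD hxA hx.1 hx.2 hyD hyA hy.1 hy.2 hxy
      · exact absurd hxy (hout x y hxA hxD hx.1 hx.2 hyA hy.1 hy.2)

end Pool.Agent.Helper1.GL
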