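import Pool.Agent.Helper1.GL.Basic

/-!
# Global part: gadgets and balanced cuts

A gadget is a small bipartite subgraph `J` with four terminals `q 0 .. q 3`, an apex `v` and inner
vertices `F`, such that two disjoint paths with wrong labels on the terminals (and some of those
using the apex) complete it to a TOK4. In an internally 4-connected graph of index at least three a
gadget gives a TOK4 or a balanced set `D ∪ F` bounded by at most three vertices and the apex.
-/

set_option autoImplicit false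

namespace Pool.Agent.Helper1.GL

open SimpleGraph Pool.Agent.Helper57.TOK Pool.Agent.Helper57.TD Pool.Agent.Helper82.TK
  Pool.Agent.Helper1.TD

variable {V : Type*}

/-- A gadget. -/
structure Gad (G : SimpleGraph V) (c : Sym2 V → ZMod 2) (J : SimpleGraph V) (κ : V → ZMod 2)
    (F : Set V) (q : Fin 4 → V) (v : V) : Prop where
  le : J ≤ G
  inj : Function.Injective q
  vq : ∀ i, q i ≠ v
  vF : v ∉ F
  qF : ∀ i, q i ∉ F
  full : ∀ x ∈ F, ∀ y, G.Adj x y → J.Adj x y
  sub : supp J ⊆ F ∪ insert v (Set.range q)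
  Fs : F ⊆ supp J
  qs : ∀ i, q i ∈ supp J
  lab : ∀ x y, J.Adj x y → c s(x, y) = κ x + κ y
  E1 : ∀ i j k l : Fin 4, i ≠ j → i ≠ k → i ≠ l → j ≠ k → j ≠ l → k ≠ l →
    LocFr J κ F (insert v (Set.range q)) (q i) (q j) (q k) (q l)
  E2 : ∀ i, ∃ j k, i ≠ j ∧ i ≠ k ∧ j ≠ k ∧
    LocFr J κ F (insert v (Set.range q)) v (q i) (q j) (q k)

/-- A frame of the gadget and two disjoint paths with wrong labels give a TOK4. -/
theorem tok_of_frame {G : SimpleGraph V} {c : Sym2 V → ZMod 2} {J : SimpleGraph V}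
    {κ : V → ZMod 2} {F Q : Set V} (hle : J ≤ G)
    (hlab : ∀ x y, J.Adj x y → c s(x, y) = κ x + κ y) {a b u w : V}
    (hF : LocFr J κ F Q a b u w) (ha : a ∈ F ∪ Q) (hb : b ∈ F ∪ Q) (hu : u ∈ F ∪ Q)
    (hw : w ∈ F ∪ Q) (P : G.Walk a b) (R : G.Walk u w) (hP : P.IsPath) (hR : R.IsPath)
    (hPw : wt c P = κ a + κ b + 1) (hRw : wt c R = κ u + κ w + 1)
    (hPR : ∀ x ∈ P.support, x ∉ R.support)
    (hPs : ∀ x ∈ P.support, x ∈ F ∪ Q → x = a ∨ x = b)
    (hRs : ∀ x ∈ R.support, x ∈ F ∪ Q → x = u ∨ x = w) : HasTOK4s G c := by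
  classical
  obtain ⟨Z', h1, h2, h3, h4, h5⟩ := hF
  have hsub : supp Z' ∪ {a, b, u, w} ⊆ F ∪ Q := by
    rintro x (hx | rfl | rfl | rfl | rfl)
    · exact h2 hx
    · exact ha
    · exact hb
    · exact hu
    · exact hw
  refine FrameE.realize (Z := Z') (G := G) (κ := κ) (cG := c) (fun x => x)
    (fun x => if x ∈ P.support then s(a, b) else s(u, w)) (fun x _ y _ h => h) ?_ h3 h4 P R hP hR
    ?_ ?_ ?_ ?_ h5
  · intro x y hxy
    obtain ⟨R', g1, g2, g3⟩ := exists_edge_walk c (hle (h1 hxy))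
    refine ⟨R', g1, by rw [g2, hlab x y (h1 hxy)], ?_⟩
    intro z hz
    rw [g3] at hz
    simp only [List.mem_cons, List.not_mem_nil, or_false] at hz
    rcases hz with hz | hz
    · exact Or.inl hz
    · exact Or.inr (Or.inl hz)
  · rw [hPw]; unfold vl; ring
  · rw [hRw]; unfold vl; ring
  · intro z hz
    by_cases h : z ∈ supp Z' ∪ {a, b, u, w}
    · rcases hPs z hz (hsub h) with h1 | h1
      · exact Or.inl h1
      · exact Or.inr (Or.inl h1)
    · refine Or.inr (Or.inr ⟨if_pos hz, ?_⟩)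
      rintro ⟨w', hw', hwz⟩
      have hwz' : w' = z := hwz
      exact h (hwz' ▸ hw')
  · intro z hz
    by_cases h : z ∈ supp Z' ∪ {a, b, u, w}
    · rcases hRs z hz (hsub h) with h1 | h1
      · exact Or.inl h1
      · exact Or.inr (Or.inl h1)
    · refine Or.inr (Or.inr ⟨if_neg (fun h' => hPR z h' hz), ?_⟩)
      rintro ⟨w', hw', hwz⟩
      have hwz' : w' = z := hwz
      exact h (hwz' ▸ hw')

/-- The obstruction with a deleted vertex is impossible. -/
theorem I4.obs_false [Finite V] {G : SimpleGraph V} {c : Sym2 V → ZMod 2} {U : Set V}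
    (h : I4 G c U) {p1 p2 : V} {D A1 : Set V} {κ ρ : V → ZMod 2}
    (hD1 : ∀ x ∈ D, ∀ y, G.Adj x y → y ∈ D ∨ y = p1 ∨ y = p2 ∨ y ∈ A1)
    (hD2 : ∀ x ∈ D, ∀ y ∈ D, G.Adj x y → c s(x, y) = κ x + κ y)
    (hD3 : ∀ x ∈ D, ∀ y ∈ A1, y ∉ D → y ≠ p1 → y ≠ p2 → G.Adj x y → c s(x, y) = κ x + ρ y)
    (hAA : ∀ x ∈ A1, ∀ y ∈ A1, x ∉ D → y ∉ D → x ≠ p1 → x ≠ p2 → y ≠ p1 → y ≠ p2 →
      G.Adj x y → c s(x, y) = ρ x + ρ y)
    (hwalk : ∀ u ∈ A1, ∀ w ∈ A1, u ≠ w → u ∉ D → w ∉ D → u ≠ p1 → u ≠ p2 → w ≠ p1 → w ≠ p2 →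
      ∀ u' w', G.Adj u u' → G.Adj w w' → ∀ p : G.Walk u' w',
      (∀ x ∈ p.support, x ∉ A1 ∧ x ∉ D ∧ x ≠ p1 ∧ x ≠ p2) → False)
    {e1 e2 e3 : V} (h12 : e1 ≠ e2) (h13 : e1 ≠ e3) (h23 : e2 ≠ e3)
    (he1 : e1 ∈ U ∧ (e1 ∈ D ∨ e1 ∈ A1) ∧ e1 ≠ p1 ∧ e1 ≠ p2)
    (he2 : e2 ∈ U ∧ (e2 ∈ D ∨ e2 ∈ A1) ∧ e2 ≠ p1 ∧ e2 ≠ p2)
    (he3 : e3 ∈ U ∧ (e3 ∈ D ∨ e3 ∈ A1) ∧ e3 ≠ p1 ∧ e3 ≠ p2) : False := by
  classical
  have hDadj : ∀ x y, x ∉ A1 → x ∉ D → x ≠ p1 → x ≠ p2 → G.Adj x y → y ∉ D := by
    intro x y hx hxD hx1 hx2 hxy hyD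
    rcases hD1 y hyD x hxy.symm with h1 | h1 | h1 | h1
    · exact hxD h1
    · exact hx1 h1
    · exact hx2 h1
    · exact hx h1
  have huniq : ∀ x y y', x ∉ A1 → x ∉ D → x ≠ p1 → x ≠ p2 → y ∈ A1 → y ≠ p1 → y ≠ p2 →
      y' ∈ A1 → y' ≠ p1 → y' ≠ p2 → G.Adj x y → G.Adj x y' → y = y' := by
    intro x y y' hx hxD hx1 hx2 hy hy1 hy2 hy' hy1' hy2' hxy hxy'
    by_contra hne
    refine hwalk y hy y' hy' hne (hDadj x y hx hxD hx1 hx2 hxy) (hDadj x y' hx hxD hx1 hx2 hxy')
      hy1 hy2 hy1' hy2' x x hxy.symm hxy'.symm Walk.nil ?_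
    intro z hz
    simp only [Walk.support_nil, List.mem_cons, List.not_mem_nil, or_false] at hz
    rw [hz]
    exact ⟨hx, hxD, hx1, hx2⟩
  set S : Set V := A1 ∪ D ∪ {p1, p2} with hS
  have hSn : ∀ z, z ∉ S → z ∉ A1 ∧ z ∉ D ∧ z ≠ p1 ∧ z ≠ p2 := by
    intro z hz
    simp only [hS, Set.mem_union, Set.mem_insert_iff, Set.mem_singleton_iff, not_or] at hz
    exact ⟨hz.1.1, hz.1.2, hz.2.1, hz.2.2⟩
  have hSn' : ∀ z, z ∉ A1 → z ∉ D → z ≠ p1 → z ≠ p2 → z ∉ S := by
    intro z h1 h2 h3 h4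
    simp only [hS, Set.mem_union, Set.mem_insert_iff, Set.mem_singleton_iff, not_or]
    exact ⟨⟨h1, h2⟩, h3, h4⟩
  have hout : ∀ x y, x ∉ A1 → x ∉ D → x ≠ p1 → x ≠ p2 → y ∉ A1 → y ≠ p1 → y ≠ p2 →
      ¬ G.Adj x y := by
    intro x y hx hxD hx1 hx2 hy hy1 hy2 hxy
    have hyD := hDadj x y hx hxD hx1 hx2 hxy
    set C : Set V := Reach G {x} S with hC
    have hxC : x ∈ C := reach_of_mem rfl (hSn' x hx hxD hx1 hx2)
    have hyC : y ∈ C := reach_adj hxC hxy (hSn' y hy hyD hy1 hy2)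
    have hCS : ∀ z ∈ C, z ∉ A1 ∧ z ∉ D ∧ z ≠ p1 ∧ z ≠ p2 := fun z hz =>
      hSn z (not_mem_of_reach hz)
    have hCU : C ⊆ U := by
      rintro z ⟨a, ha, p, hp⟩
      rw [Set.mem_singleton_iff] at ha
      subst ha
      by_cases haz : a = z
      · subst haz
        exact h.edge_mem _ _ hxy
      · obtain ⟨w, hw, -⟩ := exists_last_edge p haz
        exact h.edge_mem _ _ hw.symm
    have hNC : ∀ w ∈ Nb G C, w = p1 ∨ w = p2 ∨ (w ∈ A1 ∧ w ∉ D ∧ w ≠ p1 ∧ w ≠ p2) := by
      intro w hw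
      by_cases h1 : w = p1
      · exact Or.inl h1
      by_cases h2 : w = p2
      · exact Or.inr (Or.inl h2)
      right; right
      obtain ⟨hwC, z, hz, hzw⟩ := hw
      have hz' := hCS z hz
      have hwD := hDadj z w hz'.1 hz'.2.1 hz'.2.2.1 hz'.2.2.2 hzw
      refine ⟨?_, hwD, h1, h2⟩
      by_contra hwA
      exact hwC (reach_adj hz hzw (hSn' w hwA hwD h1 h2))
    have huq : ∀ w ∈ Nb G C, ∀ w' ∈ Nb G C, w ≠ p1 → w ≠ p2 → w' ≠ p1 → w' ≠ p2 → w = w' := by
      intro w hw w' hw' h1 h2 h3 h4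
      by_contra hne
      rcases hNC w hw with h5 | h5 | h5
      · exact h1 h5
      · exact h2 h5
      rcases hNC w' hw' with h6 | h6 | h6
      · exact h3 h6
      · exact h4 h6
      obtain ⟨-, u', ⟨a, ha, p, hp⟩, huu⟩ := hw
      obtain ⟨-, w'', ⟨b, hb, r, hr⟩, hww⟩ := hw'
      rw [Set.mem_singleton_iff] at ha hb
      subst ha
      subst hb
      refine hwalk w h5.1 w' h6.1 hne h5.2.1 h6.2.1 h1 h2 h3 h4 u' w'' huu.symm hww.symm
        (p.reverse.append r) ?_
      intro z hz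
      rw [Walk.mem_support_append_iff, Walk.support_reverse, List.mem_reverse] at hz
      rcases hz with hz | hz
      · exact hSn z (hp z hz)
      · exact hSn z (hr z hz)
    have hN3 : (Nb G C).ncard ≤ 3 := by
      by_cases hex : ∃ w ∈ Nb G C, w ≠ p1 ∧ w ≠ p2
      · obtain ⟨w, hw, h1, h2⟩ := hex
        apply three_sub (a := p1) (b := p2) (d := w)
        intro z hz
        by_cases h3 : z = p1
        · exact Or.inl h3
        by_cases h4 : z = p2
        · exact Or.inr (Or.inl h4)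
        · exact Or.inr (Or.inr (huq z hz w hw h3 h4 h1 h2))
      · push Not at hex
        apply three_sub (a := p1) (b := p2) (d := p2)
        intro z hz
        by_cases h3 : z = p1
        · exact Or.inl h3
        · exact Or.inr (Or.inl (hex z hz h3))
    have hrest := h.cut C hCU (two_le_ncard_of hxC hyC hxy.ne) hN3
    have hr : ∀ e, (e ∈ U ∧ (e ∈ D ∨ e ∈ A1) ∧ e ≠ p1 ∧ e ≠ p2) → e ∉ Nb G C →
        e ∈ U \ (C ∪ Nb G C) := by
      intro e he heN
      refine ⟨he.1, ?_⟩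
      rintro (h1 | h1)
      · have h2 := hCS e h1
        rcases he.2.1 with h3 | h3
        · exact h2.2.1 h3
        · exact h2.1 h3
      · exact heN h1
    have hpair : ∀ e e', (e ∈ U ∧ (e ∈ D ∨ e ∈ A1) ∧ e ≠ p1 ∧ e ≠ p2) →
        (e' ∈ U ∧ (e' ∈ D ∨ e' ∈ A1) ∧ e' ≠ p1 ∧ e' ≠ p2) → e ≠ e' →
        e ∈ Nb G C ∨ e' ∈ Nb G C := by
      intro e e' he he' hne
      by_contra hcon
      rw [not_or] at hcon
      exact hne (eq_of_ncard_le_one hrest (hr e he hcon.1) (hr e' he' hcon.2))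
    have hbad : ∀ e e', (e ∈ U ∧ (e ∈ D ∨ e ∈ A1) ∧ e ≠ p1 ∧ e ≠ p2) →
        (e' ∈ U ∧ (e' ∈ D ∨ e' ∈ A1) ∧ e' ≠ p1 ∧ e' ≠ p2) → e ≠ e' →
        e ∈ Nb G C → e' ∈ Nb G C → False := fun e e' he he' hne h1 h2 =>
      hne (huq e h1 e' h2 he.2.2.1 he.2.2.2 he'.2.2.1 he'.2.2.2)
    rcases hpair e1 e2 he1 he2 h12 with h1 | h1
    · rcases hpair e2 e3 he2 he3 h23 with h2 | h2
      · exact hbad e1 e2 he1 he2 h12 h1 h2
      · exact hbad e1 e3 he1 he3 h13 h1 h2
    · rcases hpair e1 e3 he1 he3 h13 with h2 | h2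
      · exact hbad e1 e2 he1 he2 h12 h2 h1
      · exact hbad e2 e3 he2 he3 h23 h1 h2
  have hw : ∀ x, ∃ w, (∃ w', w' ∈ A1 ∧ w' ≠ p1 ∧ w' ≠ p2 ∧ G.Adj x w') →
      (w ∈ A1 ∧ w ≠ p1 ∧ w ≠ p2 ∧ G.Adj x w) := by
    intro x
    by_cases hex : ∃ w', w' ∈ A1 ∧ w' ≠ p1 ∧ w' ≠ p2 ∧ G.Adj x w'
    · obtain ⟨w, hw⟩ := hex
      exact ⟨w, fun _ => hw⟩
    · exact ⟨x, fun h1 => absurd h1 hex⟩
  choose f hf using hw
  set κ' : V → ZMod 2 := fun x => if x ∈ D then κ x else if x ∈ A1 then ρ x else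
    ρ (f x) + c s(x, f x) with hκ'
  have k1 : ∀ x, x ∈ D → κ' x = κ x := by
    intro x hx; rw [hκ']; simp only [if_pos hx]
  have k2 : ∀ x, x ∉ D → x ∈ A1 → κ' x = ρ x := by
    intro x hx hx'; rw [hκ']; simp only [if_neg hx, if_pos hx']
  have k3 : ∀ x, x ∉ D → x ∉ A1 → κ' x = ρ (f x) + c s(x, f x) := by
    intro x hx hx'; rw [hκ']; simp only [if_neg hx, if_neg hx']
  have g1 : ∀ x y, x ∈ D → y ≠ p1 → y ≠ p2 → G.Adj x y → c s(x, y) = κ' x + κ' y := by
    intro x y hx hy1 hy2 hxy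
    by_cases hyD : y ∈ D
    · rw [k1 x hx, k1 y hyD]
      exact hD2 x hx y hyD hxy
    · rcases hD1 x hx y hxy with h1 | h1 | h1 | h1
      · exact absurd h1 hyD
      · exact absurd h1 hy1
      · exact absurd h1 hy2
      · rw [k1 x hx, k2 y hyD h1]
        exact hD3 x hx y h1 hyD hy1 hy2 hxy
  have g2 : ∀ x y, x ∉ D → x ∉ A1 → x ≠ p1 → x ≠ p2 → y ∉ D → y ∈ A1 → y ≠ p1 → y ≠ p2 →
      G.Adj x y → c s(x, y) = κ' x + κ' y := by
    intro x y hxD hx hx1 hx2 hyD hy hy1 hy2 hxy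
    have h1 := hf x ⟨y, hy, hy1, hy2, hxy⟩
    have h2 := huniq x (f x) y hx hxD hx1 hx2 h1.1 h1.2.1 h1.2.2.1 hy hy1 hy2 h1.2.2.2 hxy
    rw [k3 x hxD hx, k2 y hyD hy, h2, add_comm (ρ y), add_assoc, CharTwo.add_self_eq_zero,
      add_zero]
  apply h.idx p1 p2 κ'
  intro x y hx hy hxy
  simp only [Set.mem_insert_iff, Set.mem_singleton_iff, not_or] at hx hy
  by_cases hxD : x ∈ D
  · exact g1 x y hxD hy.1 hy.2 hxy
  by_cases hyD : y ∈ D
  · rw [Sym2.eq_swap, add_comm]; exact g1 y x hyD hx.1 hx.2 hxy.symm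
  by_cases hxA : x ∈ A1
  · by_cases hyA : y ∈ A1
    · rw [k2 x hxD hxA, k2 y hyD hyA]
      exact hAA x hxA y hyA hxD hyD hx.1 hx.2 hy.1 hy.2 hxy
    · rw [Sym2.eq_swap, add_comm]
      exact g2 y x hyD hyA hy.1 hy.2 hxD hxA hx.1 hx.2 hxy.symm
  · by_cases hyA : y ∈ A1
    · exact g2 x y hxD hxA hx.1 hx.2 hyD hyA hy.1 hy.2 hxy
    · exact absurd hxy (hout x y hxA hxD hx.1 hx.2 hyA hy.1 hy.2)

/-- A balanced cut: `D ∪ F` is coloured by `κ'` up to the apex `v`, its other boundary `M` has at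
most three vertices. -/
structure GCut (G : SimpleGraph V) (c : Sym2 V → ZMod 2) (U : Set V) (κ : V → ZMod 2)
    (F : Set V) (q : Fin 4 → V) (v : V) (D M : Set V) (κ' : V → ZMod 2) : Prop where
  DU : D ⊆ U
  MU : M ⊆ U
  DM : ∀ x ∈ D, x ∉ M
  M3 : M.ncard ≤ 3
  vD : v ∉ D
  vM : v ∉ M
  FD : ∀ x ∈ F, x ∉ D
  FM : ∀ x ∈ F, x ∉ M
  cover : ∀ i, q i ∈ D ∨ q i ∈ M
  nb : ∀ x, (x ∈ D ∨ x ∈ F) → ∀ y, G.Adj x y → (y ∈ D ∨ y ∈ F ∨ y ∈ M) ∨ y = v
  pot : ∀ x, (x ∈ D ∨ x ∈ F) → ∀ y, (y ∈ D ∨ y ∈ F ∨ y ∈ M) → G.Adj x y →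
    c s(x, y) = κ' x + κ' y
  agF : ∀ x ∈ F, κ' x = κ x
  agq : ∀ i, κ' (q i) = κ (q i)
  agv : κ' v = κ v

section

variable {G : SimpleGraph V} {c : Sym2 V → ZMod 2} {U : Set V} {J : SimpleGraph V}
  {κ : V → ZMod 2} {F : Set V} {q : Fin 4 → V} {v : V}

lemma Gad.qU (hg : Gad G c J κ F q v) (h : I4 G c U) (i : Fin 4) : q i ∈ U := by
  obtain ⟨w, hw⟩ := hg.qs i
  exact h.edge_mem _ _ (hg.le hw)

lemma Gad.FU (hg : Gad G c J κ F q v) (h : I4 G c U) : F ⊆ U := by
  intro x hx
  obtain ⟨w, hw⟩ := hg.Fs hx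
  exact h.edge_mem _ _ (hg.le hw)

lemma Gad.Fnb (hg : Gad G c J κ F q v) {x y : V} (hx : x ∈ F) (hxy : G.Adj x y) :
    (y ∈ F ∨ y = v ∨ ∃ i, q i = y) ∧ c s(x, y) = κ x + κ y := by
  have h1 := hg.full x hx y hxy
  refine ⟨?_, hg.lab x y h1⟩
  rcases hg.sub (mem_supp_right h1) with h2 | h2 | h2
  · exact Or.inl h2
  · exact Or.inr (Or.inl h2)
  · exact Or.inr (Or.inr h2)

lemma Gad.A4 (hg : Gad G c J κ F q v) : (Set.range q).ncard = 4 := by
  rw [← Set.image_univ, Set.ncard_image_of_injective _ hg.inj, Set.ncard_univ]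
  simp

/-- Two disjoint wrong paths on the terminals give a TOK4. -/
theorem Gad.tok_of_two [Finite V] (hg : Gad G c J κ F q v)
    (hT : Two (delG G (insert v F)) c κ (Set.range q) (Set.range q)ᶜ) : HasTOK4s G c := by
  obtain ⟨a, b, a', b', hA, P, Q, hP, hQ, hPQ, -, -, hPw, hQw⟩ := hT
  have hA4 := hg.A4
  have hmem : ∀ x, x ∈ ({a, b, a', b'} : Set V) → ∃ i, q i = x := by
    intro x hx
    rw [← hA] at hx
    exact hx
  obtain ⟨i, hi⟩ := hmem a (by simp)
  obtain ⟨j, hj⟩ := hmem b (by simp)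
  obtain ⟨k, hk⟩ := hmem a' (by simp)
  obtain ⟨l, hl⟩ := hmem b' (by simp)
  have hne : a ≠ b ∧ a ≠ a' ∧ a ≠ b' ∧ b ≠ a' ∧ b ≠ b' ∧ a' ≠ b' := by
    rw [hA] at hA4
    refine ⟨?_, ?_, ?_, ?_, ?_, ?_⟩ <;> intro hh
    · have := three_sub (S := ({a, b, a', b'} : Set V)) (a := b) (b := a') (d := b') (by
        rw [hh]; simp)
      omega
    · have := three_sub (S := ({a, b, a', b'} : Set V)) (a := b) (b := a') (d := b') (by
        rw [hh]
        rintro x (rfl | rfl | rfl | rfl) <;> simp)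
      omega
    · have := three_sub (S := ({a, b, a', b'} : Set V)) (a := b) (b := a') (d := b') (by
        rw [hh]
        rintro x (rfl | rfl | rfl | rfl) <;> simp)
      omega
    · have := three_sub (S := ({a, b, a', b'} : Set V)) (a := a) (b := a') (d := b') (by
        rw [hh]
        rintro x (rfl | rfl | rfl | rfl) <;> simp)
      omega
    · have := three_sub (S := ({a, b, a', b'} : Set V)) (a := a) (b := a') (d := b') (by
        rw [hh]
        rintro x (rfl | rfl | rfl | rfl) <;> simp)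
      omega
    · have := three_sub (S := ({a, b, a', b'} : Set V)) (a := a) (b := b) (d := b') (by
        rw [hh]
        rintro x (rfl | rfl | rfl | rfl) <;> simp)
      omega
  obtain ⟨n1, n2, n3, n4, n5, n6⟩ := hne
  have hF := hg.E1 i j k l (fun hh => n1 (by rw [← hi, ← hj, hh]))
    (fun hh => n2 (by rw [← hi, ← hk, hh])) (fun hh => n3 (by rw [← hi, ← hl, hh]))
    (fun hh => n4 (by rw [← hj, ← hk, hh])) (fun hh => n5 (by rw [← hj, ← hl, hh]))
    (fun hh => n6 (by rw [← hk, ← hl, hh]))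
  rw [hi, hj, hk, hl] at hF
  have hin : ∀ x, x ∈ ({a, b, a', b'} : Set V) → x ∈ F ∪ insert v (Set.range q) := by
    intro x hx
    right; right; exact hmem x hx
  have hnot : ∀ i, q i ∉ insert v F := by
    rintro i (h1 | h1)
    · exact hg.vq i h1
    · exact hg.qF i h1
  have haX : a ∉ insert v F := hi ▸ hnot i
  have haX' : a' ∉ insert v F := hk ▸ hnot k
  have hle := delG_le G (insert v F)
  refine tok_of_frame hg.le hg.lab hF (hin a (by simp)) (hin b (by simp)) (hin a' (by simp))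
    (hin b' (by simp)) (P.mapLe hle) (Q.mapLe hle) ((Walk.isPath_mapLe hle).2 hP)
    ((Walk.isPath_mapLe hle).2 hQ) (by rw [wt_mapLe, hPw]) (by rw [wt_mapLe, hQw]) ?_ ?_ ?_
  · intro x hx
    rw [Walk.support_mapLe_eq_support] at hx ⊢
    exact hPQ x hx
  · intro x hx hxF
    rw [Walk.support_mapLe_eq_support] at hx
    have h1 := notMem_of_mem_support_delG P haX x hx
    rcases hxF with h2 | h2 | h2
    · exact absurd (Or.inr h2) h1
    · exact absurd (Or.inl h2) h1
    · rw [hA] at h2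
      rcases h2 with h3 | h3 | h3 | h3
      · exact Or.inl h3
      · exact Or.inr h3
      · exact absurd (h3 ▸ Q.start_mem_support) (hPQ x hx)
      · exact absurd (h3 ▸ Q.end_mem_support) (hPQ x hx)
  · intro x hx hxF
    rw [Walk.support_mapLe_eq_support] at hx
    have h1 := notMem_of_mem_support_delG Q haX' x hx
    rcases hxF with h2 | h2 | h2
    · exact absurd (Or.inr h2) h1
    · exact absurd (Or.inl h2) h1
    · rw [hA] at h2
      rcases h2 with h3 | h3 | h3 | h3
      · exact absurd hx (hPQ x (h3 ▸ P.start_mem_support))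
      · exact absurd hx (hPQ x (h3 ▸ P.end_mem_support))
      · exact Or.inl h3
      · exact Or.inr h3

/-- A gadget gives a TOK4 or a first cut. -/
theorem Gad.first_cut [Finite V] (h : I4 G c U) (hg : Gad G c J κ F q v) :
    HasTOK4s G c ∨ ∃ D M κ', GCut G c U κ F q v D M κ' := by
  classical
  rcases pack4 (delG G (insert v F)) c κ (Set.range q) hg.A4 with hT | ⟨X, A1, B, ρ, hO⟩
  · exact Or.inl (hg.tok_of_two hT)
  set H := delG G (insert v F) with hH
  have hHof : ∀ x y, G.Adj x y → x ≠ v → x ∉ F → y ≠ v → y ∉ F → H.Adj x y := by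
    intro x y h1 h2 h3 h4 h5
    refine ⟨h1, ?_, ?_⟩
    · rintro (h6 | h6)
      · exact h2 h6
      · exact h3 h6
    · rintro (h6 | h6)
      · exact h4 h6
      · exact h5 h6
  have hwalkH : ∀ {a b : V} (p : G.Walk a b), (∀ x ∈ p.support, x ∉ F ∧ x ≠ v) →
      ∃ r : H.Walk a b, r.support = p.support := by
    intro a b p hp
    apply exists_walk_delG p
    rintro x hx (h6 | h6)
    · exact (hp x hx).2 h6
    · exact (hp x hx).1 h6
  have hqi : ∀ i, q i ∈ A1 → ρ (q i) = κ (q i) := fun i hi => hO.pot _ ⟨i, rfl⟩ hi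
  by_cases hX : X.Nonempty
  · -- a deleted vertex
    exfalso
    obtain ⟨x0, hx0⟩ := hX
    have hB : B = ∅ := hO.B_empty ⟨x0, hx0⟩
    have hXe : ∀ x ∈ X, x = x0 := fun x hx => eq_of_ncard_le_one hO.X_le hx hx0
    have hqA : ∀ i, q i ≠ x0 → q i ∈ A1 := by
      intro i hi
      rcases hO.A_sub ⟨i, rfl⟩ with h1 | h1
      · exact h1
      · exact absurd (hXe _ h1) hi
    have hel : ∀ i, q i ≠ x0 → (q i ∈ U ∧ (q i ∈ F ∨ q i ∈ A1) ∧ q i ≠ v ∧ q i ≠ x0) :=
      fun i hi => ⟨hg.qU h i, Or.inr (hqA i hi), hg.vq i, hi⟩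
    have hfin : ∀ i j k, i ≠ j → i ≠ k → j ≠ k → q i ≠ x0 → q j ≠ x0 → q k ≠ x0 → False := by
      intro i j k hij hik hjk hi hj hk
      refine h.obs_false (p1 := v) (p2 := x0) (D := F) (A1 := A1) (κ := κ) (ρ := ρ) ?_ ?_ ?_ ?_ ?_
        (hg.inj.ne hij) (hg.inj.ne hik) (hg.inj.ne hjk) (hel i hi) (hel j hj) (hel k hk)
      · intro x hx y hxy
        rcases (hg.Fnb hx hxy).1 with h1 | h1 | ⟨l, h1⟩
        · exact Or.inl h1
        · exact Or.inr (Or.inl h1)
        · by_cases h2 : y = x0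
          · exact Or.inr (Or.inr (Or.inl h2))
          · exact Or.inr (Or.inr (Or.inr (h1 ▸ hqA l (h1 ▸ h2))))
      · intro x hx y hy hxy
        exact (hg.Fnb hx hxy).2
      · intro x hx y hyA hyF hyv hy0 hxy
        obtain ⟨h1, h2⟩ := hg.Fnb hx hxy
        rcases h1 with h1 | h1 | ⟨l, h1⟩
        · exact absurd h1 hyF
        · exact absurd h1 hyv
        · rw [h2, ← h1, hqi l (h1 ▸ hyA)]
      · intro x hx y hy hxF hyF hxv hx0' hyv hy0' hxy
        exact hO.edge x hx y hy (hHof x y hxy hxv hxF hyv hyF) (by rw [hB]; simp)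
      · intro u hu w hw hne huF hwF huv hu0 hwv hw0 u' w' huu hww p hp
        obtain ⟨r, hr⟩ := hwalkH p (fun x hx => ⟨(hp x hx).2.1, (hp x hx).2.2.1⟩)
        have hu' := hp u' p.start_mem_support
        have hw' := hp w' p.end_mem_support
        have h1 := hO.walk u hu w hw hne u' w' (hHof u u' huu huv huF hu'.2.2.1 hu'.2.1)
          (hHof w w' hww hwv hwF hw'.2.2.1 hw'.2.1) r (by
            intro x hx
            rw [hr] at hx
            exact ⟨(hp x hx).1, fun h2 => (hp x hx).2.2.2 (hXe x h2)⟩)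
        rw [hB] at h1
        exact h1.1
    by_cases h0 : q 0 = x0
    · exact hfin 1 2 3 (by decide) (by decide) (by decide)
        (fun h1 => absurd (hg.inj (h1.trans h0.symm)) (by decide))
        (fun h1 => absurd (hg.inj (h1.trans h0.symm)) (by decide))
        (fun h1 => absurd (hg.inj (h1.trans h0.symm)) (by decide))
    by_cases h1 : q 1 = x0
    · exact hfin 0 2 3 (by decide) (by decide) (by decide) h0
        (fun h2 => absurd (hg.inj (h2.trans h1.symm)) (by decide))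
        (fun h2 => absurd (hg.inj (h2.trans h1.symm)) (by decide))
    by_cases h2 : q 2 = x0
    · exact hfin 0 1 3 (by decide) (by decide) (by decide) h0 h1
        (fun h3 => absurd (hg.inj (h3.trans h2.symm)) (by decide))
    · exact hfin 0 1 2 (by decide) (by decide) (by decide) h0 h1 h2
  · -- no deleted vertex
    right
    have hXe : ∀ x, x ∉ X := fun x hx => hX ⟨x, hx⟩
    have hqA : ∀ i, q i ∈ A1 := fun i => (hO.A_sub ⟨i, rfl⟩).resolve_right (hXe _)
    -- closedness
    have hclosed : ∀ x y, x ∈ A1 → x ∉ B → x ≠ v → x ∉ F → G.Adj x y → y ≠ v → y ∉ F →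
        y ∈ A1 := by
      intro x y hx hxB hxv hxF hxy hyv hyF
      by_contra hyA
      set C : Set V := Reach H {y} (A1 ∪ X) with hC
      have hyC : y ∈ C := reach_of_mem rfl (by
        rintro (h1 | h1)
        · exact hyA h1
        · exact hXe _ h1)
      have hCA : ∀ z ∈ C, z ∉ A1 := fun z hz h1 => not_mem_of_reach hz (Or.inl h1)
      have hCm : ∀ z ∈ C, z ≠ v ∧ z ∉ F ∧ z ∈ U := by
        rintro z ⟨a, ha, p, hp⟩
        rw [Set.mem_singleton_iff] at ha
        subst ha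
        have h1 := notMem_of_mem_support_delG p (by
          rintro (h6 | h6)
          · exact hyv h6
          · exact hyF h6) z p.end_mem_support
        refine ⟨fun h2 => h1 (Or.inl h2), fun h2 => h1 (Or.inr h2), ?_⟩
        by_cases haz : a = z
        · subst haz
          exact h.edge_mem _ _ hxy.symm
        · obtain ⟨w, hw, -⟩ := exists_last_edge p haz
          exact h.edge_mem _ _ hw.1.symm
      have hxN : x ∈ Nb H C := ⟨fun h1 => hCA x h1 hx, y, hyC, hHof y x hxy.symm hyv hyF hxv hxF⟩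
      have hNC : ∀ w ∈ Nb G C, w = v ∨ w = x := by
        rintro w ⟨hwC, z, hz, hzw⟩
        by_cases h1 : w = v
        · exact Or.inl h1
        right
        have hz' := hCm z hz
        by_cases hwF : w ∈ F
        · exfalso
          rcases (hg.Fnb hwF hzw.symm).1 with h2 | h2 | ⟨l, h2⟩
          · exact hz'.2.1 h2
          · exact hz'.1 h2
          · exact hCA z hz (h2 ▸ hqA l)
        have hwN : w ∈ Nb H C := ⟨hwC, z, hz, hHof z w hzw hz'.1 hz'.2.1 h1 hwF⟩
        have hwA : w ∈ A1 := by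
          rcases Nb_Reach hwN with h2 | h2
          · exact h2
          · exact absurd h2 (hXe _)
        by_contra hne
        exact hxB (obs_comp hO subset_rfl hwA hwN hx hxN hne).2
      have hN2 : (Nb G C).ncard ≤ 2 := by
        have h1 : Nb G C ⊆ {v, x} := fun w hw => hNC w hw
        exact (Set.ncard_le_ncard h1 (Set.toFinite _)).trans (ncard_pair_le' _ _)
      by_cases h2 : 2 ≤ C.ncard
      · have hrest := h.cut C (fun z hz => (hCm z hz).2.2) h2 (by omega)
        have hr : ∀ i, q i ≠ x → q i ∈ U \ (C ∪ Nb G C) := by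
          intro i hi
          refine ⟨hg.qU h i, ?_⟩
          rintro (h1 | h1)
          · exact hCA _ h1 (hqA i)
          · rcases hNC _ h1 with h3 | h3
            · exact hg.vq i h3
            · exact hi h3
        by_cases h0 : q 0 = x
        · have h3 := eq_of_ncard_le_one hrest
            (hr 1 (fun h1 => absurd (hg.inj (h1.trans h0.symm)) (by decide)))
            (hr 2 (fun h1 => absurd (hg.inj (h1.trans h0.symm)) (by decide)))
          exact absurd (hg.inj h3) (by decide)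
        by_cases h1 : q 1 = x
        · have h3 := eq_of_ncard_le_one hrest (hr 0 h0)
            (hr 2 (fun h2 => absurd (hg.inj (h2.trans h1.symm)) (by decide)))
          exact absurd (hg.inj h3) (by decide)
        · have h3 := eq_of_ncard_le_one hrest (hr 0 h0) (hr 1 h1)
          exact absurd (hg.inj h3) (by decide)
      · have h3 : C = {y} := by
          apply (Set.eq_of_subset_of_ncard_le _ _ (Set.toFinite _)).symm
          · rintro z rfl; exact hyC
          · rw [Set.ncard_singleton]; omega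
        rw [h3, Nb_singleton] at hN2
        have h4 := h.deg3 y (hCm y hyC).2.2
        omega
    set D : Set V := {x | x ∈ U ∧ x ∈ A1 ∧ x ∉ B ∧ x ∉ F ∧ x ≠ v} with hD
    set M : Set V := {x | x ∈ U ∧ x ∈ B ∧ x ∉ F ∧ x ≠ v} with hM
    set κ' : V → ZMod 2 := fun x => if x ∈ F ∨ x = v then κ x else ρ x with hκ'
    have k1 : ∀ x, x ∈ F → κ' x = κ x := by
      intro x hx; rw [hκ']; simp only [if_pos (Or.inl hx)]
    have k2 : ∀ x, x ∉ F → x ≠ v → κ' x = ρ x := by
      intro x hx hx'; rw [hκ']; simp only; rw [if_neg]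
      rintro (h1 | h1)
      · exact hx h1
      · exact hx' h1
    have hqDM : ∀ i, q i ∈ D ∨ q i ∈ M := by
      intro i
      by_cases h1 : q i ∈ B
      · exact Or.inr ⟨hg.qU h i, h1, hg.qF i, hg.vq i⟩
      · exact Or.inl ⟨hg.qU h i, hqA i, h1, hg.qF i, hg.vq i⟩
    refine ⟨D, M, κ', ?_⟩
    constructor
    · exact fun x hx => hx.1
    · exact fun x hx => hx.1
    · exact fun x hx hx' => hx.2.2.1 hx'.2.1
    · exact (Set.ncard_le_ncard (fun x hx => hx.2.1) (Set.toFinite _)).trans hO.B_le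
    · exact fun hv => hv.2.2.2.2 rfl
    · exact fun hv => hv.2.2.2 rfl
    · exact fun x hx hx' => hx'.2.2.2.1 hx
    · exact fun x hx hx' => hx'.2.2.1 hx
    · exact hqDM
    · rintro x (hx | hx) y hxy
      · by_cases hyv : y = v
        · exact Or.inr hyv
        left
        by_cases hyF : y ∈ F
        · exact Or.inr (Or.inl hyF)
        have hyA := hclosed x y hx.2.1 hx.2.2.1 hx.2.2.2.2 hx.2.2.2.1 hxy hyv hyF
        have hyU := h.edge_mem y x hxy.symm
        by_cases hyB : y ∈ B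
        · exact Or.inr (Or.inr ⟨hyU, hyB, hyF, hyv⟩)
        · exact Or.inl ⟨hyU, hyA, hyB, hyF, hyv⟩
      · rcases (hg.Fnb hx hxy).1 with h1 | h1 | ⟨l, h1⟩
        · exact Or.inl (Or.inr (Or.inl h1))
        · exact Or.inr h1
        · left
          rcases hqDM l with h2 | h2
          · exact Or.inl (h1 ▸ h2)
          · exact Or.inr (Or.inr (h1 ▸ h2))
    · -- potential
      have gF : ∀ x y, x ∈ F → (y ∈ D ∨ y ∈ F ∨ y ∈ M) → G.Adj x y →
          c s(x, y) = κ' x + κ' y := by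
        intro x y hx hy hxy
        obtain ⟨h1, h2⟩ := hg.Fnb hx hxy
        rw [k1 x hx, h2]
        congr 1
        rcases h1 with h1 | h1 | ⟨l, h1⟩
        · rw [k1 y h1]
        · exfalso
          rcases hy with h3 | h3 | h3
          · exact h3.2.2.2.2 h1
          · exact hg.vF (h1 ▸ h3)
          · exact h3.2.2.2 h1
        · rw [← h1, k2 _ (hg.qF l) (hg.vq l), hqi l (hqA l)]
      rintro x (hx | hx) y hy hxy
      · rcases hy with hy | hy | hy
        · rw [k2 x hx.2.2.2.1 hx.2.2.2.2, k2 y hy.2.2.2.1 hy.2.2.2.2]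
          exact hO.edge x hx.2.1 y hy.2.1
            (hHof x y hxy hx.2.2.2.2 hx.2.2.2.1 hy.2.2.2.2 hy.2.2.2.1) (fun h1 => hx.2.2.1 h1.1)
        · rw [Sym2.eq_swap, add_comm]
          exact gF y x hy (Or.inl hx) hxy.symm
        · rw [k2 x hx.2.2.2.1 hx.2.2.2.2, k2 y hy.2.2.1 hy.2.2.2]
          exact hO.edge x hx.2.1 y (hO.B_sub hy.2.1)
            (hHof x y hxy hx.2.2.2.2 hx.2.2.2.1 hy.2.2.2 hy.2.2.1) (fun h1 => hx.2.2.1 h1.1)
      · exact gF x y hx hy hxy
    · exact k1
    · intro i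
      rw [k2 _ (hg.qF i) (hg.vq i), hqi i (hqA i)]
    · rw [hκ']; simp

/-- Descent: a wrong neighbour of the apex gives a TOK4 or a smaller cut. -/
theorem GCut.descend [Finite V] (h : I4 G c U) (hg : Gad G c J κ F q v) {D M : Set V}
    {κ' : V → ZMod 2} (hc : GCut G c U κ F q v D M κ') {d : V} (hd : d ∈ D) (hvd : G.Adj v d)
    (hwr : c s(v, d) ≠ κ' v + κ' d) :
    HasTOK4s G c ∨ ∃ D' M', D'.ncard < D.ncard ∧ GCut G c U κ F q v D' M' κ' := by
  classical
  -- the graph on D ∪ M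
  let G1 : SimpleGraph V :=
    { Adj := fun x y => G.Adj x y ∧ (x ∈ D ∨ x ∈ M) ∧ (y ∈ D ∨ y ∈ M) ∧ (x ∈ D ∨ y ∈ D)
      symm := ⟨fun x y h => ⟨h.1.symm, h.2.2.1, h.2.1, h.2.2.2.symm⟩⟩
      loopless := ⟨fun x h => h.1.ne rfl⟩ }
  have hG1 : G1 ≤ G := fun x y h => h.1
  have hG1w : ∀ {a b : V} (p : G1.Walk a b), wt c p = κ' a + κ' b := by
    intro a b p
    induction p with
    | nil => simp only [wt_nil]; exact (CharTwo.add_self_eq_zero _).symm
    | @cons a z b hh p ih =>
      rw [wt_cons, ih]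
      have h1 : c s(a, z) = κ' a + κ' z := by
        rcases hh.2.2.2 with h2 | h2
        · exact hc.pot a (Or.inl h2) z (by
            rcases hh.2.2.1 with h3 | h3
            · exact Or.inl h3
            · exact Or.inr (Or.inr h3)) hh.1
        · rw [Sym2.eq_swap, add_comm]
          exact hc.pot z (Or.inl h2) a (by
            rcases hh.2.1 with h3 | h3
            · exact Or.inl h3
            · exact Or.inr (Or.inr h3)) hh.1.symm
      rw [h1]
      have h3 : κ' z + κ' z = 0 := CharTwo.add_self_eq_zero _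
      calc κ' a + κ' z + (κ' z + κ' b) = κ' a + κ' b + (κ' z + κ' z) := by ring
        _ = κ' a + κ' b := by rw [h3, add_zero]
  have hG1m : ∀ {a b : V} (p : G1.Walk a b), (a ∈ D ∨ a ∈ M) →
      ∀ x ∈ p.support, x ∈ D ∨ x ∈ M := by
    intro a b p ha
    exact walk_mem (H := G1) (S := {x | x ∈ D ∨ x ∈ M}) (fun x y hxy => hxy.2.2.1) p ha
  have hdM : d ∉ M := hc.DM d hd
  by_cases hsep : ∀ S : Finset V, S.card < 4 → ¬ Sep G1 (Set.range q) (insert d M) S
  · -- four disjoint paths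
    left
    obtain ⟨t, P, h1, h2, h3, h4⟩ := Linked.enum hg.inj (menger _ _ _ _ hsep)
    have htinj : Function.Injective t := injective_end h4
    have hcard : (Set.range t).ncard = 4 := by
      rw [← Set.image_univ, Set.ncard_image_of_injective _ htinj, Set.ncard_univ]
      simp
    have hrange : Set.range t = insert d M := by
      apply Set.eq_of_subset_of_ncard_le _ _ (Set.toFinite _)
      · rintro _ ⟨i, rfl⟩; exact (h1 i).1
      · have := Set.ncard_insert_le d M
        have := hc.M3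
        omega
    obtain ⟨i0, hi0⟩ : ∃ i, t i = d := by
      have : d ∈ Set.range t := by rw [hrange]; exact Or.inl rfl
      exact this
    obtain ⟨j, k, hij, hik, hjk, hF⟩ := hg.E2 i0
    obtain ⟨l, hil, hjl, hkl⟩ : ∃ l : Fin 4, i0 ≠ l ∧ j ≠ l ∧ k ≠ l := by
      revert hij hik hjk
      generalize i0 = a1
      generalize j = a2
      generalize k = a3
      revert a1 a2 a3
      decide
    have htM : ∀ i, i ≠ i0 → t i ∈ M := by
      intro i hi
      rcases (h1 i).1 with h5 | h5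
      · exact absurd (htinj (h5.trans hi0.symm)) hi
      · exact h5
    have hjM := htM j hij.symm
    have hkM := htM k hik.symm
    have hlM := htM l hil.symm
    have hMeq : ∀ x ∈ M, x = t j ∨ x = t k ∨ x = t l := by
      intro x hx
      have h5 : x ∈ Set.range t := by rw [hrange]; exact Or.inr hx
      obtain ⟨m, rfl⟩ := h5
      have hm : m ≠ i0 := by
        rintro rfl
        exact hdM (hi0 ▸ hx)
      have : m = j ∨ m = k ∨ m = l := by
        revert hij hik hjk hil hjl hkl hm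
        generalize i0 = a1
        generalize j = a2
        generalize k = a3
        generalize l = a4
        generalize m = a5
        revert a1 a2 a3 a4 a5
        decide
      rcases this with h6 | h6 | h6
      · exact Or.inl (by rw [h6])
      · exact Or.inr (Or.inl (by rw [h6]))
      · exact Or.inr (Or.inr (by rw [h6]))
    have hvM : ∀ i, i ≠ i0 → v ≠ t i := by
      intro i hi hh
      exact hc.vM (hh ▸ htM i hi)
    have hDF : (D ∪ F) ⊆ U := Set.union_subset hc.DU (hg.FU h)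
    have hMn : ∀ i, i ≠ i0 → t i ∉ D ∪ F := by
      rintro i hi (h5 | h5)
      · exact hc.DM _ h5 (htM i hi)
      · exact hc.FM _ h5 (htM i hi)
    obtain ⟨R, hR, hRw, hRs⟩ := h.virtual (D := D ∪ F) (κ := κ') (v := v) (m1 := t j) (m2 := t k)
      (m3 := t l) (Or.inl ⟨d, Or.inl hd⟩) hDF (htinj.ne hjk) (htinj.ne hjl) (htinj.ne hkl)
      (hvM j hij.symm) (hvM k hik.symm) (hvM l hil.symm) (hc.MU hjM) (hc.MU hkM)
      (hMn j hij.symm) (hMn k hik.symm) (hMn l hil.symm) (by
        rintro (h5 | h5)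
        · exact hc.vD h5
        · exact hg.vF h5) (by
        rintro y ⟨hy, x, hx, hxy⟩
        rcases hc.nb x hx y hxy with (h5 | h5 | h5) | h5
        · exact absurd (Or.inl h5) hy
        · exact absurd (Or.inr h5) hy
        · rcases hMeq y h5 with h6 | h6 | h6
          · exact Or.inr (Or.inl h6)
          · exact Or.inr (Or.inr (Or.inl h6))
          · exact Or.inr (Or.inr (Or.inr h6))
        · exact Or.inl h5) (by
        intro x hx y hy hxy
        apply hc.pot x hx y _ hxy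
        rcases hy with (h5 | h5) | h5 | h5
        · exact Or.inl h5
        · exact Or.inr (Or.inl h5)
        · rw [h5]; exact Or.inr (Or.inr hjM)
        · rw [h5]; exact Or.inr (Or.inr hkM))
    have hqDM := hc.cover
    have hPDM : ∀ i, ∀ x ∈ (P i).support, x ∈ D ∨ x ∈ M := fun i => hG1m (P i) (hqDM i)
    have hvDM : ¬ (v ∈ D ∨ v ∈ M) := by
      rintro (h5 | h5)
      · exact hc.vD h5
      · exact hc.vM h5
    have hFDM : ∀ x ∈ F, ¬ (x ∈ D ∨ x ∈ M) := by
      rintro x hx (h5 | h5)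
      · exact hc.FD x hx h5
      · exact hc.FM x hx h5
    -- the apex path
    have hP0 : ∃ P0 : G.Walk v (q i0), P0.IsPath ∧ wt c P0 = κ v + κ (q i0) + 1 ∧
        ∀ x ∈ P0.support, x = v ∨ x ∈ (P i0).support := by
      have hrev : ∃ R0 : G.Walk d (q i0), R0.IsPath ∧ wt c R0 = κ' (q i0) + κ' d ∧
          ∀ x, x ∈ R0.support ↔ x ∈ (P i0).support := by
        subst hi0
        refine ⟨((P i0).mapLe hG1).reverse, ((Walk.isPath_mapLe hG1).2 (h1 i0).2).reverse, ?_, ?_⟩
        · rw [wt_reverse, wt_mapLe, hG1w]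
        · intro x
          rw [Walk.support_reverse, List.mem_reverse, Walk.support_mapLe_eq_support]
      obtain ⟨R0, g1, g2, g3⟩ := hrev
      refine ⟨Walk.cons hvd R0, ?_, ?_, ?_⟩
      · rw [Walk.cons_isPath_iff]
        refine ⟨g1, fun h5 => ?_⟩
        rw [g3] at h5
        exact hvDM (hPDM i0 v h5)
      · rw [wt_cons, g2, hc.agq, zmod2_ne hwr.symm, hc.agv]
        have h5 : κ' d + κ' d = 0 := CharTwo.add_self_eq_zero _
        calc κ v + κ' d + 1 + (κ (q i0) + κ' d) = κ v + κ (q i0) + 1 + (κ' d + κ' d) := by ring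
          _ = κ v + κ (q i0) + 1 := by rw [h5, add_zero]
      · intro x hx
        rw [Walk.support_cons, List.mem_cons] at hx
        rcases hx with h5 | h5
        · exact Or.inl h5
        · right; rwa [g3] at h5
    obtain ⟨P0, hP0, hP0w, hP0s⟩ := hP0
    -- the second path
    set Pj := (P j).mapLe hG1 with hPj
    set Pk := ((P k).mapLe hG1).reverse with hPk
    have hPjs : ∀ x, x ∈ Pj.support ↔ x ∈ (P j).support := by
      intro x; rw [hPj, Walk.support_mapLe_eq_support]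
    have hPks : ∀ x, x ∈ Pk.support ↔ x ∈ (P k).support := by
      intro x; rw [hPk, Walk.support_reverse, List.mem_reverse, Walk.support_mapLe_eq_support]
    have hPjR : ∀ i, i ≠ i0 → ∀ x ∈ (P i).support, x ∈ R.support → x = t i := by
      intro i hi x hx hxR
      rcases hPDM i x hx with h5 | h5
      · exact absurd (Or.inl h5) (hRs x hxR).1
      · exact h3 i x hx (Or.inr h5)
    have hRk : (R.append Pk).IsPath := by
      refine isPath_append_of _ _ hR ((Walk.isPath_mapLe hG1).2 (h1 k).2).reverse ?_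
      intro x hx hx'
      rw [hPks] at hx'
      exact hPjR k hik.symm x hx' hx
    have hQ0 : (Pj.append (R.append Pk)).IsPath := by
      refine isPath_append_of _ _ ((Walk.isPath_mapLe hG1).2 (h1 j).2) hRk ?_
      intro x hx hx'
      rw [hPjs] at hx
      rw [Walk.mem_support_append_iff] at hx'
      rcases hx' with h5 | h5
      · exact hPjR j hij.symm x hx h5
      · rw [hPks] at h5
        exact absurd h5 (h4 j k hjk x hx)
    have hQ0s : ∀ x ∈ (Pj.append (R.append Pk)).support,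
        x ∈ (P j).support ∨ x ∈ R.support ∨ x ∈ (P k).support := by
      intro x hx
      rw [Walk.mem_support_append_iff, Walk.mem_support_append_iff, hPjs, hPks] at hx
      exact hx
    have hQ0w : wt c (Pj.append (R.append Pk)) = κ (q j) + κ (q k) + 1 := by
      rw [wt_append, wt_append, hRw, hPj, hPk, wt_reverse, wt_mapLe, wt_mapLe, hG1w, hG1w,
        hc.agq, hc.agq]
      have h5 : κ' (t j) + κ' (t j) = 0 := CharTwo.add_self_eq_zero _
      have h6 : κ' (t k) + κ' (t k) = 0 := CharTwo.add_self_eq_zero _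
      calc κ (q j) + κ' (t j) + (κ' (t j) + κ' (t k) + 1 + (κ (q k) + κ' (t k)))
          = κ (q j) + κ (q k) + 1 + (κ' (t j) + κ' (t j)) + (κ' (t k) + κ' (t k)) := by ring
        _ = κ (q j) + κ (q k) + 1 := by rw [h5, h6, add_zero, add_zero]
    have hqF : ∀ i, q i ∈ F ∪ insert v (Set.range q) := fun i => Or.inr (Or.inr ⟨i, rfl⟩)
    refine tok_of_frame hg.le hg.lab hF (Or.inr (Or.inl rfl)) (hqF i0) (hqF j) (hqF k) P0
      (Pj.append (R.append Pk)) hP0 hQ0 hP0w hQ0w ?_ ?_ ?_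
    · intro x hx hx'
      rcases hP0s x hx with h5 | h5
      · rcases hQ0s x hx' with h6 | h6 | h6
        · exact hvDM (h5 ▸ hPDM j x h6)
        · exact (hRs x h6).2.1 h5
        · exact hvDM (h5 ▸ hPDM k x h6)
      · rcases hQ0s x hx' with h6 | h6 | h6
        · exact h4 i0 j hij x h5 h6
        · rcases hPDM i0 x h5 with h7 | h7
          · exact (hRs x h6).1 (Or.inl h7)
          · have h8 := h3 i0 x h5 (Or.inr h7)
            rw [hi0] at h8
            exact hdM (h8 ▸ h7)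
        · exact h4 i0 k hik x h5 h6
    · intro x hx hxF
      rcases hP0s x hx with h5 | h5
      · exact Or.inl h5
      · rcases hxF with h6 | h6 | h6
        · exact absurd (hPDM i0 x h5) (hFDM x h6)
        · exact Or.inl h6
        · exact Or.inr (h2 i0 x h5 h6)
    · intro x hx hxF
      have hxv : x ≠ v := by
        intro hxv
        rcases hQ0s x hx with h6 | h6 | h6
        · exact hvDM (hxv ▸ hPDM j x h6)
        · exact (hRs x h6).2.1 hxv
        · exact hvDM (hxv ▸ hPDM k x h6)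
      rcases hQ0s x hx with h5 | h5 | h5
      · rcases hxF with h6 | h6 | h6
        · exact absurd (hPDM j x h5) (hFDM x h6)
        · exact absurd h6 hxv
        · exact Or.inl (h2 j x h5 h6)
      · have h7 := hRs x h5
        rcases hxF with h6 | h6 | h6
        · exact absurd (Or.inr h6) h7.1
        · exact absurd h6 hxv
        · obtain ⟨m, rfl⟩ := h6
          rcases hqDM m with h8 | h8
          · exact absurd (Or.inl h8) h7.1
          · rcases hMeq _ h8 with h9 | h9 | h9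
            · left
              refine h2 j _ ?_ ⟨m, rfl⟩
              rw [h9]; exact (P j).end_mem_support
            · right
              refine h2 k _ ?_ ⟨m, rfl⟩
              rw [h9]; exact (P k).end_mem_support
            · exact absurd h9 h7.2.2
      · rcases hxF with h6 | h6 | h6
        · exact absurd (hPDM k x h5) (hFDM x h6)
        · exact absurd h6 hxv
        · exact Or.inr (h2 k x h5 h6)
  · -- a smaller cut
    right
    push Not at hsep
    obtain ⟨S, hS, hsep⟩ := hsep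
    set D' : Set V := Reach G1 (Set.range q) (S : Set V) with hD'
    have hnot : ∀ z ∈ D', z ≠ d ∧ z ∉ M := by
      intro z hz
      rw [sep_iff_reach] at hsep
      have hzS := not_mem_of_reach hz
      refine ⟨?_, ?_⟩
      · intro hzd
        exact hsep z hz (reach_of_mem (Or.inl hzd) hzS)
      · intro hzM
        exact hsep z hz (reach_of_mem (Or.inr hzM) hzS)
    have hD'D : D' ⊆ D := by
      rintro z ⟨a, ⟨i, rfl⟩, p, hp⟩
      rcases hG1m p (hc.cover i) z p.end_mem_support with h5 | h5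
      · exact h5
      · exact absurd h5 (hnot z ⟨q i, ⟨i, rfl⟩, p, hp⟩).2
    have hstep : ∀ x ∈ D', ∀ y, (y ∈ D ∨ y ∈ M) → G.Adj x y → y ∈ D' ∨ y ∈ (S : Set V) := by
      intro x hx y hy hxy
      by_cases hyS : y ∈ (S : Set V)
      · exact Or.inr hyS
      · exact Or.inl (reach_adj hx ⟨hxy, Or.inl (hD'D hx), hy, Or.inl (hD'D hx)⟩ hyS)
    have hcov : ∀ i, q i ∈ D' ∨ q i ∈ (S : Set V) := by
      intro i
      by_cases hqS : q i ∈ (S : Set V)
      · exact Or.inr hqS
      · exact Or.inl (reach_of_mem ⟨i, rfl⟩ hqS)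
    refine ⟨D', {x | x ∈ (S : Set V) ∧ (x ∈ D ∨ x ∈ M)}, ?_, ?_⟩
    · apply Set.ncard_lt_ncard _ (Set.toFinite _)
      refine ⟨hD'D, fun hh => ?_⟩
      exact (hnot d (hh hd)).1 rfl
    constructor
    · exact hD'D.trans hc.DU
    · rintro x ⟨-, hx | hx⟩
      · exact hc.DU hx
      · exact hc.MU hx
    · exact fun x hx hx' => not_mem_of_reach hx hx'.1
    · have h5 : {x | x ∈ (S : Set V) ∧ (x ∈ D ∨ x ∈ M)} ⊆ (S : Set V) := fun x hx => hx.1
      have h6 := Set.ncard_le_ncard h5 (Set.toFinite _)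
      rw [Set.ncard_coe_finset] at h6
      omega
    · exact fun h5 => hc.vD (hD'D h5)
    · rintro ⟨-, h5 | h5⟩
      · exact hc.vD h5
      · exact hc.vM h5
    · exact fun x hx hx' => hc.FD x hx (hD'D hx')
    · rintro x hx ⟨-, h5 | h5⟩
      · exact hc.FD x hx h5
      · exact hc.FM x hx h5
    · intro i
      rcases hcov i with h5 | h5
      · exact Or.inl h5
      · exact Or.inr ⟨h5, hc.cover i⟩
    · rintro x (hx | hx) y hxy
      · rcases hc.nb x (Or.inl (hD'D hx)) y hxy with (h5 | h5 | h5) | h5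
        · left
          rcases hstep x hx y (Or.inl h5) hxy with h6 | h6
          · exact Or.inl h6
          · exact Or.inr (Or.inr ⟨h6, Or.inl h5⟩)
        · exact Or.inl (Or.inr (Or.inl h5))
        · left
          rcases hstep x hx y (Or.inr h5) hxy with h6 | h6
          · exact Or.inl h6
          · exact Or.inr (Or.inr ⟨h6, Or.inr h5⟩)
        · exact Or.inr h5
      · rcases (hg.Fnb hx hxy).1 with h5 | h5 | ⟨i, h5⟩
        · exact Or.inl (Or.inr (Or.inl h5))
        · exact Or.inr h5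
        · left
          rw [← h5]
          rcases hcov i with h6 | h6
          · exact Or.inl h6
          · exact Or.inr (Or.inr ⟨h6, hc.cover i⟩)
    · intro x hx y hy hxy
      apply hc.pot x _ y _ hxy
      · rcases hx with hx | hx
        · exact Or.inl (hD'D hx)
        · exact Or.inr hx
      · rcases hy with hy | hy | hy
        · exact Or.inl (hD'D hy)
        · exact Or.inr (Or.inl hy)
        · rcases hy.2 with h5 | h5
          · exact Or.inl h5
          · exact Or.inr (Or.inr h5)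
    · exact hc.agF
    · exact hc.agq
    · exact hc.agv

/-- **Main theorem on gadgets**: a TOK4 or a balanced cut. -/
theorem Gad.balanced_cut [Finite V] (h : I4 G c U) (hg : Gad G c J κ F q v) :
    HasTOK4s G c ∨ ∃ D M κ', GCut G c U κ F q v D M κ' ∧ BalOn G c (D ∪ F) κ' := by
  classical
  rcases hg.first_cut h with h1 | ⟨D, M, κ', hc⟩
  · exact Or.inl h1
  · have main : ∀ n : ℕ, ∀ D M, D.ncard = n → GCut G c U κ F q v D M κ' →
        HasTOK4s G c ∨ ∃ D M κ', GCut G c U κ F q v D M κ' ∧ BalOn G c (D ∪ F) κ' := by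
      intro n
      induction n using Nat.strong_induction_on with
      | _ n ih =>
        intro D M hn hc
        by_cases hex : ∃ d ∈ D, G.Adj v d ∧ c s(v, d) ≠ κ' v + κ' d
        · obtain ⟨d, hd, hvd, hwr⟩ := hex
          rcases hc.descend h hg hd hvd hwr with h2 | ⟨D', M', hlt, hc'⟩
          · exact Or.inl h2
          · exact ih _ (by omega) D' M' rfl hc'
        · push Not at hex
          right
          refine ⟨D, M, κ', hc, ?_⟩
          intro u w hu huw
          rcases hc.nb u hu w huw with h2 | h2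
          · exact hc.pot u hu w h2 huw
          · subst h2
            rcases hu with hu | hu
            · rw [Sym2.eq_swap, add_comm]
              exact hex u hu huw.symm
            · rw [hc.agF u hu, hc.agv]
              exact (hg.Fnb hu huw).2
    exact main _ D M rfl hc

end

end Pool.Agent.Helper1.GL
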