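import Pool.Agent.Helper1.GL.Frames
import Pool.Agent.Helper51.GX.Defs

/-!
# Global part: the fields of `GCore` (quotient form of TYPE1 and L1)
-/

set_option autoImplicit false
set_option synthInstance.maxSize 2000

namespace Pool.Agent.Helper1.GL

open SimpleGraph Pool.Agent.Helper57.TOK Pool.Agent.Helper57.TD Pool.Agent.Helper82.TK
  Pool.Agent.Helper1.TD Pool.Agent.Helper51.GX

variable {V : Type*}

/-- A quotient gadget from a concrete graph. -/
theorem qgad_of_fin {n : ℕ} {K : SimpleGraph (Fin n)} {G : SimpleGraph V} {φ : Fin n → V}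
    (hφ : Function.Injective φ) (hK : ∀ x y, K.Adj x y → G.Adj (φ x) (φ y))
    {κ0 : Fin n → ZMod 2} (hκ0 : ∀ x y, K.Adj x y → κ0 x + κ0 y = 1) {q0 : Fin 4 → Fin n}
    (hq0 : Function.Injective q0) {v0 : Fin n} (hvq : ∀ i, q0 i ≠ v0) {F0 : Set (Fin n)}
    (hvF : v0 ∉ F0) (hqF : ∀ i, q0 i ∉ F0) (hcov : ∀ x, x ∈ F0 ∨ x = v0 ∨ ∃ i, q0 i = x)
    (hdeg : ∀ x, ∃ y, K.Adj x y)
    (hfull : ∀ x ∈ F0, ∀ y, G.Adj (φ x) y → ∃ z, K.Adj x z ∧ φ z = y)
    (hnab : ¬ G.Adj (φ (q0 0)) (φ v0)) (hkab : κ0 v0 = κ0 (q0 0))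
    (hE : ∀ s t u v : Fin n, s ≠ t → s ≠ u → s ≠ v → t ≠ u → t ≠ v → u ≠ v →
      (s = q0 0 ∨ s = v0) → (t = q0 1 ∨ t = q0 2 ∨ t = q0 3) →
      (u = q0 1 ∨ u = q0 2 ∨ u = q0 3) → (v = q0 1 ∨ v = q0 2 ∨ v = q0 3) → u < v →
      LocFr (imG φ K) (kx φ κ0) (φ '' F0) (insert (φ v0) (Set.range (φ ∘ q0)))
        (φ s) (φ t) (φ u) (φ v)) :
    QGad G (imG φ K) (kx φ κ0) (φ '' F0) (φ ∘ q0) (φ v0) where
  le := by
    rintro x y ⟨-, x', y', h3, rfl, rfl⟩
    exact hK x' y' h3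
  inj := hφ.comp hq0
  bq := fun i => hφ.ne (hvq i)
  bF := by
    rintro ⟨x, hx, hxv⟩
    exact hvF (hφ hxv ▸ hx)
  qF := by
    rintro i ⟨x, hx, hxv⟩
    exact hqF i (hφ hxv ▸ hx)
  full := by
    rintro _ ⟨x, hx, rfl⟩ y hxy
    obtain ⟨z, h1, h2⟩ := hfull x hx y hxy
    rw [← h2]
    exact imG_adj hφ h1
  sub := by
    rintro x ⟨y, -, x', y', -, rfl, -⟩
    rcases hcov x' with h1 | h1 | ⟨i, h1⟩
    · exact Or.inl ⟨x', h1, rfl⟩
    · exact Or.inr (Or.inl (by rw [h1]))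
    · exact Or.inr (Or.inr ⟨i, by rw [Function.comp_apply, h1]⟩)
  Fs := by
    rintro _ ⟨x, hx, rfl⟩
    obtain ⟨y, hy⟩ := hdeg x
    exact ⟨φ y, imG_adj hφ hy⟩
  qs := by
    intro i
    obtain ⟨y, hy⟩ := hdeg (q0 i)
    exact ⟨φ y, imG_adj hφ hy⟩
  bs := by
    obtain ⟨y, hy⟩ := hdeg v0
    exact ⟨φ y, imG_adj hφ hy⟩
  nab := hnab
  lab := fun x y hxy => (proper_imG hφ hκ0 x y hxy).symm
  kab := by
    rw [Function.comp_apply, kx_apply hφ, kx_apply hφ, hkab]
  E1 := by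
    have key : ∀ j : Fin 4, 0 ≠ j → (q0 j = q0 1 ∨ q0 j = q0 2 ∨ q0 j = q0 3) := by
      intro j hj
      fin_cases j
      · exact absurd rfl hj
      · exact Or.inl rfl
      · exact Or.inr (Or.inl rfl)
      · exact Or.inr (Or.inr rfl)
    intro j k l hj hk hl hjk hjl hkl
    rcases lt_or_gt_of_ne (hq0.ne hkl) with h1 | h1
    · exact hE _ _ _ _ (hq0.ne hj) (hq0.ne hk) (hq0.ne hl) (hq0.ne hjk) (hq0.ne hjl) (hq0.ne hkl)
        (Or.inl rfl) (key j hj) (key k hk) (key l hl) h1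
    · exact (hE _ _ _ _ (hq0.ne hj) (hq0.ne hl) (hq0.ne hk) (hq0.ne hjl) (hq0.ne hjk)
        (hq0.ne hkl.symm) (Or.inl rfl) (key j hj) (key l hl) (key k hk) h1).swap_right
  E2 := by
    have key : ∀ j : Fin 4, 0 ≠ j → (q0 j = q0 1 ∨ q0 j = q0 2 ∨ q0 j = q0 3) := by
      intro j hj
      fin_cases j
      · exact absurd rfl hj
      · exact Or.inl rfl
      · exact Or.inr (Or.inl rfl)
      · exact Or.inr (Or.inr rfl)
    intro j k l hj hk hl hjk hjl hkl
    rcases lt_or_gt_of_ne (hq0.ne hkl) with h1 | h1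
    · exact hE _ _ _ _ (hvq j).symm (hvq k).symm (hvq l).symm (hq0.ne hjk) (hq0.ne hjl)
        (hq0.ne hkl) (Or.inr rfl) (key j hj) (key k hk) (key l hl) h1
    · exact (hE _ _ _ _ (hvq j).symm (hvq l).symm (hvq k).symm (hq0.ne hjl) (hq0.ne hjk)
        (hq0.ne hkl.symm) (Or.inr rfl) (key j hj) (key l hl) (key k hk) h1).swap_right

/-- The quotient theta gadget. -/
theorem theta_qgad {G : SimpleGraph V} {a b z0 z1 z2 : V} (hab : a ≠ b) (nab : ¬ G.Adj a b)
    (h1 : z0 ≠ z1) (h2 : z0 ≠ z2) (h3 : z1 ≠ z2) (a1 : G.Adj a z0) (a2 : G.Adj a z1)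
    (a3 : G.Adj a z2) (b1 : G.Adj b z0) (b2 : G.Adj b z1) (b3 : G.Adj b z2) :
    ∃ J κ, QGad G J κ ∅ ![a, z0, z1, z2] b ∧ κ b = κ a ∧ κ z0 = κ a + 1 ∧
      κ z1 = κ a + 1 ∧ κ z2 = κ a + 1 := by
  let φ : Fin 5 → V := ![b, z0, z1, z2, a]
  have hφ : Function.Injective φ := by
    intro x y hxy
    by_contra hne
    fin_cases x <;> fin_cases y <;>
      first
        | exact hne rfl
        | exact b1.ne hxy
        | exact b2.ne hxy
        | exact b3.ne hxy
        | exact hab hxy.symm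
        | exact b1.ne hxy.symm
        | exact h1 hxy
        | exact h2 hxy
        | exact a1.ne hxy.symm
        | exact b2.ne hxy.symm
        | exact h1 hxy.symm
        | exact h3 hxy
        | exact a2.ne hxy.symm
        | exact b3.ne hxy.symm
        | exact h2 hxy.symm
        | exact h3 hxy.symm
        | exact a3.ne hxy.symm
        | exact hab hxy
        | exact a1.ne hxy
        | exact a2.ne hxy
        | exact a3.ne hxy
  have hK : ∀ x y, TH5.Adj x y → G.Adj (φ x) (φ y) := by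
    intro x y hxy
    fin_cases x <;> fin_cases y <;>
      first
        | exact absurd hxy (by decide)
        | exact b1
        | exact b2
        | exact b3
        | exact a1
        | exact a2
        | exact a3
        | exact b1.symm
        | exact b2.symm
        | exact b3.symm
        | exact a1.symm
        | exact a2.symm
        | exact a3.symm
  let κ0 : Fin 5 → ZMod 2 := ![0, 1, 1, 1, 0]
  have hκ0 : ∀ x y, TH5.Adj x y → κ0 x + κ0 y = 1 := by decide
  have hprop : Proper (imG φ TH5) (kx φ κ0) := proper_imG hφ hκ0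
  let q0 : Fin 4 → Fin 5 := ![4, 1, 2, 3]
  have hq : φ ∘ q0 = ![a, z0, z1, z2] := by
    funext i; fin_cases i <;> rfl
  have hF0 : φ '' (∅ : Set (Fin 5)) = ∅ := Set.image_empty _
  set Q : Set V := insert (φ 0) (Set.range (φ ∘ q0)) with hQ
  have hin : ∀ i, φ i ∈ (φ '' (∅ : Set (Fin 5))) ∪ Q := by
    intro i
    right
    have hr : ∀ j : Fin 4, φ (q0 j) ∈ Q := fun j => Or.inr ⟨j, rfl⟩
    fin_cases i
    · exact Or.inl rfl
    · exact hr 1
    · exact hr 2
    · exact hr 3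
    · exact hr 0
  have adj : ∀ {x y : Fin 5}, TH5.Adj x y → (imG φ TH5).Adj (φ x) (φ y) :=
    fun h => imG_adj hφ h
  have lt : ∀ (p r m1 m2 m3 : Fin 5), p ≠ r → m1 ≠ m2 → m1 ≠ m3 → m2 ≠ m3 →
      TH5.Adj p m1 → TH5.Adj p m2 → TH5.Adj p m3 → TH5.Adj r m1 → TH5.Adj r m2 →
      TH5.Adj r m3 → LocFr (imG φ TH5) (kx φ κ0) (φ '' ∅) Q (φ p) (φ m1) (φ m2) (φ m3) := by
    intro p r m1 m2 m3 hpr h12 h13 h23 p1 p2 p3 r1 r2 r3
    exact loc_theta hprop (hφ.ne hpr) (hφ.ne h12) (hφ.ne h13) (hφ.ne h23) (adj p1) (adj p2)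
      (adj p3) (adj r1) (adj r2) (adj r3) (hin _) (hin _) (hin _) (hin _) (hin _)
  refine ⟨imG φ TH5, kx φ κ0, ?_, ?_, ?_, ?_, ?_⟩
  · rw [← hq, ← hF0]
    refine qgad_of_fin (v0 := 0) (F0 := ∅) (q0 := q0) hφ hK hκ0 (by decide) (by decide)
      (Set.notMem_empty _) (fun _ => Set.notMem_empty _) ?_ (by decide) ?_ nab (by decide) ?_
    · intro x
      right
      revert x
      decide
    · intro x hx
      exact absurd hx (Set.notMem_empty _)
    · intro s t u v hst hsu hsv htu htv huv hs ht hu hv _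
      have hmid : ∀ x : Fin 5, (x = q0 1 ∨ x = q0 2 ∨ x = q0 3) → TH5.Adj 0 x ∧ TH5.Adj 4 x := by
        decide
      rcases hs with rfl | rfl
      · exact lt 4 0 t u v (by decide) htu htv huv (hmid t ht).2 (hmid u hu).2 (hmid v hv).2
          (hmid t ht).1 (hmid u hu).1 (hmid v hv).1
      · exact lt 0 4 t u v (by decide) htu htv huv (hmid t ht).1 (hmid u hu).1 (hmid v hv).1
          (hmid t ht).2 (hmid u hu).2 (hmid v hv).2
  · show kx φ κ0 (φ 0) = kx φ κ0 (φ 4)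
    rw [kx_apply hφ, kx_apply hφ]; rfl
  · show kx φ κ0 (φ 1) = kx φ κ0 (φ 4) + 1
    rw [kx_apply hφ, kx_apply hφ]; decide
  · show kx φ κ0 (φ 2) = kx φ κ0 (φ 4) + 1
    rw [kx_apply hφ, kx_apply hφ]; decide
  · show kx φ κ0 (φ 3) = kx φ κ0 (φ 4) + 1
    rw [kx_apply hφ, kx_apply hφ]; decide

/-- The quotient L1 gadget: `y`, `w1`, `w2` inside, poles `a`, `b`. -/
theorem L1_qgad {G : SimpleGraph V} {w1 w2 y a b c e g : V}
    (hφ : Function.Injective ![c, a, e, g, y, w1, w2, b]) (nab : ¬ G.Adj a b)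
    (n1 : G.neighborSet w1 = {a, e, g}) (n2 : G.neighborSet w2 = {b, e, g})
    (ny : G.neighborSet y = {a, b, c}) :
    ∃ J κ, QGad G J κ {y, w1, w2} ![a, c, e, g] b := by
  let φ : Fin 8 → V := ![c, a, e, g, y, w1, w2, b]
  have hφ : Function.Injective φ := hφ
  have m1 : ∀ x, G.Adj w1 x ↔ x = a ∨ x = e ∨ x = g := by
    intro x
    have : x ∈ G.neighborSet w1 ↔ x ∈ ({a, e, g} : Set V) := by rw [n1]
    exact this
  have m2 : ∀ x, G.Adj w2 x ↔ x = b ∨ x = e ∨ x = g := by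
    intro x
    have : x ∈ G.neighborSet w2 ↔ x ∈ ({b, e, g} : Set V) := by rw [n2]
    exact this
  have my : ∀ x, G.Adj y x ↔ x = a ∨ x = b ∨ x = c := by
    intro x
    have : x ∈ G.neighborSet y ↔ x ∈ ({a, b, c} : Set V) := by rw [ny]
    exact this
  have w1a : G.Adj w1 a := (m1 a).2 (Or.inl rfl)
  have w1e : G.Adj w1 e := (m1 e).2 (Or.inr (Or.inl rfl))
  have w1g : G.Adj w1 g := (m1 g).2 (Or.inr (Or.inr rfl))
  have w2b : G.Adj w2 b := (m2 b).2 (Or.inl rfl)
  have w2e : G.Adj w2 e := (m2 e).2 (Or.inr (Or.inl rfl))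
  have w2g : G.Adj w2 g := (m2 g).2 (Or.inr (Or.inr rfl))
  have ya : G.Adj y a := (my a).2 (Or.inl rfl)
  have yb : G.Adj y b := (my b).2 (Or.inr (Or.inl rfl))
  have yc : G.Adj y c := (my c).2 (Or.inr (Or.inr rfl))
  have hK : ∀ x z, L8.Adj x z → G.Adj (φ x) (φ z) := by
    intro x z hxy
    fin_cases x <;> fin_cases z <;>
      first
        | exact absurd hxy (by decide)
        | exact ya
        | exact yb
        | exact yc
        | exact w1a
        | exact w1e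
        | exact w1g
        | exact w2b
        | exact w2e
        | exact w2g
        | exact ya.symm
        | exact yb.symm
        | exact yc.symm
        | exact w1a.symm
        | exact w1e.symm
        | exact w1g.symm
        | exact w2b.symm
        | exact w2e.symm
        | exact w2g.symm
  let κ0 : Fin 8 → ZMod 2 := ![0, 0, 0, 0, 1, 1, 1, 0]
  have hκ0 : ∀ x y, L8.Adj x y → κ0 x + κ0 y = 1 := by decide
  have hprop : Proper (imG φ L8) (kx φ κ0) := proper_imG hφ hκ0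
  let q0 : Fin 4 → Fin 8 := ![1, 0, 2, 3]
  let F0 : Set (Fin 8) := {4, 5, 6}
  have hq : φ ∘ q0 = ![a, c, e, g] := by
    funext i; fin_cases i <;> rfl
  have hF0 : φ '' F0 = {y, w1, w2} := by
    ext x
    constructor
    · rintro ⟨i, (rfl | rfl | rfl), rfl⟩
      · exact Or.inl rfl
      · exact Or.inr (Or.inl rfl)
      · exact Or.inr (Or.inr rfl)
    · rintro (rfl | rfl | rfl)
      · exact ⟨4, Or.inl rfl, rfl⟩
      · exact ⟨5, Or.inr (Or.inl rfl), rfl⟩
      · exact ⟨6, Or.inr (Or.inr rfl), rfl⟩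
  set Q : Set V := insert (φ 7) (Set.range (φ ∘ q0)) with hQ
  have hin : ∀ i, φ i ∈ (φ '' F0) ∪ Q := by
    intro i
    have hr : ∀ j : Fin 4, φ (q0 j) ∈ Q := fun j => Or.inr ⟨j, rfl⟩
    fin_cases i
    · exact Or.inr (hr 1)
    · exact Or.inr (hr 0)
    · exact Or.inr (hr 2)
    · exact Or.inr (hr 3)
    · exact Or.inl ⟨4, Or.inl rfl, rfl⟩
    · exact Or.inl ⟨5, Or.inr (Or.inl rfl), rfl⟩
    · exact Or.inl ⟨6, Or.inr (Or.inr rfl), rfl⟩
    · exact Or.inr (Or.inl rfl)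
  have lf : ∀ (s t u v : Fin 8), ¬ L8.Adj s t → ¬ L8.Adj u v →
      HasTOK4s (frameG L8 s t u v) (c0 s t u v (vl κ0 s t) (vl κ0 u v)) →
      LocFr (imG φ L8) (kx φ κ0) (φ '' F0) Q (φ s) (φ t) (φ u) (φ v) := by
    intro s t u v h1 h2 h3
    refine loc_of_fin (K := L8) (κ0 := κ0) (a := s) (b := t) (u := u) (v := v)
      hprop φ hφ (fun x y h => imG_adj hφ h) h1 h2 ?_ ?_ (Frame.of_c0 h1 h2 h3) hin
    · unfold vl; rw [kx_apply hφ, kx_apply hφ]
    · unfold vl; rw [kx_apply hφ, kx_apply hφ]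
  have e1 := (lf 0 1 2 3 (by decide) (by decide) tok_L8_1).swap_left
  have e2 := (lf 0 2 1 3 (by decide) (by decide) tok_L8_2).swap
  have e3 := (lf 0 3 1 2 (by decide) (by decide) tok_L8_3).swap
  have f0 := lf 7 0 2 3 (by decide) (by decide) tok_L8_c
  have f2 := lf 7 2 0 3 (by decide) (by decide) tok_L8_e
  have f3 := lf 7 3 0 2 (by decide) (by decide) tok_L8_g
  refine ⟨imG φ L8, kx φ κ0, ?_⟩
  rw [← hq, ← hF0]
  refine qgad_of_fin (v0 := 7) (F0 := F0) (q0 := q0) hφ hK hκ0 (by decide) (by decide)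
    ?_ ?_ ?_ (by decide) ?_ nab (by decide) ?_
  · rintro (h | h | h) <;> exact absurd h (by decide)
  · intro i
    fin_cases i <;> rintro (h | h | h) <;> exact absurd h (by decide)
  · intro x
    fin_cases x
    · exact Or.inr (Or.inr ⟨1, rfl⟩)
    · exact Or.inr (Or.inr ⟨0, rfl⟩)
    · exact Or.inr (Or.inr ⟨2, rfl⟩)
    · exact Or.inr (Or.inr ⟨3, rfl⟩)
    · exact Or.inl (Or.inl rfl)
    · exact Or.inl (Or.inr (Or.inl rfl))
    · exact Or.inl (Or.inr (Or.inr rfl))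
    · exact Or.inr (Or.inl rfl)
  · rintro x (rfl | rfl | rfl) z hz
    · have hz' : G.Adj y z := hz
      rcases (my z).1 hz' with rfl | rfl | rfl
      · exact ⟨1, by decide, rfl⟩
      · exact ⟨7, by decide, rfl⟩
      · exact ⟨0, by decide, rfl⟩
    · have hz' : G.Adj w1 z := hz
      rcases (m1 z).1 hz' with rfl | rfl | rfl
      · exact ⟨1, by decide, rfl⟩
      · exact ⟨2, by decide, rfl⟩
      · exact ⟨3, by decide, rfl⟩
    · have hz' : G.Adj w2 z := hz
      rcases (m2 z).1 hz' with rfl | rfl | rfl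
      · exact ⟨7, by decide, rfl⟩
      · exact ⟨2, by decide, rfl⟩
      · exact ⟨3, by decide, rfl⟩
  · intro s t u v hst hsu hsv htu htv huv hs ht hu hv hlt
    -- s in {1, 7}; t, u, v a permutation of 0, 2, 3 with u < v
    have hcase : (t = 0 ∧ u = 2 ∧ v = 3) ∨ (t = 2 ∧ u = 0 ∧ v = 3) ∨
        (t = 3 ∧ u = 0 ∧ v = 2) := by
      revert hst hsu hsv htu htv huv hs ht hu hv hlt
      revert s t u v
      decide
    rcases hs with rfl | rfl
    · rcases hcase with ⟨rfl, rfl, rfl⟩ | ⟨rfl, rfl, rfl⟩ | ⟨rfl, rfl, rfl⟩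
      · exact e1
      · -- {1, 2 | 0, 3}
        exact e3.swap_right.swap_right
      · exact e2
    · rcases hcase with ⟨rfl, rfl, rfl⟩ | ⟨rfl, rfl, rfl⟩ | ⟨rfl, rfl, rfl⟩
      · exact f0
      · exact f2
      · exact f3

/-! ### The fields of `GCore` -/

lemma bal_iff {G : SimpleGraph V} {κ : V → ZMod 2} {Y : Set V} :
    Bal G κ Y ↔ BalOn G (fun _ => 1) Y κ := by
  constructor
  · intro h u v hu huv
    exact (add_eq_one_iff.2 (h u v hu huv)).symm
  · intro h u v hu huv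
    exact add_eq_one_iff.1 (h u v hu huv).symm

section fields

variable {G : SimpleGraph V} {U : Set V}

theorem I4.gP1 [Finite V] (h : I4 G (fun _ => 1) U) :
    ∀ Y ⊆ U, 2 ≤ Y.ncard → ∀ κ, Bal G κ Y → 4 ≤ (Nb G Y).ncard := by
  intro Y hY h2 κ hb
  by_contra hlt
  exact h.no_bal3 hY h2 (by omega) (bal_iff.1 hb)

theorem I4.gP2 [Finite V] (h : I4 G (fun _ => 1) U) (hno : ¬ HasTOK4s G (fun _ => 1)) :
    ∀ Y ⊆ U, ∀ κ, Bal G κ Y → (Nb G Y).ncard = 4 → fden G Y ≤ beta κ (Nb G Y) := by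
  intro Y hY κ hb h4
  by_contra hlt
  push Not at hlt
  exact hno (h.P2 hY (bal_iff.1 hb) h4 hlt)

theorem I4.gind3 (h : I4 G (fun _ => 1) U) :
    ∀ z1 z2 : V, ∀ κ : V → ZMod 2, ¬ ∀ u v, u ∉ ({z1, z2} : Set V) →
    v ∉ ({z1, z2} : Set V) → G.Adj u v → κ u ≠ κ v := by
  intro z1 z2 κ hcon
  apply h.idx z1 z2 κ
  intro u v hu hv huv
  exact (add_eq_one_iff.2 (hcon u v hu hv huv)).symm

theorem I4.gT3 [Finite V] (h : I4 G (fun _ => 1) U) (hno : ¬ HasTOK4s G (fun _ => 1)) :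
    ∀ c d, d ∈ U → c ≠ d → (G.neighborSet d).ncard = 3 →
    ¬ G.neighborSet d ⊆ G.neighborSet c :=
  fun _ _ _ hcd h3 hsub => hno (h.T3 hcd h3 hsub)

theorem I4.gF1 [Finite V] (h : I4 G (fun _ => 1) U) (hno : ¬ HasTOK4s G (fun _ => 1)) :
    ∀ p q x x', G.Adj p q → x ≠ x' → G.Adj p x → G.Adj q x → G.Adj p x' → G.Adj q x' → False :=
  fun _ _ _ _ hpq hxx h1 h2 h3 h4 => hno (h.F1 hpq hxx h1 h2 h3 h4)

theorem I4.gTYPE1 [Finite V] (h : I4 G (fun _ => 1) U) (hno : ¬ HasTOK4s G (fun _ => 1)) :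
    ∀ a b z0 z1 z2, a ≠ b → ¬ G.Adj a b → z0 ≠ z1 → z0 ≠ z2 → z1 ≠ z2 →
    G.Adj a z0 → G.Adj a z1 → G.Adj a z2 → G.Adj b z0 → G.Adj b z1 → G.Adj b z2 →
    ∃ D ⊆ U, ∃ κ : V → ZMod 2, Bal G κ D ∧ (Nb G D).ncard ≤ 4 ∧ a ∈ Nb G D ∧ b ∈ Nb G D ∧
      κ a = κ b ∧ κ z0 ≠ κ a ∧ κ z1 ≠ κ a ∧ κ z2 ≠ κ a ∧
      z0 ∈ D ∪ Nb G D ∧ z1 ∈ D ∪ Nb G D ∧ z2 ∈ D ∪ Nb G D := by
  classical
  intro a b z0 z1 z2 hab nab h1 h2 h3 a1 a2 a3 b1 b2 b3
  obtain ⟨J, κ, hg, k1, k2, k3, k4⟩ := theta_qgad hab nab h1 h2 h3 a1 a2 a3 b1 b2 b3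
  rcases hg.balanced h with ht | ⟨D, M, κ', hDU, hM, hcov, haD, hbD, hnb, hb, hkq, hkb⟩
  · exact absurd ht hno
  rw [Set.union_empty] at hb
  have haD' : a ∉ D := haD
  have hnb' : ∀ x ∈ D, ∀ y, G.Adj x y → y ∈ D ∨ y ∈ M ∨ y = a ∨ y = b := by
    intro x hx y hxy
    rcases hnb x (Or.inl hx) y hxy with (h4 | h4 | h4) | h4 | h4
    · exact Or.inl h4
    · exact absurd h4 (Set.notMem_empty _)
    · exact Or.inr (Or.inl h4)
    · exact Or.inr (Or.inr (Or.inl h4))
    · exact Or.inr (Or.inr (Or.inr h4))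
  have ka : κ' a = κ a := hkq 0
  have kb : κ' b = κ a := hkb.trans k1
  have kz0 : κ' z0 = κ a + 1 := (hkq 1).trans k2
  have kz1 : κ' z1 = κ a + 1 := (hkq 2).trans k3
  have kz2 : κ' z2 = κ a + 1 := (hkq 3).trans k4
  have c0 : z0 ∈ D ∨ z0 ∈ M := hcov 1 (by decide)
  have c1 : z1 ∈ D ∨ z1 ∈ M := hcov 2 (by decide)
  have c2 : z2 ∈ D ∨ z2 ∈ M := hcov 3 (by decide)
  have hsub : Nb G D ⊆ M ∪ {a, b} := by
    rintro y ⟨hy, x, hx, hxy⟩
    rcases hnb' x hx y hxy with h4 | h4 | h4 | h4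
    · exact absurd h4 hy
    · exact Or.inl h4
    · exact Or.inr (Or.inl h4)
    · exact Or.inr (Or.inr h4)
  have hcard : (M ∪ {a, b}).ncard ≤ 4 := by
    have h5 := Set.ncard_union_le M ({a, b} : Set V)
    have h6 := ncard_pair_le' a b
    omega
  have hkne : ∀ z, κ' z = κ a + 1 → κ' z ≠ κ' a := by
    intro z hz hh
    rw [hz, ka] at hh
    have : ∀ t : ZMod 2, t + 1 ≠ t := by decide
    exact this _ hh
  -- one of the middle vertices is inside
  have hin : ∃ z, z ∈ D ∧ (z = z0 ∨ z = z1 ∨ z = z2) := by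
    by_contra hcon
    push Not at hcon
    have e0 := c0.resolve_left (fun h5 => (hcon z0 h5).1 rfl)
    have e1 := c1.resolve_left (fun h5 => (hcon z1 h5).2.1 rfl)
    have e2 := c2.resolve_left (fun h5 => (hcon z2 h5).2.2 rfl)
    have h5 : ({z0, z1, z2} : Set V) ⊆ M := by
      rintro x (rfl | rfl | rfl)
      · exact e0
      · exact e1
      · exact e2
    have h6 := Set.ncard_le_ncard h5 (Set.toFinite _)
    have h7 : ({z0, z1, z2} : Set V).ncard = 3 := Set.ncard_eq_three.2 ⟨z0, z1, z2, h1, h2, h3, rfl⟩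
    omega
  obtain ⟨z, hzD, hz⟩ := hin
  have kz : κ' z = κ a + 1 := by
    rcases hz with rfl | rfl | rfl
    · exact kz0
    · exact kz1
    · exact kz2
  have haz : G.Adj z a := by
    rcases hz with rfl | rfl | rfl
    · exact a1.symm
    · exact a2.symm
    · exact a3.symm
  have hbz : G.Adj z b := by
    rcases hz with rfl | rfl | rfl
    · exact b1.symm
    · exact b2.symm
    · exact b3.symm
  have haN : a ∈ Nb G D := ⟨haD', z, hzD, haz⟩
  have hbN : b ∈ Nb G D := ⟨hbD, z, hzD, hbz⟩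
  have hN4 : (Nb G D).ncard ≤ 4 := (Set.ncard_le_ncard hsub (Set.toFinite _)).trans hcard
  -- D has at least two elements
  have hD2 : 2 ≤ D.ncard := by
    by_contra hlt
    have hD1 : D = {z} := by
      apply (Set.eq_of_subset_of_ncard_le _ _ (Set.toFinite _)).symm
      · rintro x rfl; exact hzD
      · rw [Set.ncard_singleton]; omega
    -- M is the set of the two other middle vertices
    have hMz : ∀ y, y ∈ M → y = z0 ∨ y = z1 ∨ y = z2 := by
      intro y hy
      by_contra hcon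
      push Not at hcon
      have hpick : ∃ s t, s ≠ t ∧ s ∈ M ∧ t ∈ M ∧ y ≠ s ∧ y ≠ t := by
        have r : ∀ x, (x ∈ D ∨ x ∈ M) → x ≠ z → x ∈ M := by
          intro x hx hxz
          rcases hx with hx | hx
          · rw [hD1] at hx; exact absurd hx hxz
          · exact hx
        rcases hz with rfl | rfl | rfl
        · exact ⟨z1, z2, h3, r z1 c1 h1.symm, r z2 c2 h2.symm, hcon.2.1, hcon.2.2⟩
        · exact ⟨z0, z2, h2, r z0 c0 h1, r z2 c2 h3.symm, hcon.1, hcon.2.2⟩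
        · exact ⟨z0, z1, h1, r z0 c0 h2, r z1 c1 h3, hcon.1, hcon.2.1⟩
      obtain ⟨s, t, hst, hs, ht, hys, hyt⟩ := hpick
      have h5 : ({y, s, t} : Set V) ⊆ M := by
        rintro x (rfl | rfl | rfl)
        · exact hy
        · exact hs
        · exact ht
      have h6 := Set.ncard_le_ncard h5 (Set.toFinite _)
      have h7 : ({y, s, t} : Set V).ncard = 3 :=
        Set.ncard_eq_three.2 ⟨y, s, t, hys, hyt, hst, rfl⟩
      omega
    have hnz : G.neighborSet z ⊆ {a, b} := by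
      intro y hy
      have h5 := hb z y hzD hy
      rcases hnb' z hzD y hy with h6 | h6 | h6 | h6
      · rw [hD1] at h6
        have hyz : y = z := h6
        rw [hyz] at hy
        exact absurd hy (G.loopless.irrefl z)
      · exfalso
        have ky : κ' y = κ a + 1 := by
          rcases hMz y h6 with h7 | h7 | h7
          · rw [h7]; exact kz0
          · rw [h7]; exact kz1
          · rw [h7]; exact kz2
        have h8 : (1 : ZMod 2) = κ' z + κ' y := h5
        rw [kz, ky, CharTwo.add_self_eq_zero] at h8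
        exact absurd h8 (by decide)
      · exact Or.inl h6
      · exact Or.inr h6
    have h8 := (Set.ncard_le_ncard hnz (Set.toFinite _)).trans (ncard_pair_le' _ _)
    have h9 := h.deg3 z (hDU hzD)
    omega
  have h4 : 4 ≤ (Nb G D).ncard := by
    by_contra hlt
    exact h.no_bal3 hDU hD2 (by omega) hb
  have hN : Nb G D = M ∪ {a, b} :=
    Set.eq_of_subset_of_ncard_le hsub (by omega) (Set.toFinite _)
  have hmem : ∀ x, (x ∈ D ∨ x ∈ M) → x ∈ D ∪ Nb G D := by
    intro x hx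
    rcases hx with hx | hx
    · exact Or.inl hx
    · right; rw [hN]; exact Or.inl hx
  exact ⟨D, hDU, κ', bal_iff.2 hb, hN4, haN, hbN, by rw [ka, kb], hkne z0 kz0, hkne z1 kz1,
    hkne z2 kz2, hmem z0 c0, hmem z1 c1, hmem z2 c2⟩

theorem I4.gL1 [Finite V] (h : I4 G (fun _ => 1) U) (hno : ¬ HasTOK4s G (fun _ => 1)) :
    ∀ w1 w2 y a b c e g, ∀ κ0 : V → ZMod 2, Bal G κ0 {w1, w2, y} → ¬ G.Adj a b →
    w1 ≠ w2 → y ≠ w1 → y ≠ w2 →
    a ≠ b → c ≠ e → c ≠ g → c ≠ a → c ≠ b → e ≠ g → a ≠ e → a ≠ g → b ≠ e → b ≠ g →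
    G.neighborSet w1 = {a, e, g} → G.neighborSet w2 = {b, e, g} →
    G.neighborSet y = {a, b, c} →
    ∃ D ⊆ U, ∃ κ : V → ZMod 2, Bal G κ D ∧ y ∈ D ∧ w1 ∈ D ∧ w2 ∈ D ∧ a ∈ Nb G D ∧ b ∈ Nb G D ∧
      (Nb G D).ncard ≤ 4 := by
  classical
  intro w1 w2 y a b c e g κ0 hb0 nab hww hyw1 hyw2 hab hce hcg hca hcb heg hae hag hbe hbg
    n1 n2 ny
  have m1 : ∀ x, (x = a ∨ x = e ∨ x = g) → G.Adj w1 x := by
    intro x hx
    have : x ∈ G.neighborSet w1 := by rw [n1]; exact hx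
    exact this
  have m2 : ∀ x, (x = b ∨ x = e ∨ x = g) → G.Adj w2 x := by
    intro x hx
    have : x ∈ G.neighborSet w2 := by rw [n2]; exact hx
    exact this
  have my : ∀ x, (x = a ∨ x = b ∨ x = c) → G.Adj y x := by
    intro x hx
    have : x ∈ G.neighborSet y := by rw [ny]; exact hx
    exact this
  have a1 := hb0 w1 a (by simp) (m1 a (by simp))
  have a2 := hb0 w1 e (by simp) (m1 e (by simp))
  have a3 := hb0 w1 g (by simp) (m1 g (by simp))
  have b1 := hb0 w2 b (by simp) (m2 b (by simp))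
  have b2 := hb0 w2 e (by simp) (m2 e (by simp))
  have y1 := hb0 y a (by simp) (my a (by simp))
  have y3 := hb0 y c (by simp) (my c (by simp))
  have kw : κ0 w2 = κ0 w1 := eq_of_ne_of_ne b2 a2
  have ky : κ0 y = κ0 w1 := eq_of_ne_of_ne y1 a1
  have hin : ∀ x, (x = w1 ∨ x = w2 ∨ x = y) → κ0 x = κ0 w1 := by
    rintro x (rfl | rfl | rfl)
    · rfl
    · exact kw
    · exact ky
  have hout : ∀ x, (x = a ∨ x = b ∨ x = c ∨ x = e ∨ x = g) → κ0 x ≠ κ0 w1 := by
    rintro x (rfl | rfl | rfl | rfl | rfl)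
    · exact a1.symm
    · rw [← kw]; exact b1.symm
    · rw [← ky]; exact y3.symm
    · exact a2.symm
    · exact a3.symm
  have hsep : ∀ x z, (x = a ∨ x = b ∨ x = c ∨ x = e ∨ x = g) → (z = w1 ∨ z = w2 ∨ z = y) →
      x ≠ z := by
    intro x z hx hz hxz
    exact hout x hx (by rw [hxz]; exact hin z hz)
  have saw1 : a ≠ w1 := hsep a w1 (by simp) (by simp)
  have saw2 : a ≠ w2 := hsep a w2 (by simp) (by simp)
  have say : a ≠ y := hsep a y (by simp) (by simp)
  have sbw1 : b ≠ w1 := hsep b w1 (by simp) (by simp)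
  have sbw2 : b ≠ w2 := hsep b w2 (by simp) (by simp)
  have sby : b ≠ y := hsep b y (by simp) (by simp)
  have scw1 : c ≠ w1 := hsep c w1 (by simp) (by simp)
  have scw2 : c ≠ w2 := hsep c w2 (by simp) (by simp)
  have scy : c ≠ y := hsep c y (by simp) (by simp)
  have sew1 : e ≠ w1 := hsep e w1 (by simp) (by simp)
  have sew2 : e ≠ w2 := hsep e w2 (by simp) (by simp)
  have sey : e ≠ y := hsep e y (by simp) (by simp)
  have sgw1 : g ≠ w1 := hsep g w1 (by simp) (by simp)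
  have sgw2 : g ≠ w2 := hsep g w2 (by simp) (by simp)
  have sgy : g ≠ y := hsep g y (by simp) (by simp)
  have hφ : Function.Injective ![c, a, e, g, y, w1, w2, b] := by
    intro i j hij
    by_contra hne
    fin_cases i <;> fin_cases j <;>
      first
        | exact hne rfl
        | exact hca hij
        | exact hce hij
        | exact hcg hij
        | exact hcb hij
        | exact hae hij
        | exact hag hij
        | exact hab hij
        | exact heg hij
        | exact hbe hij.symm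
        | exact hbg hij.symm
        | exact hca hij.symm
        | exact hce hij.symm
        | exact hcg hij.symm
        | exact hcb hij.symm
        | exact hae hij.symm
        | exact hag hij.symm
        | exact hab hij.symm
        | exact heg hij.symm
        | exact hbe hij
        | exact hbg hij
        | exact hyw1 hij
        | exact hyw2 hij
        | exact hww hij
        | exact hyw1 hij.symm
        | exact hyw2 hij.symm
        | exact hww hij.symm
        | exact saw1 hij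
        | exact saw1 hij.symm
        | exact saw2 hij
        | exact saw2 hij.symm
        | exact say hij
        | exact say hij.symm
        | exact sbw1 hij
        | exact sbw1 hij.symm
        | exact sbw2 hij
        | exact sbw2 hij.symm
        | exact sby hij
        | exact sby hij.symm
        | exact scw1 hij
        | exact scw1 hij.symm
        | exact scw2 hij
        | exact scw2 hij.symm
        | exact scy hij
        | exact scy hij.symm
        | exact sew1 hij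
        | exact sew1 hij.symm
        | exact sew2 hij
        | exact sew2 hij.symm
        | exact sey hij
        | exact sey hij.symm
        | exact sgw1 hij
        | exact sgw1 hij.symm
        | exact sgw2 hij
        | exact sgw2 hij.symm
        | exact sgy hij
        | exact sgy hij.symm
  obtain ⟨J, κ, hg⟩ := L1_qgad hφ nab n1 n2 ny
  rcases hg.balanced h with ht | ⟨D, M, κ', hDU, hM, hcov, haD, hbD, hnb, hb, hkq, hkb⟩
  · exact absurd ht hno
  set D' : Set V := D ∪ {y, w1, w2} with hD'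
  have hD'U : D' ⊆ U := Set.union_subset hDU (hg.FU h)
  have hyD : y ∈ D' := Or.inr (Or.inl rfl)
  have hw1D : w1 ∈ D' := Or.inr (Or.inr (Or.inl rfl))
  have hw2D : w2 ∈ D' := Or.inr (Or.inr (Or.inr rfl))
  have hsub : Nb G D' ⊆ M ∪ {a, b} := by
    rintro z ⟨hz, x, hx, hxz⟩
    rcases hnb x hx z hxz with (h4 | h4 | h4) | h4 | h4
    · exact absurd (Or.inl h4) hz
    · exact absurd (Or.inr h4) hz
    · exact Or.inl h4
    · exact Or.inr (Or.inl h4)
    · exact Or.inr (Or.inr h4)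
  have hcard : (M ∪ {a, b}).ncard ≤ 4 := by
    have h5 := Set.ncard_union_le M ({a, b} : Set V)
    have h6 := ncard_pair_le' a b
    omega
  have haD' : a ∉ D' := by
    rintro (h5 | h5)
    · exact haD h5
    · exact hg.qF 0 h5
  have hbD' : b ∉ D' := by
    rintro (h5 | h5)
    · exact hbD h5
    · exact hg.bF h5
  exact ⟨D', hD'U, κ', bal_iff.2 hb, hyD, hw1D, hw2D, ⟨haD', y, hyD, my a (by simp)⟩,
    ⟨hbD', y, hyD, my b (by simp)⟩, (Set.ncard_le_ncard hsub (Set.toFinite _)).trans hcard⟩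

end fields

end Pool.Agent.Helper1.GL
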