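import Pool.Agent.Helper1.GL.Quot
import Pool.Agent.Helper57.TD.TheoremD
import Pool.Agent.Helper82.TK.FanTri

/-!
# Global part: balanced four-sets with all frames; P2; an edge in two triangles
-/

set_option autoImplicit false

namespace Pool.Agent.Helper1.GL

open SimpleGraph Pool.Agent.Helper57.TOK Pool.Agent.Helper57.TD Pool.Agent.Helper82.TK
  Pool.Agent.Helper1.TD

variable {V : Type*}

lemma supp_restr {G : SimpleGraph V} {Y : Set V} : supp (restr G Y) ⊆ Y ∪ Nb G Y := by
  rintro x ⟨y, h1, h2⟩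
  rcases h2 with h2 | h2
  · exact Or.inl h2
  · exact mem_or_Nb1 h2 h1.symm

/-- A balanced four-set with all frames gives a TOK4. -/
theorem I4.tok_of_frames [Finite V] {G : SimpleGraph V} {U : Set V} (h : I4 G (fun _ => 1) U)
    {Y : Set V} (hY : Y ⊆ U) {κ : V → ZMod 2} (hb : BalOn G (fun _ => 1) Y κ)
    (h4 : (Nb G Y).ncard = 4) (hF : AllFramesE (restr G Y) κ (Nb G Y)) :
    HasTOK4s G (fun _ => 1) := by
  classical
  have hlab : ∀ x y, (restr G Y).Adj x y → 1 = κ x + κ y := by
    rintro x y ⟨h1, h2 | h2⟩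
    · exact hb x y h2 h1
    · rw [add_comm]; exact hb y x h2 h1.symm
  have hTY : ∀ x ∈ Nb G Y, x ∉ Y := fun x hx => hx.1
  have hTU : Nb G Y ⊆ U := by
    rintro x ⟨-, u, -, hux⟩
    exact h.edge_mem _ _ hux.symm
  have hYne : Y.Nonempty := by
    rw [Set.nonempty_iff_ne_empty]
    intro hh
    rw [hh, Nb_empty, Set.ncard_empty] at h4
    omega
  rcases pack4 (delG G Y) (fun _ => 1) κ (Nb G Y) h4 with hT | ⟨X, A1, B, ρ, hO⟩
  · obtain ⟨a, b, a', b', hA, P, Q, hP, hQ, hPQ, -, -, hPw, hQw⟩ := hT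
    obtain ⟨n1, n2, n3, n4, n5, n6⟩ := quad_ne (hA ▸ h4)
    have hmem : ∀ x, x ∈ ({a, b, a', b'} : Set V) → x ∈ Nb G Y := fun x hx => hA ▸ hx
    have ma := hmem a (by simp)
    have mb := hmem b (by simp)
    have ma' := hmem a' (by simp)
    have mb' := hmem b' (by simp)
    have hno : ∀ x ∈ Nb G Y, ∀ y ∈ Nb G Y, ¬ (restr G Y).Adj x y := by
      rintro x hx y hy ⟨-, h1 | h1⟩
      · exact hx.1 h1
      · exact hy.1 h1
    have hFr := hF a ma b mb a' ma' b' mb' n1 n2 n3 n4 n5 n6
    have hle := delG_le G Y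
    refine tok_of_frame (J := restr G Y) (κ := κ) (F := Y) (Q := Nb G Y) (restr_le G Y) hlab
      ⟨restr G Y, le_rfl, supp_restr, hno a ma b mb, hno a' ma' b' mb', hFr⟩ (Or.inr ma)
      (Or.inr mb) (Or.inr ma') (Or.inr mb') (P.mapLe hle) (Q.mapLe hle)
      ((Walk.isPath_mapLe hle).2 hP) ((Walk.isPath_mapLe hle).2 hQ) (by rw [wt_mapLe, hPw])
      (by rw [wt_mapLe, hQw]) ?_ ?_ ?_
    · intro x hx
      rw [Walk.support_mapLe_eq_support] at hx ⊢
      exact hPQ x hx
    · intro x hx hxF
      rw [Walk.support_mapLe_eq_support] at hx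
      have h1 := notMem_of_mem_support_delG P ma.1 x hx
      rcases hxF with h2 | h2
      · exact absurd h2 h1
      · rw [hA] at h2
        rcases h2 with h3 | h3 | h3 | h3
        · exact Or.inl h3
        · exact Or.inr h3
        · exact absurd (h3 ▸ Q.start_mem_support) (hPQ x hx)
        · exact absurd (h3 ▸ Q.end_mem_support) (hPQ x hx)
    · intro x hx hxF
      rw [Walk.support_mapLe_eq_support] at hx
      have h1 := notMem_of_mem_support_delG Q ma'.1 x hx
      rcases hxF with h2 | h2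
      · exact absurd h2 h1
      · rw [hA] at h2
        rcases h2 with h3 | h3 | h3 | h3
        · exact absurd hx (hPQ x (h3 ▸ P.start_mem_support))
        · exact absurd hx (hPQ x (h3 ▸ P.end_mem_support))
        · exact Or.inl h3
        · exact Or.inr h3
  exfalso
  obtain ⟨n, hn, hn'⟩ := exists_enum h4
  have hnT : ∀ i, n i ∈ Nb G Y := fun i => hn' ▸ ⟨i, rfl⟩
  set H := delG G Y with hH
  have hρ : ∀ x ∈ Nb G Y, x ∈ A1 → ρ x = κ x := fun x hx hx' => hO.pot x hx hx'
  by_cases hX : X.Nonempty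
  · obtain ⟨x0, hx0⟩ := hX
    have hB : B = ∅ := hO.B_empty ⟨x0, hx0⟩
    have hXe : ∀ x ∈ X, x = x0 := fun x hx => eq_of_ncard_le_one hO.X_le hx hx0
    have hTA : ∀ x ∈ Nb G Y, x ≠ x0 → x ∈ A1 := by
      intro x hx hne
      rcases hO.A_sub hx with h1 | h1
      · exact h1
      · exact absurd (hXe _ h1) hne
    have hel : ∀ i, n i ≠ x0 → (n i ∈ U ∧ (n i ∈ Y ∨ n i ∈ A1) ∧ n i ≠ x0 ∧ n i ≠ x0) :=
      fun i hi => ⟨hTU (hnT i), Or.inr (hTA _ (hnT i) hi), hi, hi⟩
    have hfin : ∀ i j k, i ≠ j → i ≠ k → j ≠ k → n i ≠ x0 → n j ≠ x0 → n k ≠ x0 → False := by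
      intro i j k hij hik hjk hi hj hk
      refine h.obs_false (p1 := x0) (p2 := x0) (D := Y) (A1 := A1) (κ := κ) (ρ := ρ) ?_ ?_ ?_ ?_
        ?_ (hn.ne hij) (hn.ne hik) (hn.ne hjk) (hel i hi) (hel j hj) (hel k hk)
      · intro x hx y hxy
        rcases mem_or_Nb1 hx hxy with h1 | h1
        · exact Or.inl h1
        · by_cases h2 : y = x0
          · exact Or.inr (Or.inl h2)
          · exact Or.inr (Or.inr (Or.inr (hTA y h1 h2)))
      · intro x hx y hy hxy
        exact hb x y hx hxy
      · intro x hx y hyA hyY hyx _ hxy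
        rw [hρ y ⟨hyY, x, hx, hxy⟩ hyA]
        exact hb x y hx hxy
      · intro x hx y hy hxY hyY _ _ _ _ hxy
        exact hO.edge x hx y hy ⟨hxy, hxY, hyY⟩ (by rw [hB]; simp)
      · intro u hu w hw hne huY hwY _ _ _ _ u' w' huu hww p hp
        obtain ⟨r, hr⟩ := exists_walk_delG (Y := Y) p (fun x hx => (hp x hx).2.1)
        have hu' := hp u' p.start_mem_support
        have hw' := hp w' p.end_mem_support
        have h1 := hO.walk u hu w hw hne u' w' ⟨huu, huY, hu'.2.1⟩ ⟨hww, hwY, hw'.2.1⟩ r (by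
            intro x hx
            rw [hr] at hx
            exact ⟨(hp x hx).1, fun h2 => (hp x hx).2.2.2 (hXe x h2)⟩)
        rw [hB] at h1
        exact h1.1
    by_cases h0 : n 0 = x0
    · exact hfin 1 2 3 (by decide) (by decide) (by decide)
        (fun h1 => absurd (hn (h1.trans h0.symm)) (by decide))
        (fun h1 => absurd (hn (h1.trans h0.symm)) (by decide))
        (fun h1 => absurd (hn (h1.trans h0.symm)) (by decide))
    by_cases h1 : n 1 = x0
    · exact hfin 0 2 3 (by decide) (by decide) (by decide) h0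
        (fun h2 => absurd (hn (h2.trans h1.symm)) (by decide))
        (fun h2 => absurd (hn (h2.trans h1.symm)) (by decide))
    by_cases h2 : n 2 = x0
    · exact hfin 0 1 3 (by decide) (by decide) (by decide) h0 h1
        (fun h3 => absurd (hn (h3.trans h2.symm)) (by decide))
    · exact hfin 0 1 2 (by decide) (by decide) (by decide) h0 h1 h2
  · have hXe : ∀ x, x ∉ X := fun x hx => hX ⟨x, hx⟩
    have hTA : ∀ x ∈ Nb G Y, x ∈ A1 := fun x hx => (hO.A_sub hx).resolve_right (hXe _)
    have hclosed : ∀ x y, x ∈ A1 → x ∉ B → H.Adj x y → y ∈ A1 := by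
      intro x y hx hxB hxy
      by_contra hyA
      set C : Set V := Reach H {y} (A1 ∪ X) with hC
      have hyC : y ∈ C := reach_of_mem rfl (by
        rintro (h1 | h1)
        · exact hyA h1
        · exact hXe _ h1)
      have hCA : ∀ z ∈ C, z ∉ A1 := fun z hz h1 => not_mem_of_reach hz (Or.inl h1)
      have hCm : ∀ z ∈ C, z ∉ Y ∧ z ∈ U := by
        rintro z ⟨a, ha, p, hp⟩
        rw [Set.mem_singleton_iff] at ha
        subst ha
        refine ⟨notMem_of_mem_support_delG p hxy.2.2 z p.end_mem_support, ?_⟩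
        by_cases haz : a = z
        · subst haz
          exact h.edge_mem _ _ hxy.1.symm
        · obtain ⟨w, hw, -⟩ := exists_last_edge p haz
          exact h.edge_mem _ _ hw.1.symm
      have hxN : x ∈ Nb H C := ⟨fun h1 => hCA x h1 hx, y, hyC, hxy.symm⟩
      have hNC : Nb G C ⊆ {x} := by
        rintro w ⟨hwC, z, hz, hzw⟩
        have hz' := hCm z hz
        by_cases hwY : w ∈ Y
        · exfalso
          exact hCA z hz (hTA z ⟨hz'.1, w, hwY, hzw.symm⟩)
        have hwN : w ∈ Nb H C := ⟨hwC, z, hz, ⟨hzw, hz'.1, hwY⟩⟩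
        have hwA : w ∈ A1 := by
          rcases Nb_Reach hwN with h2 | h2
          · exact h2
          · exact absurd h2 (hXe _)
        rw [Set.mem_singleton_iff]
        by_contra hne
        exact hxB (obs_comp hO subset_rfl hwA hwN hx hxN hne).2
      have hN1 := Set.ncard_le_ncard hNC (Set.toFinite _)
      rw [Set.ncard_singleton] at hN1
      by_cases h2 : 2 ≤ C.ncard
      · have hrest := h.cut C (fun z hz => (hCm z hz).2) h2 (by omega)
        have hr : ∀ i, n i ≠ x → n i ∈ U \ (C ∪ Nb G C) := by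
          intro i hi
          refine ⟨hTU (hnT i), ?_⟩
          rintro (h1 | h1)
          · exact hCA _ h1 (hTA _ (hnT i))
          · exact hi (hNC h1)
        by_cases h0 : n 0 = x
        · have h3 := eq_of_ncard_le_one hrest
            (hr 1 (fun h1 => absurd (hn (h1.trans h0.symm)) (by decide)))
            (hr 2 (fun h1 => absurd (hn (h1.trans h0.symm)) (by decide)))
          exact absurd (hn h3) (by decide)
        by_cases h1 : n 1 = x
        · have h3 := eq_of_ncard_le_one hrest (hr 0 h0)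
            (hr 2 (fun h2 => absurd (hn (h2.trans h1.symm)) (by decide)))
          exact absurd (hn h3) (by decide)
        · have h3 := eq_of_ncard_le_one hrest (hr 0 h0) (hr 1 h1)
          exact absurd (hn h3) (by decide)
      · have h3 : C = {y} := by
          apply (Set.eq_of_subset_of_ncard_le _ _ (Set.toFinite _)).symm
          · rintro z rfl; exact hyC
          · rw [Set.ncard_singleton]; omega
        rw [h3, Nb_singleton] at hN1
        have h4 := h.deg3 y (hCm y hyC).2
        omega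
    set Y' : Set V := {x | x ∈ U ∧ (x ∈ Y ∨ (x ∈ A1 ∧ x ∉ B))} with hY'
    set κ' : V → ZMod 2 := fun x => if x ∈ Y then κ x else ρ x with hκ'
    have k1 : ∀ x, x ∈ Y → κ' x = κ x := by
      intro x hx; rw [hκ']; simp only [if_pos hx]
    have k2 : ∀ x, x ∉ Y → κ' x = ρ x := by
      intro x hx; rw [hκ']; simp only [if_neg hx]
    have hstep : ∀ u w, u ∈ Y' → G.Adj u w → (w ∈ Y' ∨ w ∈ B) ∧ 1 = κ' u + κ' w := by
      intro u w hu huw
      have hwU := h.edge_mem w u huw.symm
      have hmem : ∀ z, z ∈ U → z ∈ A1 → z ∈ Y' ∨ z ∈ B := by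
        intro z h1 h2
        by_cases h4 : z ∈ B
        · exact Or.inr h4
        · exact Or.inl ⟨h1, Or.inr ⟨h2, h4⟩⟩
      have gY : ∀ x y, x ∈ Y → G.Adj x y → 1 = κ' x + κ' y := by
        intro x y hx hxy
        rw [k1 x hx]
        by_cases hy : y ∈ Y
        · rw [k1 y hy]; exact hb x y hx hxy
        · have hyT : y ∈ Nb G Y := ⟨hy, x, hx, hxy⟩
          rw [k2 y hy, hρ y hyT (hTA y hyT)]
          exact hb x y hx hxy
      by_cases huY : u ∈ Y
      · refine ⟨?_, gY u w huY huw⟩
        rcases mem_or_Nb1 huY huw with h1 | h1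
        · exact Or.inl ⟨hwU, Or.inl h1⟩
        · exact hmem w hwU (hTA w h1)
      by_cases hwY : w ∈ Y
      · exact ⟨Or.inl ⟨hwU, Or.inl hwY⟩, by rw [add_comm]; exact gY w u hwY huw.symm⟩
      · have hu' := hu.2.resolve_left huY
        have hH' : H.Adj u w := ⟨huw, huY, hwY⟩
        have hwA := hclosed u w hu'.1 hu'.2 hH'
        refine ⟨hmem w hwU hwA, ?_⟩
        rw [k2 u huY, k2 w hwY]
        exact hO.edge u hu'.1 w hwA hH' (fun h3 => hu'.2 h3.1)
    obtain ⟨i, hi⟩ : ∃ i, n i ∉ B := by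
      by_contra hcon
      push Not at hcon
      have h1 : Set.range n ⊆ B := by
        rintro _ ⟨i, rfl⟩; exact hcon i
      have h2 := Set.ncard_le_ncard h1 (Set.toFinite _)
      rw [hn', h4] at h2
      have := hO.B_le
      omega
    obtain ⟨y, hy⟩ := hYne
    refine h.no_bal3 (Y := Y') (κ := κ') (fun x hx => hx.1)
      (two_le_ncard_of (a := y) (b := n i) ⟨hY hy, Or.inl hy⟩
        ⟨hTU (hnT i), Or.inr ⟨hTA _ (hnT i), hi⟩⟩ (fun hh => (hnT i).1 (hh ▸ hy))) ?_ ?_
    · have h1 : Nb G Y' ⊆ B := by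
        rintro w ⟨hw, u, hu, huw⟩
        exact (hstep u w hu huw).1.resolve_left hw
      exact (Set.ncard_le_ncard h1 (Set.toFinite _)).trans hO.B_le
    · intro u w hu huw
      exact (hstep u w hu huw).2

lemma fO_of_bal {G : SimpleGraph V} {Y : Set V} {κ : V → ZMod 2}
    (hb : BalOn G (fun _ => 1) Y κ) : fO G κ Y = fden G Y := by
  have : EAt (oddG G κ) Y = EAt G Y := by
    ext e
    induction e using Sym2.ind with
    | _ u v =>
      rw [mem_EAt, mem_EAt, oddG_adj]
      constructor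
      · exact fun h => ⟨h.1.1, h.2⟩
      · rintro ⟨h1, h2⟩
        refine ⟨⟨h1, ?_⟩, h2⟩
        rcases h2 with h2 | h2
        · exact (hb u v h2 h1).symm
        · rw [add_comm]; exact (hb v u h2 h1.symm).symm
  unfold fO fden rho
  rw [this]

/-- The society of a balanced four-set. -/
theorem I4.soc [Finite V] {G : SimpleGraph V} {U : Set V} (h : I4 G (fun _ => 1) U)
    {Y : Set V} (hY : Y ⊆ U) {κ : V → ZMod 2} (hb : BalOn G (fun _ => 1) Y κ)
    (h4 : (Nb G Y).ncard = 4) {md : Bool} (hM : thr md κ (Nb G Y) ≤ fden G Y)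
    (hT : md = true → Is22 κ (Nb G Y)) : Soc md (restr G Y) κ Y (Nb G Y) where
  T4 := h4
  disj := by
    rw [Set.disjoint_left]
    intro x hx hx'
    exact hx'.1 hx
  edge_mem := by
    rintro u v ⟨h1, h2⟩
    rcases h2 with h2 | h2
    · exact Or.inl h2
    · exact mem_or_Nb1 h2 h1.symm
  edge_S := fun u v huv => huv.2
  M1 := by rw [fO_restr G κ subset_rfl, fO_of_bal hb]; exact hM
  TT := hT
  M2 := by
    intro Y' hY' hne hc
    rw [Nb_restr G hY'] at hc ⊢
    rw [fO_restr G κ hY']
    have hb' : BalOn G (fun _ => 1) Y' κ := fun u v hu huv => hb u v (hY' hu) huv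
    by_cases h2 : 2 ≤ Y'.ncard
    · exact (h.no_bal3 (hY'.trans hY) h2 hc hb').elim
    · have hpos : 0 < Y'.ncard := (Set.ncard_pos (Set.toFinite _)).2 hne
      obtain ⟨s, rfl⟩ := Set.ncard_eq_one.1 (by omega : Y'.ncard = 1)
      apply fO_singleton_le
      have h7 := h.deg3 s (hY (hY' rfl))
      exact (Set.ncard_pos (Set.toFinite _)).1 (by omega)
  C1 := by
    intro s hs
    rw [neighborSet_restr G hs]
    have := h.deg3 s (hY hs)
    omega
  C2 := by
    intro Y' hY' h2
    rw [Nb_restr G hY']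
    by_contra hlt
    have hb' : BalOn G (fun _ => 1) Y' κ := fun u v hu huv => hb u v (hY' hu) huv
    exact h.no_bal3 (hY'.trans hY) h2 (by omega) hb'

/-- Global P2: a dense balanced four-set gives a TOK4. -/
theorem I4.P2 [Finite V] {G : SimpleGraph V} {U : Set V} (h : I4 G (fun _ => 1) U)
    {Y : Set V} (hY : Y ⊆ U) {κ : V → ZMod 2} (hb : BalOn G (fun _ => 1) Y κ)
    (h4 : (Nb G Y).ncard = 4) (hd : beta κ (Nb G Y) < fden G Y) : HasTOK4s G (fun _ => 1) := by
  refine h.tok_of_frames hY hb h4 ?_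
  refine theoremD _ _ _ _ (h.soc (md := false) hY hb h4 ?_ (fun hh => absurd hh (by decide)))
  show beta κ (Nb G Y) + 1 ≤ fden G Y
  linarith

/-- Four distinct vertices `p`, `q`, `x`, `x'`: an odd path from `x` to `x'` in `G - p - q`. -/
theorem I4.odd_path [Finite V] {G : SimpleGraph V} {U : Set V} (h : I4 G (fun _ => 1) U)
    {p q x x' : V} (hpq : p ≠ q) (hpx : p ≠ x) (hpx' : p ≠ x') (hqx : q ≠ x) (hqx' : q ≠ x')
    (hxx : x ≠ x') (hx : x ∈ U) (hx' : x' ∈ U) :
    ∃ R : G.Walk x x', R.IsPath ∧ wt (fun _ => 1) R = 1 ∧ ∀ z ∈ R.support, z ≠ p ∧ z ≠ q := by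
  obtain ⟨R, h1, h2, h3⟩ := h.virtual (D := ∅) (κ := fun _ => 0) (v := p) (m1 := x) (m2 := x')
    (m3 := q) (Or.inr (by simp)) (Set.empty_subset _) hxx hqx.symm hqx'.symm hpx hpx' hpq hx hx'
    (Set.notMem_empty _) (Set.notMem_empty _) (Set.notMem_empty _) (Set.notMem_empty _)
    (by rw [Nb_empty]; exact Set.empty_subset _) (fun z hz => absurd hz (Set.notMem_empty _))
  exact ⟨R, h1, by rw [h2]; simp, fun z hz => (h3 z hz).2⟩

/-- An edge in two triangles gives a TOK4. -/
theorem I4.F1 [Finite V] {G : SimpleGraph V} {U : Set V} (h : I4 G (fun _ => 1) U)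
    {p q x x' : V} (hpq : G.Adj p q) (hxx : x ≠ x') (hpx : G.Adj p x) (hqx : G.Adj q x)
    (hpx' : G.Adj p x') (hqx' : G.Adj q x') : HasTOK4s G (fun _ => 1) := by
  classical
  obtain ⟨R, hR, hRw, hRs⟩ := h.odd_path hpq.ne hpx.ne hpx'.ne hqx.ne hqx'.ne hxx.symm.symm
    (h.edge_mem x p hpx.symm) (h.edge_mem x' p hpx'.symm)
  let b : Fin 3 → V := ![p, q, x]
  obtain ⟨P0, hP0, hP0w, hP0s⟩ := exists_edge_walk (fun _ => 1) hpx'.symm
  obtain ⟨P1, hP1, hP1w, hP1s⟩ := exists_edge_walk (fun _ => 1) hqx'.symm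
  have hP0m : ∀ z ∈ P0.support, z = x' ∨ z = p := by
    intro z hz
    rw [hP0s] at hz
    simpa using hz
  have hP1m : ∀ z ∈ P1.support, z = x' ∨ z = q := by
    intro z hz
    rw [hP1s] at hz
    simpa using hz
  have hRm : ∀ z ∈ R.reverse.support, z ≠ p ∧ z ≠ q := by
    intro z hz
    rw [Walk.support_reverse, List.mem_reverse] at hz
    exact hRs z hz
  have hex : ∃ P : ∀ i, G.Walk x' (b i), (∀ i, (P i).IsPath) ∧
      (∀ i, wt (fun _ => 1) (P i) = 1) ∧ (∀ z ∈ (P 0).support, z = x' ∨ z = p) ∧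
      (∀ z ∈ (P 1).support, z = x' ∨ z = q) ∧ (∀ z ∈ (P 2).support, z ≠ p ∧ z ≠ q) := by
    refine ⟨fun i => match i with
      | 0 => P0
      | 1 => P1
      | 2 => R.reverse, ?_, ?_, hP0m, hP1m, hRm⟩
    · intro i
      fin_cases i
      · exact hP0
      · exact hP1
      · exact hR.reverse
    · intro i
      fin_cases i
      · exact hP0w
      · exact hP1w
      · show wt (fun _ => 1) R.reverse = 1
        rw [wt_reverse, hRw]
  obtain ⟨P, g1, g2, g3, g4, g5⟩ := hex
  refine hasTOK4s_of_fan_triangle (w := x') (b := b) P g1 g2 ?_ ?_ ?_ ?_ ?_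
  · intro i j hij
    fin_cases i <;> fin_cases j <;>
      first
        | rfl
        | exact absurd hij hpq.ne
        | exact absurd hij hpq.ne.symm
        | exact absurd hij hpx.ne
        | exact absurd hij hpx.ne.symm
        | exact absurd hij hqx.ne
        | exact absurd hij hqx.ne.symm
  · intro i
    fin_cases i
    · exact hpx'.ne.symm
    · exact hqx'.ne.symm
    · exact hxx.symm
  · intro i j hij hj
    fin_cases i <;> fin_cases j
    · exact hij rfl
    · rcases g3 _ hj with h1 | h1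
      · exact hqx'.ne h1
      · exact hpq.ne h1.symm
    · rcases g3 _ hj with h1 | h1
      · exact hxx h1
      · exact hpx.ne h1.symm
    · rcases g4 _ hj with h1 | h1
      · exact hpx'.ne h1
      · exact hpq.ne h1
    · exact hij rfl
    · rcases g4 _ hj with h1 | h1
      · exact hxx h1
      · exact hqx.ne h1.symm
    · exact (g5 _ hj).1 rfl
    · exact (g5 _ hj).2 rfl
    · exact hij rfl
  · intro i j hij z hz hz'
    fin_cases i <;> fin_cases j
    · exact absurd rfl hij
    · rcases g3 _ hz with h1 | h1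
      · exact h1
      · rcases g4 _ hz' with h2 | h2
        · exact h2
        · exact absurd (h1.symm.trans h2) hpq.ne
    · rcases g3 _ hz with h1 | h1
      · exact h1
      · exact absurd h1 (g5 _ hz').1
    · rcases g4 _ hz with h1 | h1
      · exact h1
      · rcases g3 _ hz' with h2 | h2
        · exact h2
        · exact absurd (h2.symm.trans h1) hpq.ne
    · exact absurd rfl hij
    · rcases g4 _ hz with h1 | h1
      · exact h1
      · exact absurd h1 (g5 _ hz').2
    · rcases g3 _ hz' with h1 | h1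
      · exact h1
      · exact absurd h1 (g5 _ hz).1
    · rcases g4 _ hz' with h1 | h1
      · exact h1
      · exact absurd h1 (g5 _ hz).2
    · exact absurd rfl hij
  · intro i j hij
    refine ⟨?_, rfl⟩
    fin_cases i <;> fin_cases j <;>
      first
        | exact absurd rfl hij
        | exact hpq
        | exact hpq.symm
        | exact hpx
        | exact hpx.symm
        | exact hqx
        | exact hqx.symm

end Pool.Agent.Helper1.GL
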