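import Pool.Agent.Helper1.GL.Cut
import Pool.Agent.Helper1.TD.Local

/-!
# Global part: the theta gadget and the L1 gadget

`I4.T3`, `I4.TYPE1`, `I4.L1`: the global versions of the fields `T3`, `TYPE1`, `L1` of `Core`.
-/

set_option autoImplicit false
set_option synthInstance.maxSize 2000

namespace Pool.Agent.Helper1.GL

open SimpleGraph Pool.Agent.Helper57.TOK Pool.Agent.Helper57.TD Pool.Agent.Helper82.TK
  Pool.Agent.Helper1.TD

variable {V : Type*}

/-- Colouring transported along an injective map. -/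
noncomputable def kx {n : ℕ} (φ : Fin n → V) (κ0 : Fin n → ZMod 2) : V → ZMod 2 :=
  Function.extend φ κ0 0

lemma kx_apply {n : ℕ} {φ : Fin n → V} (hφ : Function.Injective φ) (κ0 : Fin n → ZMod 2)
    (i : Fin n) : kx φ κ0 (φ i) = κ0 i := hφ.extend_apply _ _ _

lemma proper_imG {n : ℕ} {K : SimpleGraph (Fin n)} {φ : Fin n → V} (hφ : Function.Injective φ)
    {κ0 : Fin n → ZMod 2} (hκ0 : ∀ x y, K.Adj x y → κ0 x + κ0 y = 1) :
    Proper (imG φ K) (kx φ κ0) := by
  rintro u v ⟨-, x, y, h1, rfl, rfl⟩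
  rw [kx_apply hφ, kx_apply hφ]
  exact hκ0 x y h1

lemma imG_adj {n : ℕ} {K : SimpleGraph (Fin n)} {φ : Fin n → V} (hφ : Function.Injective φ)
    {x y : Fin n} (h : K.Adj x y) : (imG φ K).Adj (φ x) (φ y) :=
  ⟨hφ.ne h.ne, x, y, h, rfl, rfl⟩

/-- A gadget from a concrete graph. -/
theorem gad_of_fin {n : ℕ} {K : SimpleGraph (Fin n)} {G : SimpleGraph V} {φ : Fin n → V}
    (hφ : Function.Injective φ) (hK : ∀ x y, K.Adj x y → G.Adj (φ x) (φ y))
    {κ0 : Fin n → ZMod 2} (hκ0 : ∀ x y, K.Adj x y → κ0 x + κ0 y = 1) {q0 : Fin 4 → Fin n}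
    (hq0 : Function.Injective q0) {v0 : Fin n} (hvq : ∀ i, q0 i ≠ v0) {F0 : Set (Fin n)}
    (hvF : v0 ∉ F0) (hqF : ∀ i, q0 i ∉ F0) (hcov : ∀ x, x ∈ F0 ∨ x = v0 ∨ ∃ i, q0 i = x)
    (hdeg : ∀ x, ∃ y, K.Adj x y)
    (hfull : ∀ x ∈ F0, ∀ y, G.Adj (φ x) y → ∃ z, K.Adj x z ∧ φ z = y)
    (E1 : ∀ i j k l : Fin 4, i ≠ j → i ≠ k → i ≠ l → j ≠ k → j ≠ l → k ≠ l →
      LocFr (imG φ K) (kx φ κ0) (φ '' F0) (insert (φ v0) (Set.range (φ ∘ q0)))
        (φ (q0 i)) (φ (q0 j)) (φ (q0 k)) (φ (q0 l)))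
    (E2 : ∀ i, ∃ j k, i ≠ j ∧ i ≠ k ∧ j ≠ k ∧
      LocFr (imG φ K) (kx φ κ0) (φ '' F0) (insert (φ v0) (Set.range (φ ∘ q0)))
        (φ v0) (φ (q0 i)) (φ (q0 j)) (φ (q0 k))) :
    Gad G (fun _ => 1) (imG φ K) (kx φ κ0) (φ '' F0) (φ ∘ q0) (φ v0) where
  le := by
    rintro x y ⟨-, x', y', h3, rfl, rfl⟩
    exact hK x' y' h3
  inj := hφ.comp hq0
  vq := fun i => hφ.ne (hvq i)
  vF := by
    rintro ⟨x, hx, hxv⟩
    exact hvF (hφ hxv ▸ hx)
  qF := by
    rintro i ⟨x, hx, hxv⟩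
    exact hqF i (hφ hxv ▸ hx)
  full := by
    rintro _ ⟨x, hx, rfl⟩ y hxy
    obtain ⟨z, h1, h2⟩ := hfull x hx y hxy
    rw [← h2]
    exact imG_adj hφ h1
  sub := by
    rintro x ⟨y, -, x', y', -, rfl, -⟩
    rcases hcov x' with h1 | h1 | ⟨i, h1⟩
    · exact Or.inl ⟨x', h1, rfl⟩
    · exact Or.inr (Or.inl (by rw [h1]))
    · exact Or.inr (Or.inr ⟨i, by rw [Function.comp_apply, h1]⟩)
  Fs := by
    rintro _ ⟨x, hx, rfl⟩
    obtain ⟨y, hy⟩ := hdeg x
    exact ⟨φ y, imG_adj hφ hy⟩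
  qs := by
    intro i
    obtain ⟨y, hy⟩ := hdeg (q0 i)
    exact ⟨φ y, imG_adj hφ hy⟩
  lab := fun x y hxy => (proper_imG hφ hκ0 x y hxy).symm
  E1 := E1
  E2 := E2

/-! ### The theta gadget -/

/-- The complete bipartite graph with poles 0 and 4 and middle vertices 1, 2, 3. -/
def TH5 : SimpleGraph (Fin 5) := ofList [(0, 1), (0, 2), (0, 3), (4, 1), (4, 2), (4, 3)]

instance : DecidableRel TH5.Adj := inferInstanceAs (DecidableRel (ofList _).Adj)

lemma tok_TH5 : HasTOK4s (frameG TH5 4 0 1 2) (c0 4 0 1 2 1 1) :=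
  HasTOK4s.of_lists ![0, 4, 1, 2]
    (sixLists [0, 4] [0, 1] [0, 2] [4, 1] [4, 2] [1, 2])
    (by decide) (by decide) (by decide)

/-- The theta gadget: apex `a`. -/
theorem theta_gad {G : SimpleGraph V} {a b y z1 z2 : V} (hab : a ≠ b) (h1 : y ≠ z1)
    (h2 : y ≠ z2) (h3 : z1 ≠ z2) (a1 : G.Adj a y) (a2 : G.Adj a z1) (a3 : G.Adj a z2)
    (b1 : G.Adj b y) (b2 : G.Adj b z1) (b3 : G.Adj b z2) :
    ∃ J κ, Gad G (fun _ => 1) J κ ∅ ![b, y, z1, z2] a ∧ κ b = κ a ∧ κ y = κ a + 1 ∧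
      κ z1 = κ a + 1 ∧ κ z2 = κ a + 1 := by
  let φ : Fin 5 → V := ![b, y, z1, z2, a]
  have hφ : Function.Injective φ := by
    intro x y hxy
    by_contra hne
    fin_cases x <;> fin_cases y <;>
      first
        | exact hne rfl
        | exact b1.ne hxy
        | exact b2.ne hxy
        | exact b3.ne hxy
        | exact hab hxy.symm
        | exact b1.ne hxy.symm
        | exact h1 hxy
        | exact h2 hxy
        | exact a1.ne hxy.symm
        | exact b2.ne hxy.symm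
        | exact h1 hxy.symm
        | exact h3 hxy
        | exact a2.ne hxy.symm
        | exact b3.ne hxy.symm
        | exact h2 hxy.symm
        | exact h3 hxy.symm
        | exact a3.ne hxy.symm
        | exact hab hxy
        | exact a1.ne hxy
        | exact a2.ne hxy
        | exact a3.ne hxy
  have hK : ∀ x y, TH5.Adj x y → G.Adj (φ x) (φ y) := by
    intro x y hxy
    fin_cases x <;> fin_cases y <;>
      first
        | exact absurd hxy (by decide)
        | exact b1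
        | exact b2
        | exact b3
        | exact a1
        | exact a2
        | exact a3
        | exact b1.symm
        | exact b2.symm
        | exact b3.symm
        | exact a1.symm
        | exact a2.symm
        | exact a3.symm
  let κ0 : Fin 5 → ZMod 2 := ![0, 1, 1, 1, 0]
  have hκ0 : ∀ x y, TH5.Adj x y → κ0 x + κ0 y = 1 := by decide
  have hprop : Proper (imG φ TH5) (kx φ κ0) := proper_imG hφ hκ0
  let q0 : Fin 4 → Fin 5 := ![0, 1, 2, 3]
  have hq : φ ∘ q0 = ![b, y, z1, z2] := by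
    funext i; fin_cases i <;> rfl
  have hF0 : φ '' (∅ : Set (Fin 5)) = ∅ := Set.image_empty _
  set Q : Set V := insert (φ 4) (Set.range (φ ∘ q0)) with hQ
  have hin : ∀ i, φ i ∈ (φ '' (∅ : Set (Fin 5))) ∪ Q := by
    intro i
    right
    have hr : ∀ j : Fin 4, φ (q0 j) ∈ Q := fun j => Or.inr ⟨j, rfl⟩
    fin_cases i
    · exact hr 0
    · exact hr 1
    · exact hr 2
    · exact hr 3
    · exact Or.inl rfl
  have adj : ∀ {x y : Fin 5}, TH5.Adj x y → (imG φ TH5).Adj (φ x) (φ y) :=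
    fun h => imG_adj hφ h
  have lt : ∀ (p r m1 m2 m3 : Fin 5), p ≠ r → m1 ≠ m2 → m1 ≠ m3 → m2 ≠ m3 →
      TH5.Adj p m1 → TH5.Adj p m2 → TH5.Adj p m3 → TH5.Adj r m1 → TH5.Adj r m2 →
      TH5.Adj r m3 → LocFr (imG φ TH5) (kx φ κ0) (φ '' ∅) Q (φ p) (φ m1) (φ m2) (φ m3) := by
    intro p r m1 m2 m3 hpr h12 h13 h23 p1 p2 p3 r1 r2 r3
    exact loc_theta hprop (hφ.ne hpr) (hφ.ne h12) (hφ.ne h13) (hφ.ne h23) (adj p1) (adj p2)
      (adj p3) (adj r1) (adj r2) (adj r3) (hin _) (hin _) (hin _) (hin _) (hin _)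
  have e01 := lt 0 4 1 2 3 (by decide) (by decide) (by decide) (by decide) (by decide)
    (by decide) (by decide) (by decide) (by decide) (by decide)
  have e02 := lt 0 4 2 1 3 (by decide) (by decide) (by decide) (by decide) (by decide)
    (by decide) (by decide) (by decide) (by decide) (by decide)
  have e03 := lt 0 4 3 1 2 (by decide) (by decide) (by decide) (by decide) (by decide)
    (by decide) (by decide) (by decide) (by decide) (by decide)
  have f1 := lt 4 0 1 2 3 (by decide) (by decide) (by decide) (by decide) (by decide)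
    (by decide) (by decide) (by decide) (by decide) (by decide)
  have f2 := lt 4 0 2 1 3 (by decide) (by decide) (by decide) (by decide) (by decide)
    (by decide) (by decide) (by decide) (by decide) (by decide)
  have f3 := lt 4 0 3 1 2 (by decide) (by decide) (by decide) (by decide) (by decide)
    (by decide) (by decide) (by decide) (by decide) (by decide)
  have f0 : LocFr (imG φ TH5) (kx φ κ0) (φ '' ∅) Q (φ 4) (φ 0) (φ 1) (φ 2) := by
    refine loc_of_fin (K := TH5) (κ0 := κ0) (a := 4) (b := 0) (u := 1) (v := 2)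
      hprop φ hφ (fun x y h => adj h) (by decide) (by decide) ?_ ?_ ?_ hin
    · unfold vl; rw [kx_apply hφ, kx_apply hφ]
    · unfold vl; rw [kx_apply hφ, kx_apply hφ]
    · exact Frame.of_c0 (by decide) (by decide) tok_TH5
  refine ⟨imG φ TH5, kx φ κ0, ?_, ?_, ?_, ?_, ?_⟩
  · rw [← hq, ← hF0]
    refine gad_of_fin (v0 := 4) (F0 := ∅) (q0 := q0) hφ hK hκ0 (by decide) (by decide)
      (Set.notMem_empty _) (fun _ => Set.notMem_empty _) ?_ (by decide) ?_ ?_ ?_
    · intro x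
      right
      revert x
      decide
    · intro x hx
      exact absurd hx (Set.notMem_empty _)
    · exact loc_of_three (q := fun i => φ (q0 i)) e01 e02 e03
    · intro i
      fin_cases i
      · exact ⟨1, 2, by decide, by decide, by decide, f0⟩
      · exact ⟨2, 3, by decide, by decide, by decide, f1⟩
      · exact ⟨1, 3, by decide, by decide, by decide, f2⟩
      · exact ⟨1, 2, by decide, by decide, by decide, f3⟩
  · show kx φ κ0 (φ 0) = kx φ κ0 (φ 4)
    rw [kx_apply hφ, kx_apply hφ]; rfl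
  · show kx φ κ0 (φ 1) = kx φ κ0 (φ 4) + 1
    rw [kx_apply hφ, kx_apply hφ]; decide
  · show kx φ κ0 (φ 2) = kx φ κ0 (φ 4) + 1
    rw [kx_apply hφ, kx_apply hφ]; decide
  · show kx φ κ0 (φ 3) = kx φ κ0 (φ 4) + 1
    rw [kx_apply hφ, kx_apply hφ]; decide

/-! ### The L1 gadget -/

lemma tok_L8_a : HasTOK4s (frameG L8 7 1 2 3) (c0 7 1 2 3 1 1) :=
  HasTOK4s.of_lists ![2, 3, 5, 6]
    (sixLists [2, 3] [2, 5] [2, 6] [3, 5] [3, 6] [5, 1, 7, 6])
    (by decide) (by decide) (by decide)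

lemma tok_L8_c : HasTOK4s (frameG L8 7 0 2 3) (c0 7 0 2 3 1 1) :=
  HasTOK4s.of_lists ![2, 3, 5, 6]
    (sixLists [2, 3] [2, 5] [2, 6] [3, 5] [3, 6] [5, 1, 4, 0, 7, 6])
    (by decide) (by decide) (by decide)

lemma tok_L8_e : HasTOK4s (frameG L8 7 2 0 3) (c0 7 2 0 3 1 1) :=
  HasTOK4s.of_lists ![2, 4, 6, 7]
    (sixLists [2, 5, 1, 4] [2, 6] [2, 7] [4, 0, 3, 6] [4, 7] [6, 7])
    (by decide) (by decide) (by decide)

lemma tok_L8_g : HasTOK4s (frameG L8 7 3 0 2) (c0 7 3 0 2 1 1) :=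
  HasTOK4s.of_lists ![3, 4, 6, 7]
    (sixLists [3, 5, 1, 4] [3, 6] [3, 7] [4, 0, 2, 6] [4, 7] [6, 7])
    (by decide) (by decide) (by decide)

/-- The L1 gadget: apex `b`, inner vertices `y`, `w1`, `w2`. -/
theorem L1_gad {G : SimpleGraph V} {w1 w2 y a b c e g : V}
    (hφ : Function.Injective ![c, a, e, g, y, w1, w2, b])
    (n1 : G.neighborSet w1 = {a, e, g}) (n2 : G.neighborSet w2 = {b, e, g})
    (ny : G.neighborSet y = {a, b, c}) :
    ∃ J κ, Gad G (fun _ => 1) J κ {y, w1, w2} ![c, a, e, g] b := by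
  let φ : Fin 8 → V := ![c, a, e, g, y, w1, w2, b]
  have hφ : Function.Injective φ := hφ
  have m1 : ∀ x, G.Adj w1 x ↔ x = a ∨ x = e ∨ x = g := by
    intro x
    have : x ∈ G.neighborSet w1 ↔ x ∈ ({a, e, g} : Set V) := by rw [n1]
    exact this
  have m2 : ∀ x, G.Adj w2 x ↔ x = b ∨ x = e ∨ x = g := by
    intro x
    have : x ∈ G.neighborSet w2 ↔ x ∈ ({b, e, g} : Set V) := by rw [n2]
    exact this
  have my : ∀ x, G.Adj y x ↔ x = a ∨ x = b ∨ x = c := by
    intro x
    have : x ∈ G.neighborSet y ↔ x ∈ ({a, b, c} : Set V) := by rw [ny]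
    exact this
  have w1a : G.Adj w1 a := (m1 a).2 (Or.inl rfl)
  have w1e : G.Adj w1 e := (m1 e).2 (Or.inr (Or.inl rfl))
  have w1g : G.Adj w1 g := (m1 g).2 (Or.inr (Or.inr rfl))
  have w2b : G.Adj w2 b := (m2 b).2 (Or.inl rfl)
  have w2e : G.Adj w2 e := (m2 e).2 (Or.inr (Or.inl rfl))
  have w2g : G.Adj w2 g := (m2 g).2 (Or.inr (Or.inr rfl))
  have ya : G.Adj y a := (my a).2 (Or.inl rfl)
  have yb : G.Adj y b := (my b).2 (Or.inr (Or.inl rfl))
  have yc : G.Adj y c := (my c).2 (Or.inr (Or.inr rfl))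
  have hK : ∀ x z, L8.Adj x z → G.Adj (φ x) (φ z) := by
    intro x z hxy
    fin_cases x <;> fin_cases z <;>
      first
        | exact absurd hxy (by decide)
        | exact ya
        | exact yb
        | exact yc
        | exact w1a
        | exact w1e
        | exact w1g
        | exact w2b
        | exact w2e
        | exact w2g
        | exact ya.symm
        | exact yb.symm
        | exact yc.symm
        | exact w1a.symm
        | exact w1e.symm
        | exact w1g.symm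
        | exact w2b.symm
        | exact w2e.symm
        | exact w2g.symm
  let κ0 : Fin 8 → ZMod 2 := ![0, 0, 0, 0, 1, 1, 1, 0]
  have hκ0 : ∀ x y, L8.Adj x y → κ0 x + κ0 y = 1 := by decide
  have hprop : Proper (imG φ L8) (kx φ κ0) := proper_imG hφ hκ0
  let q0 : Fin 4 → Fin 8 := ![0, 1, 2, 3]
  let F0 : Set (Fin 8) := {4, 5, 6}
  have hq : φ ∘ q0 = ![c, a, e, g] := by
    funext i; fin_cases i <;> rfl
  have hF0 : φ '' F0 = {y, w1, w2} := by
    ext x
    constructor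
    · rintro ⟨i, (rfl | rfl | rfl), rfl⟩
      · exact Or.inl rfl
      · exact Or.inr (Or.inl rfl)
      · exact Or.inr (Or.inr rfl)
    · rintro (rfl | rfl | rfl)
      · exact ⟨4, Or.inl rfl, rfl⟩
      · exact ⟨5, Or.inr (Or.inl rfl), rfl⟩
      · exact ⟨6, Or.inr (Or.inr rfl), rfl⟩
  set Q : Set V := insert (φ 7) (Set.range (φ ∘ q0)) with hQ
  have hin : ∀ i, φ i ∈ (φ '' F0) ∪ Q := by
    intro i
    have hr : ∀ j : Fin 4, φ (q0 j) ∈ Q := fun j => Or.inr ⟨j, rfl⟩
    fin_cases i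
    · exact Or.inr (hr 0)
    · exact Or.inr (hr 1)
    · exact Or.inr (hr 2)
    · exact Or.inr (hr 3)
    · exact Or.inl ⟨4, Or.inl rfl, rfl⟩
    · exact Or.inl ⟨5, Or.inr (Or.inl rfl), rfl⟩
    · exact Or.inl ⟨6, Or.inr (Or.inr rfl), rfl⟩
    · exact Or.inr (Or.inl rfl)
  have lf : ∀ (s t u v : Fin 8), ¬ L8.Adj s t → ¬ L8.Adj u v →
      HasTOK4s (frameG L8 s t u v) (c0 s t u v (vl κ0 s t) (vl κ0 u v)) →
      LocFr (imG φ L8) (kx φ κ0) (φ '' F0) Q (φ s) (φ t) (φ u) (φ v) := by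
    intro s t u v h1 h2 h3
    refine loc_of_fin (K := L8) (κ0 := κ0) (a := s) (b := t) (u := u) (v := v)
      hprop φ hφ (fun x y h => imG_adj hφ h) h1 h2 ?_ ?_ (Frame.of_c0 h1 h2 h3) hin
    · unfold vl; rw [kx_apply hφ, kx_apply hφ]
    · unfold vl; rw [kx_apply hφ, kx_apply hφ]
  have e1 := lf 0 1 2 3 (by decide) (by decide) tok_L8_1
  have e2 := lf 0 2 1 3 (by decide) (by decide) tok_L8_2
  have e3 := lf 0 3 1 2 (by decide) (by decide) tok_L8_3
  have f0 := lf 7 0 2 3 (by decide) (by decide) tok_L8_c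
  have f1 := lf 7 1 2 3 (by decide) (by decide) tok_L8_a
  have f2 := lf 7 2 0 3 (by decide) (by decide) tok_L8_e
  have f3 := lf 7 3 0 2 (by decide) (by decide) tok_L8_g
  refine ⟨imG φ L8, kx φ κ0, ?_⟩
  rw [← hq, ← hF0]
  refine gad_of_fin (v0 := 7) (F0 := F0) (q0 := q0) hφ hK hκ0 (by decide) (by decide)
    ?_ ?_ ?_ (by decide) ?_ ?_ ?_
  · rintro (h | h | h) <;> exact absurd h (by decide)
  · intro i
    fin_cases i <;> rintro (h | h | h) <;> exact absurd h (by decide)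
  · intro x
    fin_cases x
    · exact Or.inr (Or.inr ⟨0, rfl⟩)
    · exact Or.inr (Or.inr ⟨1, rfl⟩)
    · exact Or.inr (Or.inr ⟨2, rfl⟩)
    · exact Or.inr (Or.inr ⟨3, rfl⟩)
    · exact Or.inl (Or.inl rfl)
    · exact Or.inl (Or.inr (Or.inl rfl))
    · exact Or.inl (Or.inr (Or.inr rfl))
    · exact Or.inr (Or.inl rfl)
  · rintro x (rfl | rfl | rfl) z hz
    · have hz' : G.Adj y z := hz
      rcases (my z).1 hz' with rfl | rfl | rfl
      · exact ⟨1, by decide, rfl⟩
      · exact ⟨7, by decide, rfl⟩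
      · exact ⟨0, by decide, rfl⟩
    · have hz' : G.Adj w1 z := hz
      rcases (m1 z).1 hz' with rfl | rfl | rfl
      · exact ⟨1, by decide, rfl⟩
      · exact ⟨2, by decide, rfl⟩
      · exact ⟨3, by decide, rfl⟩
    · have hz' : G.Adj w2 z := hz
      rcases (m2 z).1 hz' with rfl | rfl | rfl
      · exact ⟨7, by decide, rfl⟩
      · exact ⟨2, by decide, rfl⟩
      · exact ⟨3, by decide, rfl⟩
  · exact loc_of_three (q := fun i => φ (q0 i)) e1 e2 e3
  · intro i
    fin_cases i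
    · exact ⟨2, 3, by decide, by decide, by decide, f0⟩
    · exact ⟨2, 3, by decide, by decide, by decide, f1⟩
    · exact ⟨0, 3, by decide, by decide, by decide, f2⟩
    · exact ⟨0, 2, by decide, by decide, by decide, f3⟩

/-! ### The global lemmas -/

lemma GCut.D_nonempty [Finite V] {G : SimpleGraph V} {c : Sym2 V → ZMod 2} {U F D M : Set V}
    {κ κ' : V → ZMod 2} {q : Fin 4 → V} {v : V} (hq : Function.Injective q)
    (hc : GCut G c U κ F q v D M κ') : ∃ i, q i ∈ D := by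
  by_contra hcon
  push Not at hcon
  have h1 : Set.range q ⊆ M := by
    rintro _ ⟨i, rfl⟩
    exact (hc.cover i).resolve_left (hcon i)
  have h2 := Set.ncard_le_ncard h1 (Set.toFinite _)
  have h3 : (Set.range q).ncard = 4 := by
    rw [← Set.image_univ, Set.ncard_image_of_injective _ hq, Set.ncard_univ]
    simp
  have := hc.M3
  omega

/-- The boundary of a balanced cut with at least two inner vertices. -/
lemma GCut.boundary [Finite V] {G : SimpleGraph V} {c : Sym2 V → ZMod 2} {U F D M : Set V}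
    {κ κ' : V → ZMod 2} {q : Fin 4 → V} {v : V} (h : I4 G c U) (hFU : F ⊆ U)
    (hc : GCut G c U κ F q v D M κ') (hb : BalOn G c (D ∪ F) κ') (h2 : 2 ≤ (D ∪ F).ncard) :
    (Nb G (D ∪ F)).ncard = 4 ∧ v ∈ Nb G (D ∪ F) ∧ M ⊆ Nb G (D ∪ F) := by
  have hsub : Nb G (D ∪ F) ⊆ insert v M := by
    rintro y ⟨hy, x, hx, hxy⟩
    rcases hc.nb x hx y hxy with (h3 | h3 | h3) | h3
    · exact absurd (Or.inl h3) hy
    · exact absurd (Or.inr h3) hy
    · exact Or.inr h3
    · exact Or.inl h3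
  have h4 : 4 ≤ (Nb G (D ∪ F)).ncard := by
    by_contra hlt
    exact h.no_bal3 (Set.union_subset hc.DU hFU) h2 (by omega) hb
  have h5 := Set.ncard_insert_le v M
  have h6 := hc.M3
  have h7 : Nb G (D ∪ F) = insert v M :=
    Set.eq_of_subset_of_ncard_le hsub (by omega) (Set.toFinite _)
  refine ⟨?_, ?_, ?_⟩
  · have := Set.ncard_le_ncard hsub (Set.toFinite _)
    omega
  · rw [h7]; exact Or.inl rfl
  · rw [h7]; exact Set.subset_insert _ _

/-- Global T3: the neighbourhood of a cubic vertex is not contained in another one. -/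
theorem I4.T3 [Finite V] {G : SimpleGraph V} {U : Set V} (h : I4 G (fun _ => 1) U) {c d : V}
    (hcd : c ≠ d) (h3 : (G.neighborSet d).ncard = 3)
    (hsub : G.neighborSet d ⊆ G.neighborSet c) : HasTOK4s G (fun _ => 1) := by
  classical
  obtain ⟨y, z1, z2, h12, h13, h23, hN⟩ := Set.ncard_eq_three.1 h3
  have hd : ∀ x, x ∈ ({y, z1, z2} : Set V) → G.Adj d x ∧ G.Adj c x := by
    intro x hx
    rw [← hN] at hx
    exact ⟨hx, hsub hx⟩
  have d1 := hd y (by simp)
  have d2 := hd z1 (by simp)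
  have d3 := hd z2 (by simp)
  obtain ⟨J, κ, hg, k1, k2, k3, k4⟩ := theta_gad (a := d) (b := c) hcd.symm h12 h13 h23 d1.1 d2.1
    d3.1 d1.2 d2.2 d3.2
  rcases hg.balanced_cut h with ht | ⟨D, M, κ', hc, hb⟩
  · exact ht
  exfalso
  have hcov := hc.cover
  have hag := hc.agq
  obtain ⟨i, hi⟩ := hc.D_nonempty hg.inj
  have hnd : ∀ x, G.Adj d x → (x ∈ D ∨ x ∈ M) ∧ κ' x = κ x ∧ κ x = κ d + 1 := by
    intro x hx
    have hx' : x ∈ ({y, z1, z2} : Set V) := by rw [← hN]; exact hx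
    rcases hx' with rfl | rfl | rfl
    · exact ⟨hcov 1, hag 1, k2⟩
    · exact ⟨hcov 2, hag 2, k3⟩
    · exact ⟨hcov 3, hag 3, k4⟩
  have hNb : Nb G (insert d D) ⊆ M := by
    rintro x ⟨hx, w, hw, hwx⟩
    have hxD : x ∉ D := fun h5 => hx (Or.inr h5)
    have hxd : x ≠ d := fun h5 => hx (Or.inl h5)
    rcases hw with rfl | hw
    · exact (hnd x hwx).1.resolve_left hxD
    · rcases hc.nb w (Or.inl hw) x hwx with (h5 | h5 | h5) | h5
      · exact absurd h5 hxD
      · exact absurd h5 (Set.notMem_empty _)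
      · exact h5
      · exact absurd h5 hxd
  have hdU : d ∈ U := h.edge_mem d y d1.1
  refine h.no_bal3 (Y := insert d D) (κ := κ') ?_ ?_ ?_ ?_
  · rintro x (rfl | hx)
    · exact hdU
    · exact hc.DU hx
  · exact two_le_ncard_of (Or.inl rfl) (Or.inr hi) (fun hh => hc.vD (hh ▸ hi))
  · exact (Set.ncard_le_ncard hNb (Set.toFinite _)).trans hc.M3
  · intro u w hu huw
    rcases hu with rfl | hu
    · obtain ⟨-, h5, h6⟩ := hnd w huw
      rw [hc.agv, h5, h6]
      have : ∀ a : ZMod 2, (1 : ZMod 2) = a + (a + 1) := by decide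
      exact this _
    · exact hb u w (Or.inl hu) huw

/-- Global TYPE1: four-cycle with a chord path; either a TOK4 or a balanced four-set with the
pole `a` in its boundary. -/
theorem I4.TYPE1 [Finite V] {G : SimpleGraph V} {U : Set V} (h : I4 G (fun _ => 1) U)
    {a b y z1 z2 : V} (hab : a ≠ b) (h1 : y ≠ z1) (h2 : y ≠ z2) (h3 : z1 ≠ z2)
    (a1 : G.Adj a y) (a2 : G.Adj a z1) (a3 : G.Adj a z2) (b1 : G.Adj b y) (b2 : G.Adj b z1)
    (b3 : G.Adj b z2) :
    HasTOK4s G (fun _ => 1) ∨ ∃ D ⊆ U, ∃ κ, BalOn G (fun _ => 1) D κ ∧ a ∉ D ∧ 2 ≤ D.ncard ∧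
      (Nb G D).ncard = 4 ∧ a ∈ Nb G D ∧ b ∈ D ∪ Nb G D ∧ y ∈ D ∪ Nb G D ∧ z1 ∈ D ∪ Nb G D ∧
      z2 ∈ D ∪ Nb G D := by
  classical
  obtain ⟨J, κ, hg, k1, k2, k3, k4⟩ := theta_gad (a := a) (b := b) hab h1 h2 h3 a1 a2 a3 b1 b2 b3
  rcases hg.balanced_cut h with ht | ⟨D, M, κ', hc, hb⟩
  · exact Or.inl ht
  obtain ⟨i, hi⟩ := hc.D_nonempty hg.inj
  rw [Set.union_empty] at hb
  by_cases hD2 : 2 ≤ D.ncard
  · right
    obtain ⟨g1, g2, g3⟩ := hc.boundary h (Set.empty_subset _) (by rwa [Set.union_empty])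
      (by rwa [Set.union_empty])
    rw [Set.union_empty] at g1 g2 g3
    have hcov : ∀ i, ![b, y, z1, z2] i ∈ D ∪ Nb G D := by
      intro i
      rcases hc.cover i with h5 | h5
      · exact Or.inl h5
      · exact Or.inr (g3 h5)
    exact ⟨D, hc.DU, κ', hb, hc.vD, hD2, g1, g2, hcov 0, hcov 1, hcov 2, hcov 3⟩
  · -- a single inner vertex
    have hD1 : D = {![b, y, z1, z2] i} := by
      apply (Set.eq_of_subset_of_ncard_le _ _ (Set.toFinite _)).symm
      · rintro x rfl; exact hi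
      · rw [Set.ncard_singleton]; omega
    set w : V := ![b, y, z1, z2] i with hw
    have hMsub : ∀ j, j ≠ i → ![b, y, z1, z2] j ∈ M := by
      intro j hj
      rcases hc.cover j with h5 | h5
      · rw [hD1] at h5
        exact absurd (hg.inj h5) hj
      · exact h5
    have hrange : M ⊆ Set.range ![b, y, z1, z2] := by
      have h5 : (Set.range ![b, y, z1, z2]) \ {w} ⊆ M := by
        rintro x ⟨⟨j, rfl⟩, hx⟩
        exact hMsub j (fun hh => hx (by rw [hh]; rfl))
      have h6 : ((Set.range ![b, y, z1, z2]) \ {w}).ncard = 3 := by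
        have hwr : w ∈ Set.range ![b, y, z1, z2] := ⟨i, rfl⟩
        rw [Set.ncard_sdiff_singleton_of_mem hwr, hg.A4]
      have h7 : (Set.range ![b, y, z1, z2]) \ {w} = M :=
        Set.eq_of_subset_of_ncard_le h5 (by rw [h6]; exact hc.M3) (Set.toFinite _)
      rw [← h7]
      exact Set.sdiff_subset
    have hwn : ∀ x, G.Adj w x → (x = b ∨ x = y ∨ x = z1 ∨ x = z2 ∨ x = a) ∧ κ' w ≠ κ' x := by
      intro x hx
      have h5 := hb w x hi hx
      refine ⟨?_, fun hh => ?_⟩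
      · rcases hc.nb w (Or.inl hi) x hx with (h6 | h6 | h6) | h6
        · rw [hD1] at h6
          exact absurd h6 hx.ne.symm
        · exact absurd h6 (Set.notMem_empty _)
        · obtain ⟨j, rfl⟩ := hrange h6
          fin_cases j
          · exact Or.inl rfl
          · exact Or.inr (Or.inl rfl)
          · exact Or.inr (Or.inr (Or.inl rfl))
          · exact Or.inr (Or.inr (Or.inr (Or.inl rfl)))
        · exact Or.inr (Or.inr (Or.inr (Or.inr h6)))
      · rw [hh, CharTwo.add_self_eq_zero] at h5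
        exact absurd h5 (one_ne_zero (α := ZMod 2))
    have kb : κ' b = κ a := (hc.agq 0).trans k1
    have ky : κ' y = κ a + 1 := (hc.agq 1).trans k2
    have kz1 : κ' z1 = κ a + 1 := (hc.agq 2).trans k3
    have kz2 : κ' z2 = κ a + 1 := (hc.agq 3).trans k4
    have ka : κ' a = κ a := hc.agv
    have hmid : κ' w = κ a + 1 → False := by
      intro hkw
      have hsub : G.neighborSet w ⊆ {a, b} := by
        intro x hx
        obtain ⟨h5, h6⟩ := hwn x hx
        rw [hkw] at h6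
        rcases h5 with h5 | h5 | h5 | h5 | h5
        · exact Or.inr h5
        · rw [h5, ky] at h6; exact absurd rfl h6
        · rw [h5, kz1] at h6; exact absurd rfl h6
        · rw [h5, kz2] at h6; exact absurd rfl h6
        · exact Or.inl h5
      have h5 := (Set.ncard_le_ncard hsub (Set.toFinite _)).trans (ncard_pair_le' _ _)
      have h6 := h.deg3 w (hc.DU hi)
      omega
    have hwcase : w = b ∨ w = y ∨ w = z1 ∨ w = z2 := by
      rw [hw]
      fin_cases i
      · exact Or.inl rfl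
      · exact Or.inr (Or.inl rfl)
      · exact Or.inr (Or.inr (Or.inl rfl))
      · exact Or.inr (Or.inr (Or.inr rfl))
    rcases hwcase with h5 | h5 | h5 | h5
    · left
      have hsub : G.neighborSet b ⊆ {y, z1, z2} := by
        intro x hx
        have hx' : G.Adj w x := by rw [h5]; exact hx
        obtain ⟨h6, h7⟩ := hwn x hx'
        rcases h6 with h6 | h6 | h6 | h6 | h6
        · exact absurd (show G.Adj b b by rw [h6] at hx; exact hx) (G.loopless.irrefl b)
        · exact Or.inl h6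
        · exact Or.inr (Or.inl h6)
        · exact Or.inr (Or.inr h6)
        · rw [h6, h5, kb, ka] at h7
          exact absurd rfl h7
      have hbU : b ∈ U := h.edge_mem b y b1
      refine h.T3 (c := a) (d := b) hab ?_ ?_
      · have h6 := h.deg3 b hbU
        have h7 := three_sub hsub
        omega
      · intro x hx
        rcases hsub hx with rfl | rfl | rfl
        · exact a1
        · exact a2
        · exact a3
    · exact absurd (by rw [h5]; exact ky) hmid
    · exact absurd (by rw [h5]; exact kz1) hmid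
    · exact absurd (by rw [h5]; exact kz2) hmid

/-- Global L1 lemma. -/
theorem I4.L1 [Finite V] {G : SimpleGraph V} {U : Set V} (h : I4 G (fun _ => 1) U)
    {w1 w2 y a b c e g : V} (hφ : Function.Injective ![c, a, e, g, y, w1, w2, b])
    (n1 : G.neighborSet w1 = {a, e, g}) (n2 : G.neighborSet w2 = {b, e, g})
    (ny : G.neighborSet y = {a, b, c}) :
    HasTOK4s G (fun _ => 1) ∨ ∃ D ⊆ U, ∃ κ, BalOn G (fun _ => 1) D κ ∧ y ∈ D ∧ w1 ∈ D ∧
      w2 ∈ D ∧ b ∈ Nb G D ∧ (Nb G D).ncard = 4 := by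
  classical
  obtain ⟨J, κ, hg⟩ := L1_gad hφ n1 n2 ny
  rcases hg.balanced_cut h with ht | ⟨D, M, κ', hc, hb⟩
  · exact Or.inl ht
  right
  have hyF : y ∈ D ∪ {y, w1, w2} := Or.inr (Or.inl rfl)
  have hw1F : w1 ∈ D ∪ {y, w1, w2} := Or.inr (Or.inr (Or.inl rfl))
  have hw2F : w2 ∈ D ∪ {y, w1, w2} := Or.inr (Or.inr (Or.inr rfl))
  have hww : w1 ≠ w2 := fun hh => absurd (hφ (show ![c, a, e, g, y, w1, w2, b] 5 =
    ![c, a, e, g, y, w1, w2, b] 6 from hh)) (by decide)
  obtain ⟨g1, g2, -⟩ := hc.boundary h (hg.FU h) hb (two_le_ncard_of hw1F hw2F hww)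
  exact ⟨D ∪ {y, w1, w2}, Set.union_subset hc.DU (hg.FU h), κ', hb, hyF, hw1F, hw2F, g2, g1⟩

end Pool.Agent.Helper1.GL
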