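import Pool.Agent.Helper1.GL.Gadgets
import Pool.Agent.Helper57.TOK.Merge

/-!
# Global part: gadgets in the quotient where two poles are identified

The packing theorem is applied in `G / (a = b)`. The result is a TOK4 or a balanced four-set with
both poles in its boundary.
-/

set_option autoImplicit false
set_option synthInstance.maxSize 2000

namespace Pool.Agent.Helper1.GL

open SimpleGraph Pool.Agent.Helper57.TOK Pool.Agent.Helper57.TD Pool.Agent.Helper82.TK
  Pool.Agent.Helper1.TD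

variable {V : Type*}

/-- A gadget with the poles `q 0` and `b`. -/
structure QGad (G : SimpleGraph V) (J : SimpleGraph V) (κ : V → ZMod 2)
    (F : Set V) (q : Fin 4 → V) (b : V) : Prop where
  le : J ≤ G
  inj : Function.Injective q
  bq : ∀ i, q i ≠ b
  bF : b ∉ F
  qF : ∀ i, q i ∉ F
  full : ∀ x ∈ F, ∀ y, G.Adj x y → J.Adj x y
  sub : supp J ⊆ F ∪ insert b (Set.range q)
  Fs : F ⊆ supp J
  qs : ∀ i, q i ∈ supp J
  bs : b ∈ supp J
  nab : ¬ G.Adj (q 0) b
  lab : ∀ x y, J.Adj x y → 1 = κ x + κ y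
  kab : κ b = κ (q 0)
  E1 : ∀ j k l : Fin 4, 0 ≠ j → 0 ≠ k → 0 ≠ l → j ≠ k → j ≠ l → k ≠ l →
    LocFr J κ F (insert b (Set.range q)) (q 0) (q j) (q k) (q l)
  E2 : ∀ j k l : Fin 4, 0 ≠ j → 0 ≠ k → 0 ≠ l → j ≠ k → j ≠ l → k ≠ l →
    LocFr J κ F (insert b (Set.range q)) b (q j) (q k) (q l)

/-- The obstruction with one deleted vertex and a doubled vertex is impossible. -/
theorem I4.obs_falseQ [Finite V] {G : SimpleGraph V} {U : Set V}
    (h : I4 G (fun _ => 1) U) {p a b : V} {D A1 : Set V} {κ ρ : V → ZMod 2}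
    (hab : ρ a = ρ b) (haU : a ∈ U) (haA : a ∈ A1) (hap : a ≠ p)
    (hD1 : ∀ x ∈ D, ∀ y, G.Adj x y → y ∈ D ∨ y = p ∨ y ∈ A1)
    (hD2 : ∀ x ∈ D, ∀ y ∈ D, G.Adj x y → 1 = κ x + κ y)
    (hD3 : ∀ x ∈ D, ∀ y ∈ A1, y ∉ D → y ≠ p → G.Adj x y → 1 = κ x + ρ y)
    (hAA : ∀ x ∈ A1, ∀ y ∈ A1, x ∉ D → y ∉ D → x ≠ p → y ≠ p → G.Adj x y → 1 = ρ x + ρ y)
    (hwalk : ∀ u ∈ A1, ∀ w ∈ A1, u ≠ w → ¬ (u = a ∧ w = b) → ¬ (u = b ∧ w = a) → u ∉ D →
      w ∉ D → u ≠ p → w ≠ p → ∀ u' w', G.Adj u u' → G.Adj w w' → ∀ r : G.Walk u' w',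
      (∀ x ∈ r.support, x ∉ A1 ∧ x ∉ D ∧ x ≠ p) → False)
    {e1 e2 : V} (h12 : e1 ≠ e2)
    (he1 : e1 ∈ U ∧ (e1 ∈ D ∨ e1 ∈ A1) ∧ e1 ≠ p ∧ e1 ≠ a ∧ e1 ≠ b)
    (he2 : e2 ∈ U ∧ (e2 ∈ D ∨ e2 ∈ A1) ∧ e2 ≠ p ∧ e2 ≠ a ∧ e2 ≠ b) : False := by
  classical
  have hDadj : ∀ x y, x ∉ A1 → x ∉ D → x ≠ p → G.Adj x y → y ∉ D := by
    intro x y hx hxD hx1 hxy hyD
    rcases hD1 y hyD x hxy.symm with h1 | h1 | h1
    · exact hxD h1
    · exact hx1 h1
    · exact hx h1
  have huniq : ∀ x y y', x ∉ A1 → x ∉ D → x ≠ p → y ∈ A1 → y ≠ p →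
      y' ∈ A1 → y' ≠ p → G.Adj x y → G.Adj x y' → ρ y = ρ y' := by
    intro x y y' hx hxD hx1 hy hy1 hy' hy1' hxy hxy'
    by_cases hne : y = y'
    · rw [hne]
    by_cases c1 : y = a ∧ y' = b
    · rw [c1.1, c1.2, hab]
    by_cases c2 : y = b ∧ y' = a
    · rw [c2.1, c2.2, hab]
    exfalso
    refine hwalk y hy y' hy' hne c1 c2 (hDadj x y hx hxD hx1 hxy) (hDadj x y' hx hxD hx1 hxy')
      hy1 hy1' x x hxy.symm hxy'.symm Walk.nil ?_
    intro z hz
    simp only [Walk.support_nil, List.mem_cons, List.not_mem_nil, or_false] at hz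
    rw [hz]
    exact ⟨hx, hxD, hx1⟩
  set S : Set V := A1 ∪ D ∪ {p} with hS
  have hSn : ∀ z, z ∉ S → z ∉ A1 ∧ z ∉ D ∧ z ≠ p := by
    intro z hz
    simp only [hS, Set.mem_union, Set.mem_singleton_iff, not_or] at hz
    exact ⟨hz.1.1, hz.1.2, hz.2⟩
  have hSn' : ∀ z, z ∉ A1 → z ∉ D → z ≠ p → z ∉ S := by
    intro z h1 h2 h3
    simp only [hS, Set.mem_union, Set.mem_singleton_iff, not_or]
    exact ⟨⟨h1, h2⟩, h3⟩
  have hout : ∀ x y, x ∉ A1 → x ∉ D → x ≠ p → y ∉ A1 → y ≠ p → ¬ G.Adj x y := by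
    intro x y hx hxD hx1 hy hy1 hxy
    have hyD := hDadj x y hx hxD hx1 hxy
    set C : Set V := Reach G {x} S with hC
    have hxC : x ∈ C := reach_of_mem rfl (hSn' x hx hxD hx1)
    have hyC : y ∈ C := reach_adj hxC hxy (hSn' y hy hyD hy1)
    have hCS : ∀ z ∈ C, z ∉ A1 ∧ z ∉ D ∧ z ≠ p := fun z hz => hSn z (not_mem_of_reach hz)
    have hCU : C ⊆ U := by
      rintro z ⟨s, hs, r, hr⟩
      rw [Set.mem_singleton_iff] at hs
      subst hs
      by_cases haz : s = z
      · subst haz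
        exact h.edge_mem _ _ hxy
      · obtain ⟨w, hw, -⟩ := exists_last_edge r haz
        exact h.edge_mem _ _ hw.symm
    have hNC : ∀ w ∈ Nb G C, w = p ∨ (w ∈ A1 ∧ w ∉ D ∧ w ≠ p) := by
      intro w hw
      by_cases h1 : w = p
      · exact Or.inl h1
      right
      obtain ⟨hwC, z, hz, hzw⟩ := hw
      have hz' := hCS z hz
      have hwD := hDadj z w hz'.1 hz'.2.1 hz'.2.2 hzw
      refine ⟨?_, hwD, h1⟩
      by_contra hwA
      exact hwC (reach_adj hz hzw (hSn' w hwA hwD h1))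
    have huq : ∀ w ∈ Nb G C, ∀ w' ∈ Nb G C, w ≠ p → w' ≠ p → w ≠ w' →
        (w = a ∧ w' = b) ∨ (w = b ∧ w' = a) := by
      intro w hw w' hw' h1 h3 hne
      by_contra hcon
      rw [not_or] at hcon
      rcases hNC w hw with h5 | h5
      · exact h1 h5
      rcases hNC w' hw' with h6 | h6
      · exact h3 h6
      obtain ⟨-, u', ⟨s, hs, r, hr⟩, huu⟩ := hw
      obtain ⟨-, w'', ⟨t, ht, r', hr'⟩, hww⟩ := hw'
      rw [Set.mem_singleton_iff] at hs ht
      subst hs
      subst ht
      refine hwalk w h5.1 w' h6.1 hne hcon.1 hcon.2 h5.2.1 h6.2.1 h1 h3 u' w'' huu.symm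
        hww.symm (r.reverse.append r') ?_
      intro z hz
      rw [Walk.mem_support_append_iff, Walk.support_reverse, List.mem_reverse] at hz
      rcases hz with hz | hz
      · exact hSn z (hr z hz)
      · exact hSn z (hr' z hz)
    have hNw : ∀ w ∈ Nb G C, w ≠ p → w ≠ a → w ≠ b → ∀ z ∈ Nb G C, z = p ∨ z = w := by
      intro w hw h1 h2 h3 z hz
      by_cases h4 : z = p
      · exact Or.inl h4
      right
      by_contra hne
      rcases huq z hz w hw h4 h1 hne with h5 | h5
      · exact h3 h5.2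
      · exact h2 h5.2
    have hN3 : (Nb G C).ncard ≤ 3 := by
      by_cases hex : ∃ w ∈ Nb G C, w ≠ p ∧ w ≠ a ∧ w ≠ b
      · obtain ⟨w, hw, h1, h2, h3⟩ := hex
        apply three_sub (a := p) (b := w) (d := w)
        intro z hz
        rcases hNw w hw h1 h2 h3 z hz with h4 | h4
        · exact Or.inl h4
        · exact Or.inr (Or.inl h4)
      · push Not at hex
        apply three_sub (a := p) (b := a) (d := b)
        intro z hz
        by_cases h3 : z = p
        · exact Or.inl h3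
        by_cases h4 : z = a
        · exact Or.inr (Or.inl h4)
        · exact Or.inr (Or.inr (hex z hz h3 h4))
    have hrest := h.cut C hCU (two_le_ncard_of hxC hyC hxy.ne) hN3
    have hr : ∀ e, e ∈ U → (e ∈ D ∨ e ∈ A1) → e ∉ Nb G C → e ∈ U \ (C ∪ Nb G C) := by
      intro e he he' heN
      refine ⟨he, ?_⟩
      rintro (h1 | h1)
      · have h2 := hCS e h1
        rcases he' with h3 | h3
        · exact h2.2.1 h3
        · exact h2.1 h3
      · exact heN h1
    have hpair : ∀ e e', e ∈ U → (e ∈ D ∨ e ∈ A1) → e' ∈ U → (e' ∈ D ∨ e' ∈ A1) → e ≠ e' →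
        e ∈ Nb G C ∨ e' ∈ Nb G C := by
      intro e e' g1 g2 g3 g4 hne
      by_contra hcon
      rw [not_or] at hcon
      exact hne (eq_of_ncard_le_one hrest (hr e g1 g2 hcon.1) (hr e' g3 g4 hcon.2))
    rcases hpair e1 e2 he1.1 he1.2.1 he2.1 he2.2.1 h12 with h1 | h1
    · have h2 := hNw e1 h1 he1.2.2.1 he1.2.2.2.1 he1.2.2.2.2
      rcases hpair a e2 haU (Or.inr haA) he2.1 he2.2.1 he2.2.2.2.1.symm with h3 | h3
      · rcases h2 _ h3 with h4 | h4
        · exact hap h4
        · exact he1.2.2.2.1 h4.symm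
      · rcases h2 _ h3 with h4 | h4
        · exact he2.2.2.1 h4
        · exact h12 h4.symm
    · have h2 := hNw e2 h1 he2.2.2.1 he2.2.2.2.1 he2.2.2.2.2
      rcases hpair a e1 haU (Or.inr haA) he1.1 he1.2.1 he1.2.2.2.1.symm with h3 | h3
      · rcases h2 _ h3 with h4 | h4
        · exact hap h4
        · exact he2.2.2.2.1 h4.symm
      · rcases h2 _ h3 with h4 | h4
        · exact he1.2.2.1 h4
        · exact h12 h4
  have hw : ∀ x, ∃ w, (∃ w', w' ∈ A1 ∧ w' ≠ p ∧ G.Adj x w') →
      (w ∈ A1 ∧ w ≠ p ∧ G.Adj x w) := by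
    intro x
    by_cases hex : ∃ w', w' ∈ A1 ∧ w' ≠ p ∧ G.Adj x w'
    · obtain ⟨w, hw⟩ := hex
      exact ⟨w, fun _ => hw⟩
    · exact ⟨x, fun h1 => absurd h1 hex⟩
  choose f hf using hw
  set κ' : V → ZMod 2 := fun x => if x ∈ D then κ x else if x ∈ A1 then ρ x else
    ρ (f x) + 1 with hκ'
  have k1 : ∀ x, x ∈ D → κ' x = κ x := by
    intro x hx; rw [hκ']; simp only [if_pos hx]
  have k2 : ∀ x, x ∉ D → x ∈ A1 → κ' x = ρ x := by
    intro x hx hx'; rw [hκ']; simp only [if_neg hx, if_pos hx']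
  have k3 : ∀ x, x ∉ D → x ∉ A1 → κ' x = ρ (f x) + 1 := by
    intro x hx hx'; rw [hκ']; simp only [if_neg hx, if_neg hx']
  have g1 : ∀ x y, x ∈ D → y ≠ p → G.Adj x y → 1 = κ' x + κ' y := by
    intro x y hx hy1 hxy
    by_cases hyD : y ∈ D
    · rw [k1 x hx, k1 y hyD]
      exact hD2 x hx y hyD hxy
    · rcases hD1 x hx y hxy with h1 | h1 | h1
      · exact absurd h1 hyD
      · exact absurd h1 hy1
      · rw [k1 x hx, k2 y hyD h1]
        exact hD3 x hx y h1 hyD hy1 hxy
  have g2 : ∀ x y, x ∉ D → x ∉ A1 → x ≠ p → y ∉ D → y ∈ A1 → y ≠ p →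
      G.Adj x y → 1 = κ' x + κ' y := by
    intro x y hxD hx hx1 hyD hy hy1 hxy
    have h1 := hf x ⟨y, hy, hy1, hxy⟩
    have h2 := huniq x (f x) y hx hxD hx1 h1.1 h1.2.1 hy hy1 h1.2.2 hxy
    rw [k3 x hxD hx, k2 y hyD hy, h2]
    have : ∀ t : ZMod 2, (1 : ZMod 2) = t + 1 + t := by decide
    exact this _
  apply h.idx p p κ'
  intro x y hx hy hxy
  simp only [Set.mem_insert_iff, Set.mem_singleton_iff, or_self] at hx hy
  show (1 : ZMod 2) = κ' x + κ' y
  by_cases hxD : x ∈ D
  · exact g1 x y hxD hy hxy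
  by_cases hyD : y ∈ D
  · rw [add_comm]; exact g1 y x hyD hx hxy.symm
  by_cases hxA : x ∈ A1
  · by_cases hyA : y ∈ A1
    · rw [k2 x hxD hxA, k2 y hyD hyA]
      exact hAA x hxA y hyA hxD hyD hx hy hxy
    · rw [add_comm]
      exact g2 y x hyD hyA hy hxD hxA hx hxy.symm
  · by_cases hyA : y ∈ A1
    · exact g2 x y hxD hxA hx hyD hyA hy hxy
    · exact absurd hxy (hout x y hxA hxD hx hyA hy)

section

variable {G : SimpleGraph V} {U : Set V} {J : SimpleGraph V}
  {κ : V → ZMod 2} {F : Set V} {q : Fin 4 → V} {b : V}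

lemma QGad.qU (hg : QGad G J κ F q b) (h : I4 G (fun _ => 1) U) (i : Fin 4) : q i ∈ U := by
  obtain ⟨w, hw⟩ := hg.qs i
  exact h.edge_mem _ _ (hg.le hw)

lemma QGad.bU (hg : QGad G J κ F q b) (h : I4 G (fun _ => 1) U) : b ∈ U := by
  obtain ⟨w, hw⟩ := hg.bs
  exact h.edge_mem _ _ (hg.le hw)

lemma QGad.FU (hg : QGad G J κ F q b) (h : I4 G (fun _ => 1) U) : F ⊆ U := by
  intro x hx
  obtain ⟨w, hw⟩ := hg.Fs hx
  exact h.edge_mem _ _ (hg.le hw)

lemma QGad.Fnb (hg : QGad G J κ F q b) {x y : V} (hx : x ∈ F) (hxy : G.Adj x y) :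
    (y ∈ F ∨ y = b ∨ ∃ i, q i = y) ∧ 1 = κ x + κ y := by
  have h1 := hg.full x hx y hxy
  refine ⟨?_, hg.lab x y h1⟩
  rcases hg.sub (mem_supp_right h1) with h2 | h2 | h2
  · exact Or.inl h2
  · exact Or.inr (Or.inl h2)
  · exact Or.inr (Or.inr h2)

lemma QGad.A4 (hg : QGad G J κ F q b) : (Set.range q).ncard = 4 := by
  rw [← Set.image_univ, Set.ncard_image_of_injective _ hg.inj, Set.ncard_univ]
  simp

lemma quad_ne [Finite V] {a b c d : V} (h : ({a, b, c, d} : Set V).ncard = 4) :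
    a ≠ b ∧ a ≠ c ∧ a ≠ d ∧ b ≠ c ∧ b ≠ d ∧ c ≠ d := by
  refine ⟨?_, ?_, ?_, ?_, ?_, ?_⟩ <;> intro hh
  · have := three_sub (S := ({a, b, c, d} : Set V)) (a := b) (b := c) (d := d) (by
      rw [hh]; simp)
    omega
  · have := three_sub (S := ({a, b, c, d} : Set V)) (a := b) (b := c) (d := d) (by
      rw [hh]
      rintro x (rfl | rfl | rfl | rfl) <;> simp)
    omega
  · have := three_sub (S := ({a, b, c, d} : Set V)) (a := b) (b := c) (d := d) (by
      rw [hh]
      rintro x (rfl | rfl | rfl | rfl) <;> simp)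
    omega
  · have := three_sub (S := ({a, b, c, d} : Set V)) (a := a) (b := c) (d := d) (by
      rw [hh]
      rintro x (rfl | rfl | rfl | rfl) <;> simp)
    omega
  · have := three_sub (S := ({a, b, c, d} : Set V)) (a := a) (b := c) (d := d) (by
      rw [hh]
      rintro x (rfl | rfl | rfl | rfl) <;> simp)
    omega
  · have := three_sub (S := ({a, b, c, d} : Set V)) (a := a) (b := b) (d := d) (by
      rw [hh]
      rintro x (rfl | rfl | rfl | rfl) <;> simp)
    omega

/-- Two disjoint wrong paths in the quotient give a TOK4. -/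
theorem QGad.tok_of_two [Finite V] (hg : QGad G J κ F q b)
    (hT : Two (delG (mergeG G (q 0) b) F) (fun _ => 1) κ (Set.range q) (Set.range q)ᶜ) :
    HasTOK4s G (fun _ => 1) := by
  classical
  obtain ⟨b1, a', b', hA, P, Q, hP, hQ, hPQ, -, -, hPw, hQw⟩ :=
    hT.first (v := q 0) ⟨0, rfl⟩
  have hA4 := hg.A4
  rw [hA] at hA4
  obtain ⟨n1, n2, n3, n4, n5, n6⟩ := quad_ne hA4
  have hmem : ∀ x, x ∈ ({q 0, b1, a', b'} : Set V) → ∃ i, q i = x := by
    intro x hx
    rw [← hA] at hx
    exact hx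
  obtain ⟨j, rfl⟩ := hmem b1 (by simp)
  obtain ⟨k, rfl⟩ := hmem a' (by simp)
  obtain ⟨l, rfl⟩ := hmem b' (by simp)
  have hj0 : 0 ≠ j := fun hh => n1 (by rw [hh])
  have hk0 : 0 ≠ k := fun hh => n2 (by rw [hh])
  have hl0 : 0 ≠ l := fun hh => n3 (by rw [hh])
  have hjk : j ≠ k := fun hh => n4 (by rw [hh])
  have hjl : j ≠ l := fun hh => n5 (by rw [hh])
  have hkl : k ≠ l := fun hh => n6 (by rw [hh])
  have hHadj : ∀ x y, (delG (mergeG G (q 0) b) F).Adj x y → x ≠ q 0 → y ≠ q 0 → G.Adj x y := by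
    rintro x y ⟨⟨-, -, -, h4⟩, -, -⟩ hx hy
    rcases h4 with h4 | h4 | h4
    · exact h4
    · exact absurd h4.1 hx
    · exact absurd h4.1 hy
  have hclosed : ∀ x y, (delG (mergeG G (q 0) b) F).Adj x y → y ∈ {z | z ∉ F ∧ z ≠ b} := by
    rintro x y ⟨⟨-, -, h3, -⟩, -, h4⟩
    exact ⟨h4, h3⟩
  -- transfer of walks avoiding the merged vertex
  have htr : ∀ {s t : V} (r : (delG (mergeG G (q 0) b) F).Walk s t), r.IsPath →
      (∀ x ∈ r.support, x ≠ q 0) → ∃ r' : G.Walk s t, r'.IsPath ∧ wt (fun _ => 1) r' =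
        wt (fun _ => 1) r ∧ r'.support = r.support := by
    intro s t r hr hr0
    have he : ∀ e ∈ r.edges, e ∈ G.edgeSet := by
      intro e he
      induction e using Sym2.ind with
      | _ x y =>
        exact hHadj x y (Walk.adj_of_mem_edges _ he)
          (hr0 x (Walk.fst_mem_support_of_mem_edges _ he))
          (hr0 y (Walk.snd_mem_support_of_mem_edges _ he))
    exact ⟨r.transfer G he, hr.transfer _, by rw [wt_transfer], by rw [Walk.support_transfer]⟩
  have hQ0 : ∀ x ∈ Q.support, x ≠ q 0 := by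
    intro x hx hx0
    exact hPQ (q 0) P.start_mem_support (hx0 ▸ hx)
  obtain ⟨Q', hQ', hQw', hQs'⟩ := htr Q hQ hQ0
  have hQcl := walk_mem hclosed Q ⟨hg.qF k, hg.bq k⟩
  have hqin : ∀ i, q i ∈ F ∪ insert b (Set.range q) := fun i => Or.inr (Or.inr ⟨i, rfl⟩)
  have hrange : ∀ x, x ∈ Set.range q → x = q 0 ∨ x = q j ∨ x = q k ∨ x = q l := by
    intro x hx
    rw [hA] at hx
    exact hx
  have hQmeet : ∀ x ∈ Q'.support, x ∈ F ∪ insert b (Set.range q) → x = q k ∨ x = q l := by
    intro x hx hxF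
    rw [hQs'] at hx
    rcases hxF with h2 | h2 | h2
    · exact absurd h2 (hQcl x hx).1
    · exact absurd h2 (hQcl x hx).2
    · rcases hrange x h2 with h3 | h3 | h3 | h3
      · exact absurd h3 (hQ0 x hx)
      · exact absurd hx (hPQ x (h3 ▸ P.end_mem_support))
      · exact Or.inl h3
      · exact Or.inr h3
  -- the first path
  have hP' : ∃ s, (s = q 0 ∨ s = b) ∧ ∃ P' : G.Walk s (q j), P'.IsPath ∧
      wt (fun _ => 1) P' = κ (q 0) + κ (q j) + 1 ∧
      ∀ x ∈ P'.support, x = s ∨ (x ∈ P.support ∧ x ≠ q 0 ∧ x ∉ F ∧ x ≠ b) := by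
    rw [← hPw]
    clear hPw
    have hj : q 0 ≠ q j := n1
    generalize q j = t at P hj hP ⊢
    cases P with
    | nil => exact absurd rfl hj
    | @cons _ z _ hz P' =>
      rw [Walk.cons_isPath_iff] at hP
      obtain ⟨R, hR1, hR2, hR3⟩ := htr P' hP.1 (fun x hx hx0 => hP.2 (hx0 ▸ hx))
      have hz' := hclosed _ _ hz
      have hcl := walk_mem hclosed P' hz'
      have hsup : ∀ x ∈ R.support, x ∈ (Walk.cons hz P').support ∧ x ≠ q 0 ∧ x ∉ F ∧ x ≠ b := by
        intro x hx
        rw [hR3] at hx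
        refine ⟨?_, fun hx0 => hP.2 (hx0 ▸ hx), (hcl x hx).1, (hcl x hx).2⟩
        rw [Walk.support_cons, List.mem_cons]
        exact Or.inr hx
      have hadj : G.Adj (q 0) z ∨ G.Adj b z := by
        obtain ⟨⟨g1, -, -, g4⟩, -, -⟩ := hz
        rcases g4 with g4 | g4 | g4
        · exact Or.inl g4
        · exact Or.inr g4.2
        · exact absurd g4.1.symm g1
      rcases hadj with hadj | hadj
      · refine ⟨q 0, Or.inl rfl, Walk.cons hadj R, ?_, ?_, ?_⟩
        · rw [Walk.cons_isPath_iff]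
          exact ⟨hR1, fun hx => (hsup _ hx).2.1 rfl⟩
        · rw [wt_cons, wt_cons, hR2]
        · intro x hx
          rw [Walk.support_cons, List.mem_cons] at hx
          rcases hx with hx | hx
          · exact Or.inl hx
          · exact Or.inr (hsup x hx)
      · refine ⟨b, Or.inr rfl, Walk.cons hadj R, ?_, ?_, ?_⟩
        · rw [Walk.cons_isPath_iff]
          exact ⟨hR1, fun hx => (hsup _ hx).2.2.2 rfl⟩
        · rw [wt_cons, wt_cons, hR2]
        · intro x hx
          rw [Walk.support_cons, List.mem_cons] at hx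
          rcases hx with hx | hx
          · exact Or.inl hx
          · exact Or.inr (hsup x hx)
  obtain ⟨s, hs, P', hP1, hP2, hP3⟩ := hP'
  have hκs : κ s = κ (q 0) := by
    rcases hs with rfl | rfl
    · rfl
    · exact hg.kab
  have hF : LocFr J κ F (insert b (Set.range q)) s (q j) (q k) (q l) := by
    rcases hs with rfl | rfl
    · exact hg.E1 j k l hj0 hk0 hl0 hjk hjl hkl
    · exact hg.E2 j k l hj0 hk0 hl0 hjk hjl hkl
  have hsin : s ∈ F ∪ insert b (Set.range q) := by
    rcases hs with rfl | rfl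
    · exact hqin 0
    · exact Or.inr (Or.inl rfl)
  refine tok_of_frame hg.le hg.lab hF hsin (hqin j) (hqin k) (hqin l) P' Q' hP1 hQ'
    (by rw [hP2, hκs]) (by rw [hQw', hQw]) ?_ ?_ hQmeet
  · intro x hx hx'
    rw [hQs'] at hx'
    rcases hP3 x hx with h1 | h1
    · rcases hs with h2 | h2
      · exact hQ0 x hx' (h1.trans h2)
      · exact (hQcl x hx').2 (h1.trans h2)
    · exact hPQ x h1.1 hx'
  · intro x hx hxF
    rcases hP3 x hx with h1 | h1
    · exact Or.inl h1
    · rcases hxF with h2 | h2 | h2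
      · exact absurd h2 h1.2.2.1
      · exact absurd h2 h1.2.2.2
      · rcases hrange x h2 with h3 | h3 | h3 | h3
        · exact absurd h3 h1.2.1
        · exact Or.inr h3
        · exact absurd (h3 ▸ Q.start_mem_support) (hPQ x h1.1)
        · exact absurd (h3 ▸ Q.end_mem_support) (hPQ x h1.1)

/-- **Main theorem on quotient gadgets.** -/
theorem QGad.balanced [Finite V] (h : I4 G (fun _ => 1) U) (hg : QGad G J κ F q b) :
    HasTOK4s G (fun _ => 1) ∨ ∃ (D M : Set V) (κ' : V → ZMod 2), D ⊆ U ∧ M.ncard ≤ 2 ∧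
      (∀ i, i ≠ 0 → q i ∈ D ∨ q i ∈ M) ∧ q 0 ∉ D ∧ b ∉ D ∧
      (∀ x, (x ∈ D ∨ x ∈ F) → ∀ y, G.Adj x y → (y ∈ D ∨ y ∈ F ∨ y ∈ M) ∨ y = q 0 ∨ y = b) ∧
      BalOn G (fun _ => 1) (D ∪ F) κ' ∧ (∀ i, κ' (q i) = κ (q i)) ∧ κ' b = κ b := by
  classical
  rcases pack4 (delG (mergeG G (q 0) b) F) (fun _ => 1) κ (Set.range q) hg.A4 with
    hT | ⟨X, A1, B, ρ, hO⟩
  · exact Or.inl (hg.tok_of_two hT)
  set a : V := q 0 with ha
  set H := delG (mergeG G a b) F with hH
  have hab : a ≠ b := hg.bq 0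
  have haF : a ∉ F := hg.qF 0
  have hHof : ∀ x y, G.Adj x y → x ∉ F → y ∉ F → x ≠ b → y ≠ b → H.Adj x y :=
    fun x y h1 h2 h3 h4 h5 => ⟨⟨h1.ne, h4, h5, Or.inl h1⟩, h2, h3⟩
  have hHb : ∀ y, G.Adj b y → y ∉ F → y ≠ a → H.Adj a y :=
    fun y h1 h2 h3 => ⟨⟨h3.symm, hab, h1.ne.symm, Or.inr (Or.inl ⟨rfl, h1⟩)⟩, haF, h2⟩
  have hHinv : ∀ x y, H.Adj x y → (x ∉ F ∧ x ≠ b) ∧ (y ∉ F ∧ y ≠ b) ∧
      (G.Adj x y ∨ (x = a ∧ G.Adj b y) ∨ (y = a ∧ G.Adj b x)) := by
    rintro x y ⟨⟨-, h2, h3, h4⟩, h5, h6⟩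
    exact ⟨⟨h5, h2⟩, ⟨h6, h3⟩, h4⟩
  have hwalkH : ∀ {s t : V} (r : G.Walk s t), (∀ x ∈ r.support, x ∉ F ∧ x ≠ b) →
      ∃ r' : H.Walk s t, r'.support = r.support := by
    intro s t r
    induction r with
    | nil => intro _; exact ⟨Walk.nil, rfl⟩
    | @cons s m t hsm r ih =>
      intro hr
      obtain ⟨r', hr'⟩ := ih (fun x hx => hr x (by simp [hx]))
      have hs := hr s (by simp)
      have hm := hr m (by simp)
      exact ⟨Walk.cons (hHof s m hsm hs.1 hm.1 hs.2 hm.2) r', by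
        rw [Walk.support_cons, Walk.support_cons, hr']⟩
  have hqi : ∀ i, q i ∈ A1 → ρ (q i) = κ (q i) := fun i hi => hO.pot _ ⟨i, rfl⟩ hi
  by_cases hX : X.Nonempty
  · exfalso
    obtain ⟨x0, hx0⟩ := hX
    have hB : B = ∅ := hO.B_empty ⟨x0, hx0⟩
    have hXe : ∀ x ∈ X, x = x0 := fun x hx => eq_of_ncard_le_one hO.X_le hx hx0
    have hqA : ∀ i, q i ≠ x0 → q i ∈ A1 := by
      intro i hi
      rcases hO.A_sub ⟨i, rfl⟩ with h1 | h1
      · exact h1
      · exact absurd (hXe _ h1) hi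
    have hedge : ∀ x ∈ A1, ∀ y ∈ A1, H.Adj x y → 1 = ρ x + ρ y := by
      intro x hx y hy hxy
      exact hO.edge x hx y hy hxy (by rw [hB]; simp)
    by_cases hxab : x0 = a ∨ x0 = b
    · have hne : ∀ i : Fin 4, i ≠ 0 → q i ≠ x0 := by
        intro i hi
        rcases hxab with h1 | h1
        · rw [h1]; exact hg.inj.ne hi
        · rw [h1]; exact hg.bq i
      have hel : ∀ i : Fin 4, i ≠ 0 → (q i ∈ U ∧ (q i ∈ F ∨ q i ∈ A1) ∧ q i ≠ a ∧ q i ≠ b) :=
        fun i hi => ⟨hg.qU h i, Or.inr (hqA i (hne i hi)), hg.inj.ne hi, hg.bq i⟩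
      refine h.obs_false (p1 := a) (p2 := b) (D := F) (A1 := A1) (κ := κ) (ρ := ρ)
        (e1 := q 1) (e2 := q 2) (e3 := q 3) ?_ ?_ ?_ ?_ ?_
        (hg.inj.ne (by decide)) (hg.inj.ne (by decide)) (hg.inj.ne (by decide))
        (hel 1 (by decide)) (hel 2 (by decide)) (hel 3 (by decide))
      · intro x hx y hxy
        rcases (hg.Fnb hx hxy).1 with h1 | h1 | ⟨l, h1⟩
        · exact Or.inl h1
        · exact Or.inr (Or.inr (Or.inl h1))
        · by_cases h2 : l = 0
          · exact Or.inr (Or.inl (by rw [← h1, h2]))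
          · exact Or.inr (Or.inr (Or.inr (h1 ▸ hqA l (hne l h2))))
      · intro x hx y hy hxy
        exact (hg.Fnb hx hxy).2
      · intro x hx y hyA hyF hya hyb hxy
        obtain ⟨h1, h2⟩ := hg.Fnb hx hxy
        rcases h1 with h1 | h1 | ⟨l, h1⟩
        · exact absurd h1 hyF
        · exact absurd h1 hyb
        · show 1 = κ x + ρ y
          rw [h2, ← h1, hqi l (h1 ▸ hyA)]
      · intro x hx y hy hxF hyF hxa hxb hya hyb hxy
        exact hedge x hx y hy (hHof x y hxy hxF hyF hxb hyb)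
      · intro u hu w hw hneq huF hwF hua hub hwa hwb u' w' huu hww r hr
        obtain ⟨r', hr'⟩ := hwalkH r (fun x hx => ⟨(hr x hx).2.1, (hr x hx).2.2.2⟩)
        have hu' := hr u' r.start_mem_support
        have hw' := hr w' r.end_mem_support
        have h1 := hO.walk u hu w hw hneq u' w'
          (hHof u u' huu huF hu'.2.1 hub hu'.2.2.2)
          (hHof w w' hww hwF hw'.2.1 hwb hw'.2.2.2) r' (by
            intro x hx
            rw [hr'] at hx
            refine ⟨(hr x hx).1, fun h2 => ?_⟩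
            rcases hxab with h3 | h3
            · exact (hr x hx).2.2.1 ((hXe x h2).trans h3)
            · exact (hr x hx).2.2.2 ((hXe x h2).trans h3))
        rw [hB] at h1
        exact h1.1
    · rw [not_or] at hxab
      have haA : a ∈ A1 := hqA 0 (fun hh => hxab.1 hh.symm)
      have hρa : ρ a = κ a := hqi 0 haA
      set A1' : Set V := insert b A1 with hA1'
      set ρ' : V → ZMod 2 := fun x => if x = b then ρ a else ρ x with hρ'
      have r1 : ρ' b = ρ a := by rw [hρ']; simp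
      have r2 : ∀ x, x ≠ b → ρ' x = ρ x := by
        intro x hx; rw [hρ']; simp only [if_neg hx]
      set σ : V → V := fun x => if x = b then a else x with hσ
      have s1 : ∀ x, x ∈ A1' → σ x ∈ A1 ∧ ρ' x = ρ (σ x) := by
        intro x hx
        by_cases hxb : x = b
        · rw [hxb, hσ]; simp only [if_true]
          exact ⟨haA, r1⟩
        · rw [hσ]; simp only [if_neg hxb]
          exact ⟨hx.resolve_left hxb, r2 x hxb⟩
      have s2 : ∀ x y, x ∉ F → y ∉ F → y ≠ b → y ≠ a → G.Adj x y → H.Adj (σ x) y := by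
        intro x y hxF hyF hyb hya hxy
        by_cases hxb : x = b
        · rw [hxb] at hxy
          rw [hσ]; simp only [if_pos hxb]
          exact hHb y hxy hyF hya
        · rw [hσ]; simp only [if_neg hxb]
          exact hHof x y hxy hxF hyF hxb hyb
      have hfin : ∀ i j : Fin 4, i ≠ 0 → j ≠ 0 → i ≠ j → q i ≠ x0 → q j ≠ x0 → False := by
        intro i j hi hj hij hix hjx
        have hel : ∀ i : Fin 4, i ≠ 0 → q i ≠ x0 → (q i ∈ U ∧ (q i ∈ F ∨ q i ∈ A1') ∧
            q i ≠ x0 ∧ q i ≠ a ∧ q i ≠ b) :=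
          fun i hi hix => ⟨hg.qU h i, Or.inr (Or.inr (hqA i hix)), hix, hg.inj.ne hi, hg.bq i⟩
        refine h.obs_falseQ (p := x0) (a := a) (b := b) (D := F) (A1 := A1') (κ := κ) (ρ := ρ')
          (e1 := q i) (e2 := q j) ?_ (hg.qU h 0) (Or.inr haA) (fun hh => hxab.1 hh.symm) ?_ ?_ ?_
          ?_ ?_ (hg.inj.ne hij) (hel i hi hix) (hel j hj hjx)
        · rw [r1, r2 a hab]
        · intro x hx y hxy
          rcases (hg.Fnb hx hxy).1 with h1 | h1 | ⟨l, h1⟩
          · exact Or.inl h1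
          · exact Or.inr (Or.inr (Or.inl h1))
          · by_cases h2 : y = x0
            · exact Or.inr (Or.inl h2)
            · exact Or.inr (Or.inr (Or.inr (h1 ▸ hqA l (h1 ▸ h2))))
        · intro x hx y hy hxy
          exact (hg.Fnb hx hxy).2
        · intro x hx y hyA hyF hyx hxy
          obtain ⟨h1, h2⟩ := hg.Fnb hx hxy
          rcases h1 with h1 | h1 | ⟨l, h1⟩
          · exact absurd h1 hyF
          · rw [h1, r1, hρa, h2, h1, hg.kab]
          · have hyb : y ≠ b := h1 ▸ hg.bq l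
            rw [r2 y hyb, h2, ← h1, hqi l (h1 ▸ hyA.resolve_left hyb)]
        · intro x hx y hy hxF hyF hxx hyx hxy
          have e1 := s1 x hx
          have e2 := s1 y hy
          rw [e1.2, e2.2]
          by_cases hyb : y = b
          · have hxb : x ≠ b := fun hh => hxy.ne (hh.trans hyb.symm)
            have hxa : x ≠ a := by
              intro hh
              rw [hh, hyb] at hxy
              exact hg.nab hxy
            have h1 : H.Adj (σ y) x := s2 y x hyF hxF hxb hxa hxy.symm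
            have h2 : σ x = x := by rw [hσ]; simp only [if_neg hxb]
            rw [add_comm, h2]
            rw [h2] at e1
            exact hedge _ e2.1 _ e1.1 h1
          · have h2 : σ y = y := by rw [hσ]; simp only [if_neg hyb]
            rw [h2] at e2 ⊢
            by_cases hya : y = a
            · have hxb : x ≠ b := by
                intro hh
                rw [hh, hya] at hxy
                exact hg.nab hxy.symm
              have h3 : σ x = x := by rw [hσ]; simp only [if_neg hxb]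
              rw [h3] at e1 ⊢
              exact hedge _ e1.1 _ e2.1 (hHof x y hxy hxF hyF hxb hyb)
            · exact hedge _ e1.1 _ e2.1 (s2 x y hxF hyF hyb hya hxy)
        · intro u hu w hw hneq hn1 hn2 huF hwF hux hwx u' w' huu hww r hr
          have hr1 : ∀ x ∈ r.support, x ∉ F ∧ x ≠ b := by
            intro x hx
            have h1 := hr x hx
            exact ⟨h1.2.1, fun hh => h1.1 (Or.inl hh)⟩
          obtain ⟨r', hr'⟩ := hwalkH r hr1
          have hu' := hr u' r.start_mem_support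
          have hw' := hr w' r.end_mem_support
          have hne' : ∀ z, z ∉ A1' → z ≠ b ∧ z ≠ a := by
            intro z hz
            refine ⟨fun hh => hz (Or.inl hh), fun hh => hz (Or.inr (hh ▸ haA))⟩
          have hu2 := hne' u' hu'.1
          have hw2 := hne' w' hw'.1
          have hσne : σ u ≠ σ w := by
            intro hh
            by_cases hub : u = b
            · by_cases hwb : w = b
              · exact hneq (hub.trans hwb.symm)
              · rw [hσ] at hh
                simp only [if_pos hub, if_neg hwb] at hh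
                exact hn2 ⟨hub, hh.symm⟩
            · by_cases hwb : w = b
              · rw [hσ] at hh
                simp only [if_neg hub, if_pos hwb] at hh
                exact hn1 ⟨hh, hwb⟩
              · rw [hσ] at hh
                simp only [if_neg hub, if_neg hwb] at hh
                exact hneq hh
          have h1 := hO.walk (σ u) (s1 u hu).1 (σ w) (s1 w hw).1 hσne u' w'
            (s2 u u' huF hu'.2.1 hu2.1 hu2.2 huu) (s2 w w' hwF hw'.2.1 hw2.1 hw2.2 hww) r' (by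
              intro x hx
              rw [hr'] at hx
              refine ⟨fun h2 => (hr x hx).1 (Or.inr h2), fun h2 => ?_⟩
              exact (hr x hx).2.2 (hXe x h2))
          rw [hB] at h1
          exact h1.1
      by_cases h1 : q 1 = x0
      · exact hfin 2 3 (by decide) (by decide) (by decide)
          (fun h2 => absurd (hg.inj (h2.trans h1.symm)) (by decide))
          (fun h2 => absurd (hg.inj (h2.trans h1.symm)) (by decide))
      by_cases h2 : q 2 = x0
      · exact hfin 1 3 (by decide) (by decide) (by decide) h1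
          (fun h3 => absurd (hg.inj (h3.trans h2.symm)) (by decide))
      · exact hfin 1 2 (by decide) (by decide) (by decide) h1 h2
  · -- no deleted vertex
    have hXe : ∀ x, x ∉ X := fun x hx => hX ⟨x, hx⟩
    have hqA : ∀ i, q i ∈ A1 := fun i => (hO.A_sub ⟨i, rfl⟩).resolve_right (hXe _)
    have haA : a ∈ A1 := hqA 0
    have hρa : ρ a = κ a := hqi 0 haA
    have hcl : ∀ x y, H.Adj x y → y ∈ {z | z ∉ F ∧ z ≠ b} := fun x y hxy => (hHinv x y hxy).2.1
    have hclosed : ∀ x y, x ∈ A1 → x ∉ B → H.Adj x y → y ∈ A1 := by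
      intro x y hx hxB hxy
      by_contra hyA
      have hy := hHinv x y hxy
      set C : Set V := Reach H {y} (A1 ∪ X) with hC
      have hyC : y ∈ C := reach_of_mem rfl (by
        rintro (h1 | h1)
        · exact hyA h1
        · exact hXe _ h1)
      have hCA : ∀ z ∈ C, z ∉ A1 := fun z hz h1 => not_mem_of_reach hz (Or.inl h1)
      have hza : ∀ z ∈ C, z ≠ a := fun z hz hh => hCA z hz (hh ▸ haA)
      have hUof : ∀ s t, H.Adj s t → t ≠ a → t ∈ U := by
        intro s t hst hta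
        rcases (hHinv s t hst).2.2 with h1 | h1 | h1
        · exact h.edge_mem _ _ h1.symm
        · exact h.edge_mem _ _ h1.2.symm
        · exact absurd h1.1 hta
      have hCm : ∀ z ∈ C, z ∉ F ∧ z ≠ b ∧ z ∈ U := by
        intro z hzC
        have hz0 := hza z hzC
        obtain ⟨s, hs, r, hr⟩ := hzC
        rw [Set.mem_singleton_iff] at hs
        subst hs
        have h1 := walk_mem hcl r hy.2.1 z r.end_mem_support
        refine ⟨h1.1, h1.2, ?_⟩
        by_cases haz : s = z
        · subst haz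
          exact hUof x s hxy hz0
        · obtain ⟨w, hw, -⟩ := exists_last_edge r haz
          exact hUof w z hw hz0
      have hxN : x ∈ Nb H C := ⟨fun h1 => hCA x h1 hx, y, hyC, hxy.symm⟩
      have hNH : ∀ w ∈ Nb H C, w = x := by
        intro w hw
        have hwA : w ∈ A1 := by
          rcases Nb_Reach hw with h2 | h2
          · exact h2
          · exact absurd h2 (hXe _)
        by_contra hne
        exact hxB (obs_comp hO subset_rfl hwA hw hx hxN hne).2
      have hNC : Nb G C ⊆ {x, b} := by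
        rintro w ⟨hwC, z, hz, hzw⟩
        by_cases h1 : w = b
        · exact Or.inr h1
        left
        have hz' := hCm z hz
        by_cases hwF : w ∈ F
        · exfalso
          rcases (hg.Fnb hwF hzw.symm).1 with h2 | h2 | ⟨l, h2⟩
          · exact hz'.1 h2
          · exact hz'.2.1 h2
          · exact hCA z hz (h2 ▸ hqA l)
        · exact hNH w ⟨hwC, z, hz, hHof z w hzw hz'.1 hwF hz'.2.1 h1⟩
      have hN2 := (Set.ncard_le_ncard hNC (Set.toFinite _)).trans (ncard_pair_le' _ _)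
      by_cases h2 : 2 ≤ C.ncard
      · have hrest := h.cut C (fun z hz => (hCm z hz).2.2) h2 (by omega)
        have hr : ∀ i, q i ≠ x → q i ∈ U \ (C ∪ Nb G C) := by
          intro i hi
          refine ⟨hg.qU h i, ?_⟩
          rintro (h1 | h1)
          · exact hCA _ h1 (hqA i)
          · rcases hNC h1 with h3 | h3
            · exact hi h3
            · exact hg.bq i h3
        by_cases h0 : q 1 = x
        · have h3 := eq_of_ncard_le_one hrest
            (hr 2 (fun h1 => absurd (hg.inj (h1.trans h0.symm)) (by decide)))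
            (hr 3 (fun h1 => absurd (hg.inj (h1.trans h0.symm)) (by decide)))
          exact absurd (hg.inj h3) (by decide)
        by_cases h1 : q 2 = x
        · have h3 := eq_of_ncard_le_one hrest (hr 1 h0)
            (hr 3 (fun h2 => absurd (hg.inj (h2.trans h1.symm)) (by decide)))
          exact absurd (hg.inj h3) (by decide)
        · have h3 := eq_of_ncard_le_one hrest (hr 1 h0) (hr 2 h1)
          exact absurd (hg.inj h3) (by decide)
      · have h3 : C = {y} := by
          apply (Set.eq_of_subset_of_ncard_le _ _ (Set.toFinite _)).symm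
          · rintro z rfl; exact hyC
          · rw [Set.ncard_singleton]; omega
        rw [h3, Nb_singleton] at hN2
        have h4 := h.deg3 y (hCm y hyC).2.2
        omega
    have hGclosed : ∀ x y, x ∈ A1 → x ∉ B → x ∉ F → x ≠ b → G.Adj x y → y ∉ F → y ≠ b →
        y ∈ A1 ∧ 1 = ρ x + ρ y := by
      intro x y hx hxB hxF hxb hxy hyF hyb
      have h1 := hHof x y hxy hxF hyF hxb hyb
      have h2 := hclosed x y hx hxB h1
      exact ⟨h2, hO.edge x hx y h2 h1 (fun h3 => hxB h3.1)⟩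
    have hGb : ∀ x, x ∈ A1 → x ∉ B → x ∉ F → x ≠ b → x ≠ a → G.Adj x b → 1 = ρ x + ρ a := by
      intro x hx hxB hxF hxb hxa hxy
      have h1 := hHb x hxy.symm hxF hxa
      exact hO.edge x hx a haA h1.symm (fun h3 => hxB h3.1)
    set κ' : V → ZMod 2 := fun x => if x ∈ F then κ x else if x = b then ρ a else ρ x with hκ'
    have k1 : ∀ x, x ∈ F → κ' x = κ x := by
      intro x hx; rw [hκ']; simp only [if_pos hx]
    have k2 : κ' b = ρ a := by
      rw [hκ']; simp only [if_neg hg.bF, if_true]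
    have k3 : ∀ x, x ∉ F → x ≠ b → κ' x = ρ x := by
      intro x hx hx'; rw [hκ']; simp only [if_neg hx, if_neg hx']
    have kq : ∀ i, κ' (q i) = κ (q i) := by
      intro i
      rw [k3 _ (hg.qF i) (hg.bq i), hqi i (hqA i)]
    have kb : κ' b = κ b := by rw [k2, hρa, hg.kab]
    have gF : ∀ x y, x ∈ F → G.Adj x y → 1 = κ' x + κ' y := by
      intro x y hx hxy
      obtain ⟨h1, h2⟩ := hg.Fnb hx hxy
      rw [k1 x hx, h2]
      congr 1
      rcases h1 with h1 | h1 | ⟨l, h1⟩
      · rw [k1 y h1]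
      · rw [h1, kb]
      · rw [← h1, kq l]
    by_cases haB : a ∈ B
    · right
      set D : Set V := {x | x ∈ U ∧ x ∈ A1 ∧ x ∉ B ∧ x ∉ F ∧ x ≠ b} with hD
      set M : Set V := {x | x ∈ U ∧ x ∈ B ∧ x ≠ a ∧ x ∉ F ∧ x ≠ b} with hM
      have haD : a ∉ D := fun h1 => h1.2.2.1 haB
      have hbD : b ∉ D := fun h1 => h1.2.2.2.2 rfl
      have hM2 : M.ncard ≤ 2 := by
        have h1 : M ⊆ B \ {a} := fun x hx => ⟨hx.2.1, hx.2.2.1⟩
        have h2 := Set.ncard_le_ncard h1 (Set.toFinite _)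
        rw [Set.ncard_sdiff_singleton_of_mem haB] at h2
        have := hO.B_le
        omega
      have hcov : ∀ i, i ≠ 0 → q i ∈ D ∨ q i ∈ M := by
        intro i hi
        by_cases h1 : q i ∈ B
        · exact Or.inr ⟨hg.qU h i, h1, hg.inj.ne hi, hg.qF i, hg.bq i⟩
        · exact Or.inl ⟨hg.qU h i, hqA i, h1, hg.qF i, hg.bq i⟩
      have hDb : ∀ x ∈ D, x ≠ a := fun x hx hh => haD (hh ▸ hx)
      refine ⟨D, M, κ', fun x hx => hx.1, hM2, hcov, haD, hbD, ?_, ?_, kq, kb⟩
      · rintro x (hx | hx) y hxy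
        · by_cases hya : y = a
          · exact Or.inr (Or.inl hya)
          by_cases hyb : y = b
          · exact Or.inr (Or.inr hyb)
          left
          by_cases hyF : y ∈ F
          · exact Or.inr (Or.inl hyF)
          have hyA := (hGclosed x y hx.2.1 hx.2.2.1 hx.2.2.2.1 hx.2.2.2.2 hxy hyF hyb).1
          have hyU := h.edge_mem y x hxy.symm
          by_cases hyB : y ∈ B
          · exact Or.inr (Or.inr ⟨hyU, hyB, hya, hyF, hyb⟩)
          · exact Or.inl ⟨hyU, hyA, hyB, hyF, hyb⟩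
        · rcases (hg.Fnb hx hxy).1 with h1 | h1 | ⟨l, h1⟩
          · exact Or.inl (Or.inr (Or.inl h1))
          · exact Or.inr (Or.inr h1)
          · by_cases hl : l = 0
            · exact Or.inr (Or.inl (by rw [← h1, hl]))
            · left
              rw [← h1]
              rcases hcov l hl with h2 | h2
              · exact Or.inl h2
              · exact Or.inr (Or.inr h2)
      · rintro u w (hu | hu) huw
        · show 1 = κ' u + κ' w
          by_cases hwF : w ∈ F
          · rw [add_comm]; exact gF w u hwF huw.symm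
          rw [k3 u hu.2.2.2.1 hu.2.2.2.2]
          by_cases hwb : w = b
          · rw [hwb, k2]
            rw [hwb] at huw
            exact hGb u hu.2.1 hu.2.2.1 hu.2.2.2.1 hu.2.2.2.2 (hDb u hu) huw
          · rw [k3 w hwF hwb]
            exact (hGclosed u w hu.2.1 hu.2.2.1 hu.2.2.2.1 hu.2.2.2.2 huw hwF hwb).2
        · exact gF u w hu huw
    · -- the merged vertex is inside
      exfalso
      set Y : Set V := {x | x ∈ U ∧ ((x ∈ A1 ∧ x ∉ B ∧ x ≠ b) ∨ x ∈ F ∨ x = b)} with hY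
      have haY : a ∈ Y := ⟨hg.qU h 0, Or.inl ⟨haA, haB, hab⟩⟩
      have hbY : b ∈ Y := ⟨hg.bU h, Or.inr (Or.inr rfl)⟩
      have hFY : ∀ x ∈ F, x ∈ Y := fun x hx => ⟨hg.FU h hx, Or.inr (Or.inl hx)⟩
      have hstep : ∀ u w, u ∈ Y → G.Adj u w → (w ∈ Y ∨ w ∈ B) ∧ 1 = κ' u + κ' w := by
        intro u w hu huw
        have hwU := h.edge_mem w u huw.symm
        by_cases hwF : w ∈ F
        · exact ⟨Or.inl (hFY w hwF), by rw [add_comm]; exact gF w u hwF huw.symm⟩
        by_cases huF : u ∈ F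
        · refine ⟨?_, gF u w huF huw⟩
          rcases (hg.Fnb huF huw).1 with h1 | h1 | ⟨l, h1⟩
          · exact absurd h1 hwF
          · rw [h1]; exact Or.inl hbY
          · by_cases h2 : w ∈ B
            · exact Or.inr h2
            · rw [← h1] at h2 ⊢
              exact Or.inl ⟨hg.qU h l, Or.inl ⟨hqA l, h2, hg.bq l⟩⟩
        have hmem : ∀ z, z ∈ U → z ∈ A1 → z ≠ b → z ∈ Y ∨ z ∈ B := by
          intro z h1 h2 h3
          by_cases h4 : z ∈ B
          · exact Or.inr h4
          · exact Or.inl ⟨h1, Or.inl ⟨h2, h4, h3⟩⟩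
        by_cases hub : u = b
        · rw [hub] at huw
          have hwa : w ≠ a := by
            intro hh
            rw [hh] at huw
            exact hg.nab huw.symm
          have h1 := hHb w huw hwF hwa
          have h2 := hclosed a w haA haB h1
          have hwb : w ≠ b := huw.ne.symm
          refine ⟨hmem w hwU h2 hwb, ?_⟩
          rw [hub, k2, k3 w hwF hwb]
          exact hO.edge a haA w h2 h1 (fun h3 => haB h3.1)
        · have hu' : u ∈ A1 ∧ u ∉ B ∧ u ≠ b := by
            rcases hu.2 with h1 | h1 | h1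
            · exact h1
            · exact absurd h1 huF
            · exact absurd h1 hub
          by_cases hwb : w = b
          · rw [hwb] at huw ⊢
            have hua : u ≠ a := by
              intro hh
              rw [hh] at huw
              exact hg.nab huw
            refine ⟨Or.inl hbY, ?_⟩
            rw [k3 u huF hub, k2]
            exact hGb u hu'.1 hu'.2.1 huF hub hua huw
          · obtain ⟨h1, h2⟩ := hGclosed u w hu'.1 hu'.2.1 huF hub huw hwF hwb
            refine ⟨hmem w hwU h1 hwb, ?_⟩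
            rw [k3 u huF hub, k3 w hwF hwb]
            exact h2
      refine h.no_bal3 (Y := Y) (κ := κ') (fun x hx => hx.1) (two_le_ncard_of haY hbY hab) ?_ ?_
      · have h1 : Nb G Y ⊆ B := by
          rintro w ⟨hw, u, hu, huw⟩
          exact (hstep u w hu huw).1.resolve_left hw
        exact (Set.ncard_le_ncard h1 (Set.toFinite _)).trans hO.B_le
      · intro u w hu huw
        exact (hstep u w hu huw).2

end

end Pool.Agent.Helper1.GL
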