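import Pool.Agent.Helper1.GL.Fields

/-!
# Global part: a graph with only one edge and one triangle of monochromatic edges
-/

set_option autoImplicit false

namespace Pool.Agent.Helper1.GL

open SimpleGraph Pool.Agent.Helper57.TOK Pool.Agent.Helper57.TD Pool.Agent.Helper82.TK
  Pool.Agent.Helper1.TD

variable {V : Type*}

lemma wt_of_bichr {G : SimpleGraph V} {κ : V → ZMod 2} {a b : V} (p : G.Walk a b)
    (hp : ∀ u v, s(u, v) ∈ p.edges → κ u ≠ κ v) : wt (fun _ => (1 : ZMod 2)) p = κ a + κ b := by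
  induction p with
  | nil => rw [wt_nil, CharTwo.add_self_eq_zero]
  | @cons u v w h q ih =>
    rw [wt_cons, ih (fun x y hxy => hp x y (by rw [Walk.edges_cons]; exact List.mem_cons_of_mem _ hxy))]
    have h1 : κ u ≠ κ v := hp u v (by rw [Walk.edges_cons]; exact List.mem_cons_self)
    have key : ∀ a b d : ZMod 2, a ≠ b → 1 + (b + d) = a + d := by decide
    exact key _ _ _ h1

lemma three_ncard [Finite V] {a b d : V} (hab : a ≠ b) (had : a ≠ d) (hbd : b ≠ d) :
    ({a, b, d} : Set V).ncard = 3 := by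
  rw [Set.ncard_insert_of_notMem, Set.ncard_pair hbd]
  simp only [Set.mem_insert_iff, Set.mem_singleton_iff, not_or]
  exact ⟨hab, had⟩

/-- A graph with only one edge and one triangle of monochromatic edges has a TOK4. -/
theorem I4.TRI [Finite V] {G : SimpleGraph V} {U : Set V} (h : I4 G (fun _ => 1) U)
    {y c t1 t2 t3 : V} {κ : V → ZMod 2} (hy1 : y ≠ t1) (hy2 : y ≠ t2) (hy3 : y ≠ t3)
    (hc1 : c ≠ t1) (hc2 : c ≠ t2) (hc3 : c ≠ t3) (h12 : G.Adj t1 t2) (h13 : G.Adj t1 t3)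
    (h23 : G.Adj t2 t3) (hk2 : κ t1 = κ t2) (hk3 : κ t1 = κ t3)
    (hm : ∀ u v, G.Adj u v → κ u = κ v → s(u, v) = s(y, c) ∨
      (u ∈ ({t1, t2, t3} : Set V) ∧ v ∈ ({t1, t2, t3} : Set V))) :
    HasTOK4s G (fun _ => 1) := by
  classical
  by_contra hno
  set T : Set V := {t1, t2, t3} with hT
  have hyT : y ∉ T := by
    rintro (h1 | h1 | h1)
    · exact hy1 h1
    · exact hy2 h1
    · exact hy3 h1
  have hcT : c ∉ T := by
    rintro (h1 | h1 | h1)
    · exact hc1 h1
    · exact hc2 h1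
    · exact hc3 h1
  have hT3 : T.ncard = 3 := three_ncard h12.ne h13.ne h23.ne
  have hTκ : ∀ t ∈ T, κ t = κ t1 := by
    rintro t (rfl | rfl | rfl)
    · rfl
    · exact hk2.symm
    · exact hk3.symm
  have hTadj : ∀ s ∈ T, ∀ t ∈ T, s ≠ t → G.Adj s t := by
    rintro s (rfl | rfl | rfl) t (rfl | rfl | rfl) hst
    · exact absurd rfl hst
    · exact h12
    · exact h13
    · exact h12.symm
    · exact absurd rfl hst
    · exact h23
    · exact h13.symm
    · exact h23.symm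
    · exact absurd rfl hst
  -- no outer vertex sees two of the triangle
  have hF : ∀ r, r ∉ T → ∀ s ∈ T, ∀ t ∈ T, s ≠ t → G.Adj s r → G.Adj t r → False := by
    intro r hr s hs t ht hst h1 h2
    obtain ⟨x, hx, hxs, hxt⟩ : ∃ x ∈ T, x ≠ s ∧ x ≠ t := by
      by_contra hcon
      push Not at hcon
      have h3 : T ⊆ {s, t} := by
        intro z hz
        by_cases h4 : z = s
        · exact Or.inl h4
        · exact Or.inr (hcon z hz h4)
      have h4 := (Set.ncard_le_ncard h3 (Set.toFinite _)).trans (ncard_pair_le' _ _)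
      omega
    exact hno (h.F1 (p := s) (q := t) (x := x) (x' := r) (hTadj s hs t ht hst)
      (fun hh => hr (hh ▸ hx)) (hTadj s hs x hx hxs.symm) (hTadj t ht x hx hxt.symm) h1 h2)
  have hTU : ∀ t ∈ T, t ∈ U := by
    rintro t (rfl | rfl | rfl)
    · exact h.edge_mem _ _ h12
    · exact h.edge_mem _ _ h12.symm
    · exact h.edge_mem _ _ h13.symm
  -- third neighbours
  have hthird : ∀ t ∈ T, ∃ r, G.Adj t r ∧ r ∉ T := by
    intro t ht
    by_contra hcon
    push Not at hcon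
    have h1 : G.neighborSet t ⊆ T \ {t} := by
      intro z hz
      exact ⟨hcon z hz, fun h2 => (SimpleGraph.Adj.ne hz) h2.symm⟩
    have h2 := Set.ncard_le_ncard h1 (Set.toFinite _)
    rw [Set.ncard_sdiff_singleton_of_mem ht, hT3] at h2
    have h3 := h.deg3 t (hTU t ht)
    omega
  have hwhite : ∀ t ∈ T, ∀ r, G.Adj t r → r ∉ T → κ r ≠ κ t1 := by
    intro t ht r htr hr hh
    rcases hm t r htr (by rw [hTκ t ht, hh]) with h1 | h1
    · rw [Sym2.eq_iff] at h1
      rcases h1 with ⟨h2, -⟩ | ⟨h2, -⟩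
      · exact hyT (h2 ▸ ht)
      · exact hcT (h2 ▸ ht)
    · exact hr h1.2
  obtain ⟨w, hwT, hwy, hwc, hwκ, hwU⟩ : ∃ w, w ∉ T ∧ w ≠ y ∧ w ≠ c ∧ κ w ≠ κ t1 ∧ w ∈ U := by
    have m1 : t1 ∈ T := by simp [hT]
    have m2 : t2 ∈ T := by simp [hT]
    have m3 : t3 ∈ T := by simp [hT]
    obtain ⟨r1, a1, b1⟩ := hthird t1 m1
    obtain ⟨r2, a2, b2⟩ := hthird t2 m2
    obtain ⟨r3, a3, b3⟩ := hthird t3 m3
    have n12 : r1 ≠ r2 := by
      rintro rfl
      exact hF r1 b1 t1 m1 t2 m2 h12.ne a1 a2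
    have n13 : r1 ≠ r3 := by
      rintro rfl
      exact hF r1 b1 t1 m1 t3 m3 h13.ne a1 a3
    have n23 : r2 ≠ r3 := by
      rintro rfl
      exact hF r2 b2 t2 m2 t3 m3 h23.ne a2 a3
    by_cases e1 : r1 ≠ y ∧ r1 ≠ c
    · exact ⟨r1, b1, e1.1, e1.2, hwhite t1 m1 r1 a1 b1, h.edge_mem _ _ a1.symm⟩
    by_cases e2 : r2 ≠ y ∧ r2 ≠ c
    · exact ⟨r2, b2, e2.1, e2.2, hwhite t2 m2 r2 a2 b2, h.edge_mem _ _ a2.symm⟩
    by_cases e3 : r3 ≠ y ∧ r3 ≠ c
    · exact ⟨r3, b3, e3.1, e3.2, hwhite t3 m3 r3 a3 b3, h.edge_mem _ _ a3.symm⟩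
    exfalso
    have f1 : r1 = y ∨ r1 = c := by
      by_contra hh; rw [not_or] at hh; exact e1 hh
    have f2 : r2 = y ∨ r2 = c := by
      by_contra hh; rw [not_or] at hh; exact e2 hh
    have f3 : r3 = y ∨ r3 = c := by
      by_contra hh; rw [not_or] at hh; exact e3 hh
    rcases f1 with f1 | f1 <;> rcases f2 with f2 | f2 <;> rcases f3 with f3 | f3
    · exact n12 (f1.trans f2.symm)
    · exact n12 (f1.trans f2.symm)
    · exact n13 (f1.trans f3.symm)
    · exact n23 (f2.trans f3.symm)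
    · exact n23 (f2.trans f3.symm)
    · exact n13 (f1.trans f3.symm)
    · exact n12 (f1.trans f2.symm)
    · exact n12 (f1.trans f2.symm)
  set H : SimpleGraph V := G.deleteEdges {s(y, c)} with hH
  have hHadj : ∀ u v, H.Adj u v ↔ G.Adj u v ∧ s(u, v) ≠ s(y, c) := by
    intro u v
    rw [hH, SimpleGraph.deleteEdges_adj, Set.mem_singleton_iff]
  have hle : H ≤ G := fun u v huv => ((hHadj u v).1 huv).1
  rcases fan_or_set (G := H) (w := w) (B := T) (k := 3) hwT with hfan | ⟨A, hwA, hdis, hN, -⟩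
  · obtain ⟨b, P, hP1, hP2, hP3⟩ := hfan
    have hbinj := Fan.injective_end hwT (fun i => (hP1 i).1) hP3
    apply hno
    refine hasTOK4s_of_fan_triangle (w := w) (b := b) (fun i => (P i).mapLe hle)
      (fun i => (Walk.isPath_mapLe hle).2 (hP1 i).2) ?_ hbinj ?_ ?_ ?_ ?_
    · intro i
      rw [wt_mapLe]
      have hbi : ∀ u v, s(u, v) ∈ (P i).edges → κ u ≠ κ v := by
        intro u v huv hh
        have h1 : H.Adj u v := Walk.adj_of_mem_edges _ huv
        have hu := Walk.fst_mem_support_of_mem_edges _ huv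
        have hv := Walk.snd_mem_support_of_mem_edges _ huv
        rcases hm u v ((hHadj u v).1 h1).1 hh with h2 | h2
        · exact ((hHadj u v).1 h1).2 h2
        · exact h1.ne ((hP2 i u hu h2.1).trans (hP2 i v hv h2.2).symm)
      rw [wt_of_bichr (P i) hbi, hTκ _ (hP1 i).1]
      have key : ∀ a b : ZMod 2, a ≠ b → a + b = 1 := by decide
      exact key _ _ hwκ
    · intro i hh
      exact hwT (hh ▸ (hP1 i).1)
    · intro i j hij hj
      rw [Walk.support_mapLe_eq_support] at hj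
      exact hij (hbinj (hP2 i (b j) hj (hP1 j).1)).symm
    · intro i j hij x hx hx'
      rw [Walk.support_mapLe_eq_support] at hx hx'
      exact hP3 i j hij x hx hx'
    · intro i j hij
      exact ⟨hTadj _ (hP1 i).1 _ (hP1 j).1 (fun hh => hij (hbinj hh)), rfl⟩
  · have hTA : ∀ t ∈ T, t ∉ A := fun t ht htA => (Set.disjoint_left.1 hdis) htA ht
    have hAU : ∀ z ∈ A, z ∈ U ∨ z ∉ U := fun z _ => em _
    -- restrict to vertices of U: the component consists of vertices of U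
    set A' : Set V := A ∩ U with hA'
    have hwA' : w ∈ A' := ⟨hwA, hwU⟩
    have hNs : Nb H A' ⊆ Nb H A := by
      rintro v ⟨hv, u, hu, huv⟩
      refine ⟨fun hvA => hv ⟨hvA, h.edge_mem v u (hle huv.symm)⟩, u, hu.1, huv⟩
    have hN' : (Nb H A').ncard ≤ 2 := by
      have := Set.ncard_le_ncard hNs (Set.toFinite _)
      omega
    have hTA' : ∀ t ∈ T, t ∉ A' := fun t ht htA => hTA t ht htA.1
    -- neighbours in G
    have hG : ∀ v ∈ Nb G A', v ∈ Nb H A' ∨ ∃ u ∈ A', s(u, v) = s(y, c) := by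
      rintro v ⟨hv, u, hu, huv⟩
      by_cases h1 : s(u, v) = s(y, c)
      · exact Or.inr ⟨u, hu, h1⟩
      · exact Or.inl ⟨hv, u, hu, (hHadj u v).2 ⟨huv, h1⟩⟩
    have hGT : ∀ t ∈ T, t ∈ Nb G A' → t ∈ Nb H A' := by
      intro t ht htN
      rcases hG t htN with h1 | ⟨u, hu, h1⟩
      · exact h1
      · exfalso
        rw [Sym2.eq_iff] at h1
        rcases h1 with ⟨-, h2⟩ | ⟨-, h2⟩
        · exact hcT (h2 ▸ ht)
        · exact hyT (h2 ▸ ht)
    have hA2 : 2 ≤ A'.ncard := by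
      by_contra hlt
      have h1 : ∀ z ∈ A', z = w := fun z hz => eq_of_ncard_le_one (by omega) hz hwA'
      have h2 : G.neighborSet w ⊆ Nb H A' := by
        intro z hz
        have hwz : G.Adj w z := hz
        refine ⟨fun hzA => hwz.ne (h1 z hzA).symm, w, hwA', (hHadj w z).2 ⟨hwz, ?_⟩⟩
        intro h3
        rw [Sym2.eq_iff] at h3
        rcases h3 with ⟨h4, -⟩ | ⟨h4, -⟩
        · exact hwy h4
        · exact hwc h4
      have h3 := Set.ncard_le_ncard h2 (Set.toFinite _)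
      have h4 := h.deg3 w hwU
      omega
    have huv2 : ∀ v v', v ∉ A' → v' ∉ A' → (∃ u ∈ A', s(u, v) = s(y, c)) →
        (∃ u ∈ A', s(u, v') = s(y, c)) → v = v' := by
      rintro v v' hv hv' ⟨u, hu, h1⟩ ⟨u', hu', h2⟩
      have h3 : s(u, v) = s(u', v') := h1.trans h2.symm
      rw [Sym2.eq_iff] at h3
      rcases h3 with ⟨-, h4⟩ | ⟨h4, h5⟩
      · exact h4
      · exact absurd (h4 ▸ hu) hv'
    have hGN : (Nb G A').ncard ≤ 3 := by
      by_cases hex : ∃ d ∈ Nb G A', d ∉ Nb H A'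
      · obtain ⟨d, hd, hd'⟩ := hex
        have h1 : Nb G A' ⊆ insert d (Nb H A') := by
          intro v hv
          by_cases h2 : v ∈ Nb H A'
          · exact Or.inr h2
          · exact Or.inl (huv2 v d hv.1 hd.1 ((hG v hv).resolve_left h2)
              ((hG d hd).resolve_left hd'))
        have h2 := Set.ncard_le_ncard h1 (Set.toFinite _)
        have h3 := Set.ncard_insert_le d (Nb H A')
        omega
      · push Not at hex
        have h2 := Set.ncard_le_ncard (show Nb G A' ⊆ Nb H A' from hex) (Set.toFinite _)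
        omega
    have hrest := h.cut A' (fun z hz => hz.2) hA2 hGN
    obtain ⟨t, ht, htN⟩ : ∃ t ∈ T, t ∉ Nb H A' := by
      by_contra hcon
      push Not at hcon
      have := Set.ncard_le_ncard hcon (Set.toFinite _)
      omega
    have htr : t ∈ U \ (A' ∪ Nb G A') := by
      refine ⟨hTU t ht, ?_⟩
      rintro (h1 | h1)
      · exact hTA' t ht h1
      · exact htN (hGT t ht h1)
    have hr1 : ∀ z ∈ U, z ∉ A' → z ∉ Nb G A' → z = t := by
      intro z h1 h2 h3
      exact eq_of_ncard_le_one hrest ⟨h1, fun h4 => h4.elim h2 h3⟩ htr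
    have hTs : T \ {t} ⊆ Nb H A' := by
      rintro s ⟨hs, hst⟩
      by_contra h1
      exact hst (hr1 s (hTU s hs) (hTA' s hs) (fun h2 => h1 (hGT s hs h2)))
    have hTc : (T \ {t}).ncard = 2 := by
      rw [Set.ncard_sdiff_singleton_of_mem ht, hT3]
    have hTe : T \ {t} = Nb H A' :=
      Set.eq_of_subset_of_ncard_le hTs (by omega) (Set.toFinite _)
    obtain ⟨r, htr', hrT⟩ := hthird t ht
    have hrA : r ∉ A' := by
      intro hrA
      exact htr.2 (Or.inr ⟨hTA' t ht, r, hrA, htr'.symm⟩)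
    have hrN : r ∈ Nb G A' := by
      by_contra h1
      exact htr'.ne (hr1 r (h.edge_mem _ _ htr'.symm) hrA h1).symm
    have hrH : r ∉ Nb H A' := by
      intro h1
      rw [← hTe] at h1
      exact hrT h1.1
    obtain ⟨u, hu, hur⟩ := (hG r hrN).resolve_left hrH
    have hsub : G.neighborSet r ⊆ insert u T := by
      intro z hz
      have hrz : G.Adj r z := hz
      by_cases hzA : z ∈ A'
      · left
        have h1 : s(z, r) = s(y, c) := by
          by_contra h1
          exact hrH ⟨hrA, z, hzA, (hHadj z r).2 ⟨hrz.symm, h1⟩⟩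
        have h2 : s(z, r) = s(u, r) := h1.trans hur.symm
        rw [Sym2.eq_iff] at h2
        rcases h2 with ⟨h3, -⟩ | ⟨h3, -⟩
        · exact h3
        · exact absurd h3.symm hrz.ne
      · right
        by_cases hzN : z ∈ Nb G A'
        · rcases hG z hzN with h1 | h1
          · rw [← hTe] at h1
            exact h1.1
          · exact absurd (huv2 z r hzA hrA h1 ⟨u, hu, hur⟩).symm hrz.ne
        · rw [hr1 z (h.edge_mem _ _ hrz.symm) hzA hzN]
          exact ht
    have hd3 := h.deg3 r (h.edge_mem _ _ htr'.symm)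
    have h2T : 2 ≤ (G.neighborSet r \ {u}).ncard := by
      have := Set.ncard_le_ncard_sdiff_add_ncard (G.neighborSet r) {u} (Set.toFinite _)
      rw [Set.ncard_singleton] at this
      omega
    obtain ⟨a, b, ha, hb, hab⟩ : ∃ a b, a ∈ G.neighborSet r \ {u} ∧ b ∈ G.neighborSet r \ {u} ∧
        a ≠ b := by
      by_contra hcon
      push Not at hcon
      obtain ⟨a, ha⟩ : (G.neighborSet r \ {u}).Nonempty := by
        rw [← Set.ncard_pos (Set.toFinite _)]; omega
      have h1 : G.neighborSet r \ {u} ⊆ {a} := fun z hz => hcon z a hz ha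
      have h2 := Set.ncard_le_ncard h1 (Set.toFinite _)
      rw [Set.ncard_singleton] at h2
      omega
    have haT : a ∈ T := (hsub ha.1).resolve_left ha.2
    have hbT : b ∈ T := (hsub hb.1).resolve_left hb.2
    exact hF r hrT a haT b hbT hab (SimpleGraph.Adj.symm ha.1) (SimpleGraph.Adj.symm hb.1)

/-- The field `TRI` of `GCore`. -/
theorem I4.gTRI [Finite V] {G : SimpleGraph V} {U : Set V} (h : I4 G (fun _ => 1) U)
    (hno : ¬ HasTOK4s G (fun _ => 1)) :
    ∀ y c t1 t2 t3, ∀ κ : V → ZMod 2, y ≠ t1 → y ≠ t2 → y ≠ t3 → c ≠ t1 → c ≠ t2 → c ≠ t3 →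
    G.Adj t1 t2 → G.Adj t1 t3 → G.Adj t2 t3 → κ t1 = κ t2 → κ t1 = κ t3 →
    (∀ u v, G.Adj u v → κ u = κ v → s(u, v) = s(y, c) ∨
      (u ∈ ({t1, t2, t3} : Set V) ∧ v ∈ ({t1, t2, t3} : Set V))) → False :=
  fun _ _ _ _ _ _ h1 h2 h3 h4 h5 h6 h7 h8 h9 h10 h11 h12 =>
    hno (h.TRI h1 h2 h3 h4 h5 h6 h7 h8 h9 h10 h11 h12)

end Pool.Agent.Helper1.GL
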