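import Pool.Agent.Helper1.GL.Frames

/-!
# Global part: balanced four-sets in the weak class

`W3 G c U`: minimum degree two, 3-connected up to vertices of degree two, no vertex meets all odd
cycles. In this class a balanced four-set with all frames gives a TOK4 or is contained in a
strictly larger balanced set with at most three neighbours.
-/

set_option autoImplicit false

namespace Pool.Agent.Helper1.GL

open SimpleGraph Pool.Agent.Helper57.TOK Pool.Agent.Helper57.TD Pool.Agent.Helper82.TK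
  Pool.Agent.Helper1.TD

variable {V : Type*}

/-- The weak class. -/
structure W3 (G : SimpleGraph V) (c : Sym2 V → ZMod 2) (U : Set V) : Prop where
  edge_mem : ∀ u v, G.Adj u v → u ∈ U
  deg2 : ∀ y ∈ U, 2 ≤ (G.neighborSet y).ncard
  conn : ∀ Y ⊆ U, 2 ≤ Y.ncard → (Nb G Y).ncard ≤ 2 → (U \ (Y ∪ Nb G Y)).ncard ≤ 1
  idx : ∀ z κ, ¬ BalOff G c {z} κ

lemma Ex3.w3 {G : SimpleGraph V} {c : Sym2 V → ZMod 2} {U : Set V} (h : Ex3 G c U) :
    W3 G c U := ⟨h.edge_mem, h.deg2, h.conn, h.index2⟩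

/-- The obstruction with a deleted vertex is impossible. -/
theorem W3.obs_false [Finite V] {G : SimpleGraph V} {c : Sym2 V → ZMod 2} {U : Set V}
    (h : W3 G c U) {p1 : V} {D A1 : Set V} {κ ρ : V → ZMod 2}
    (hD1 : ∀ x ∈ D, ∀ y, G.Adj x y → y ∈ D ∨ y = p1 ∨ y ∈ A1)
    (hD2 : ∀ x ∈ D, ∀ y ∈ D, G.Adj x y → c s(x, y) = κ x + κ y)
    (hD3 : ∀ x ∈ D, ∀ y ∈ A1, y ∉ D → y ≠ p1 → G.Adj x y → c s(x, y) = κ x + ρ y)
    (hAA : ∀ x ∈ A1, ∀ y ∈ A1, x ∉ D → y ∉ D → x ≠ p1 → y ≠ p1 →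
      G.Adj x y → c s(x, y) = ρ x + ρ y)
    (hwalk : ∀ u ∈ A1, ∀ w ∈ A1, u ≠ w → u ∉ D → w ∉ D → u ≠ p1 → w ≠ p1 →
      ∀ u' w', G.Adj u u' → G.Adj w w' → ∀ p : G.Walk u' w',
      (∀ x ∈ p.support, x ∉ A1 ∧ x ∉ D ∧ x ≠ p1) → False)
    {e1 e2 e3 : V} (h12 : e1 ≠ e2) (h13 : e1 ≠ e3) (h23 : e2 ≠ e3)
    (he1 : e1 ∈ U ∧ (e1 ∈ D ∨ e1 ∈ A1) ∧ e1 ≠ p1)
    (he2 : e2 ∈ U ∧ (e2 ∈ D ∨ e2 ∈ A1) ∧ e2 ≠ p1)
    (he3 : e3 ∈ U ∧ (e3 ∈ D ∨ e3 ∈ A1) ∧ e3 ≠ p1) : False := by
  classical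
  have hDadj : ∀ x y, x ∉ A1 → x ∉ D → x ≠ p1 → G.Adj x y → y ∉ D := by
    intro x y hx hxD hx1 hxy hyD
    rcases hD1 y hyD x hxy.symm with h1 | h1 | h1
    · exact hxD h1
    · exact hx1 h1
    · exact hx h1
  have huniq : ∀ x y y', x ∉ A1 → x ∉ D → x ≠ p1 → y ∈ A1 → y ≠ p1 →
      y' ∈ A1 → y' ≠ p1 → G.Adj x y → G.Adj x y' → y = y' := by
    intro x y y' hx hxD hx1 hy hy1 hy' hy1' hxy hxy'
    by_contra hne
    refine hwalk y hy y' hy' hne (hDadj x y hx hxD hx1 hxy) (hDadj x y' hx hxD hx1 hxy')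
      hy1 hy1' x x hxy.symm hxy'.symm Walk.nil ?_
    intro z hz
    simp only [Walk.support_nil, List.mem_cons, List.not_mem_nil, or_false] at hz
    rw [hz]
    exact ⟨hx, hxD, hx1⟩
  set S : Set V := A1 ∪ D ∪ {p1} with hS
  have hSn : ∀ z, z ∉ S → z ∉ A1 ∧ z ∉ D ∧ z ≠ p1 := by
    intro z hz
    simp only [hS, Set.mem_union, Set.mem_singleton_iff, not_or] at hz
    exact ⟨hz.1.1, hz.1.2, hz.2⟩
  have hSn' : ∀ z, z ∉ A1 → z ∉ D → z ≠ p1 → z ∉ S := by
    intro z h1 h2 h3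
    simp only [hS, Set.mem_union, Set.mem_singleton_iff, not_or]
    exact ⟨⟨h1, h2⟩, h3⟩
  have hout : ∀ x y, x ∉ A1 → x ∉ D → x ≠ p1 → y ∉ A1 → y ≠ p1 →
      ¬ G.Adj x y := by
    intro x y hx hxD hx1 hy hy1 hxy
    have hyD := hDadj x y hx hxD hx1 hxy
    set C : Set V := Reach G {x} S with hC
    have hxC : x ∈ C := reach_of_mem rfl (hSn' x hx hxD hx1)
    have hyC : y ∈ C := reach_adj hxC hxy (hSn' y hy hyD hy1)
    have hCS : ∀ z ∈ C, z ∉ A1 ∧ z ∉ D ∧ z ≠ p1 := fun z hz =>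
      hSn z (not_mem_of_reach hz)
    have hCU : C ⊆ U := by
      rintro z ⟨a, ha, p, hp⟩
      rw [Set.mem_singleton_iff] at ha
      subst ha
      by_cases haz : a = z
      · subst haz
        exact h.edge_mem _ _ hxy
      · obtain ⟨w, hw, -⟩ := exists_last_edge p haz
        exact h.edge_mem _ _ hw.symm
    have hNC : ∀ w ∈ Nb G C, w = p1 ∨ (w ∈ A1 ∧ w ∉ D ∧ w ≠ p1) := by
      intro w hw
      by_cases h1 : w = p1
      · exact Or.inl h1
      right
      obtain ⟨hwC, z, hz, hzw⟩ := hw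
      have hz' := hCS z hz
      have hwD := hDadj z w hz'.1 hz'.2.1 hz'.2.2 hzw
      refine ⟨?_, hwD, h1⟩
      by_contra hwA
      exact hwC (reach_adj hz hzw (hSn' w hwA hwD h1))
    have huq : ∀ w ∈ Nb G C, ∀ w' ∈ Nb G C, w ≠ p1 → w' ≠ p1 → w = w' := by
      intro w hw w' hw' h1 h3
      by_contra hne
      rcases hNC w hw with h5 | h5
      · exact h1 h5
      rcases hNC w' hw' with h6 | h6
      · exact h3 h6
      obtain ⟨-, u', ⟨a, ha, p, hp⟩, huu⟩ := hw
      obtain ⟨-, w'', ⟨b, hb, r, hr⟩, hww⟩ := hw'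
      rw [Set.mem_singleton_iff] at ha hb
      subst ha
      subst hb
      refine hwalk w h5.1 w' h6.1 hne h5.2.1 h6.2.1 h1 h3 u' w'' huu.symm hww.symm
        (p.reverse.append r) ?_
      intro z hz
      rw [Walk.mem_support_append_iff, Walk.support_reverse, List.mem_reverse] at hz
      rcases hz with hz | hz
      · exact hSn z (hp z hz)
      · exact hSn z (hr z hz)
    have hN2 : (Nb G C).ncard ≤ 2 := by
      by_cases hex : ∃ w ∈ Nb G C, w ≠ p1
      · obtain ⟨w, hw, h1⟩ := hex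
        have h9 : Nb G C ⊆ {p1, w} := by
          intro z hz
          by_cases h3 : z = p1
          · exact Or.inl h3
          · exact Or.inr (huq z hz w hw h3 h1)
        exact (Set.ncard_le_ncard h9 (Set.toFinite _)).trans (ncard_pair_le' _ _)
      · push Not at hex
        have h9 : Nb G C ⊆ {p1, p1} := fun z hz => Or.inl (hex z hz)
        exact (Set.ncard_le_ncard h9 (Set.toFinite _)).trans (ncard_pair_le' _ _)
    have hrest := h.conn C hCU (two_le_ncard_of hxC hyC hxy.ne) hN2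
    have hr : ∀ e, (e ∈ U ∧ (e ∈ D ∨ e ∈ A1) ∧ e ≠ p1) → e ∉ Nb G C →
        e ∈ U \ (C ∪ Nb G C) := by
      intro e he heN
      refine ⟨he.1, ?_⟩
      rintro (h1 | h1)
      · have h2 := hCS e h1
        rcases he.2.1 with h3 | h3
        · exact h2.2.1 h3
        · exact h2.1 h3
      · exact heN h1
    have hpair : ∀ e e', (e ∈ U ∧ (e ∈ D ∨ e ∈ A1) ∧ e ≠ p1) →
        (e' ∈ U ∧ (e' ∈ D ∨ e' ∈ A1) ∧ e' ≠ p1) → e ≠ e' →
        e ∈ Nb G C ∨ e' ∈ Nb G C := by
      intro e e' he he' hne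
      by_contra hcon
      rw [not_or] at hcon
      exact hne (eq_of_ncard_le_one hrest (hr e he hcon.1) (hr e' he' hcon.2))
    have hbad : ∀ e e', (e ∈ U ∧ (e ∈ D ∨ e ∈ A1) ∧ e ≠ p1) →
        (e' ∈ U ∧ (e' ∈ D ∨ e' ∈ A1) ∧ e' ≠ p1) → e ≠ e' →
        e ∈ Nb G C → e' ∈ Nb G C → False := fun e e' he he' hne h1 h2 =>
      hne (huq e h1 e' h2 he.2.2 he'.2.2)
    rcases hpair e1 e2 he1 he2 h12 with h1 | h1
    · rcases hpair e2 e3 he2 he3 h23 with h2 | h2
      · exact hbad e1 e2 he1 he2 h12 h1 h2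
      · exact hbad e1 e3 he1 he3 h13 h1 h2
    · rcases hpair e1 e3 he1 he3 h13 with h2 | h2
      · exact hbad e1 e2 he1 he2 h12 h2 h1
      · exact hbad e2 e3 he2 he3 h23 h1 h2
  have hw : ∀ x, ∃ w, (∃ w', w' ∈ A1 ∧ w' ≠ p1 ∧ G.Adj x w') →
      (w ∈ A1 ∧ w ≠ p1 ∧ G.Adj x w) := by
    intro x
    by_cases hex : ∃ w', w' ∈ A1 ∧ w' ≠ p1 ∧ G.Adj x w'
    · obtain ⟨w, hw⟩ := hex
      exact ⟨w, fun _ => hw⟩
    · exact ⟨x, fun h1 => absurd h1 hex⟩
  choose f hf using hw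
  set κ' : V → ZMod 2 := fun x => if x ∈ D then κ x else if x ∈ A1 then ρ x else
    ρ (f x) + c s(x, f x) with hκ'
  have k1 : ∀ x, x ∈ D → κ' x = κ x := by
    intro x hx; rw [hκ']; simp only [if_pos hx]
  have k2 : ∀ x, x ∉ D → x ∈ A1 → κ' x = ρ x := by
    intro x hx hx'; rw [hκ']; simp only [if_neg hx, if_pos hx']
  have k3 : ∀ x, x ∉ D → x ∉ A1 → κ' x = ρ (f x) + c s(x, f x) := by
    intro x hx hx'; rw [hκ']; simp only [if_neg hx, if_neg hx']
  have g1 : ∀ x y, x ∈ D → y ≠ p1 → G.Adj x y → c s(x, y) = κ' x + κ' y := by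
    intro x y hx hy1 hxy
    by_cases hyD : y ∈ D
    · rw [k1 x hx, k1 y hyD]
      exact hD2 x hx y hyD hxy
    · rcases hD1 x hx y hxy with h1 | h1 | h1
      · exact absurd h1 hyD
      · exact absurd h1 hy1
      · rw [k1 x hx, k2 y hyD h1]
        exact hD3 x hx y h1 hyD hy1 hxy
  have g2 : ∀ x y, x ∉ D → x ∉ A1 → x ≠ p1 → y ∉ D → y ∈ A1 → y ≠ p1 →
      G.Adj x y → c s(x, y) = κ' x + κ' y := by
    intro x y hxD hx hx1 hyD hy hy1 hxy
    have h1 := hf x ⟨y, hy, hy1, hxy⟩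
    have h2 := huniq x (f x) y hx hxD hx1 h1.1 h1.2.1 hy hy1 h1.2.2 hxy
    rw [k3 x hxD hx, k2 y hyD hy, h2, add_comm (ρ y), add_assoc, CharTwo.add_self_eq_zero,
      add_zero]
  apply h.idx p1 κ'
  intro x y hx hy hxy
  simp only [Set.mem_singleton_iff] at hx hy
  by_cases hxD : x ∈ D
  · exact g1 x y hxD hy hxy
  by_cases hyD : y ∈ D
  · rw [Sym2.eq_swap, add_comm]; exact g1 y x hyD hx hxy.symm
  by_cases hxA : x ∈ A1
  · by_cases hyA : y ∈ A1
    · rw [k2 x hxD hxA, k2 y hyD hyA]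
      exact hAA x hxA y hyA hxD hyD hx hy hxy
    · rw [Sym2.eq_swap, add_comm]
      exact g2 y x hyD hyA hy hxD hxA hx hxy.symm
  · by_cases hyA : y ∈ A1
    · exact g2 x y hxD hxA hx hyD hyA hy hxy
    · exact absurd hxy (hout x y hxA hxD hx hyA hy)

/-- A balanced four-set with all frames gives a TOK4 or a larger balanced set with at most three
neighbours. -/
theorem W3.tok_of_frames [Finite V] {G : SimpleGraph V} {c : Sym2 V → ZMod 2} {U : Set V}
    (h : W3 G c U) {Y : Set V} (hY : Y ⊆ U) {κ : V → ZMod 2} (hb : BalOn G c Y κ)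
    (h4 : (Nb G Y).ncard = 4) (hF : AllFramesE (restr G Y) κ (Nb G Y)) :
    HasTOK4s G c ∨ ∃ Y' κ', Y ⊆ Y' ∧ Y ≠ Y' ∧ Y' ⊆ U ∧ BalOn G c Y' κ' ∧
      (Nb G Y').ncard ≤ 3 ∧ ∀ x ∈ Y ∪ Nb G Y, κ' x = κ x := by
  classical
  have hlab : ∀ x y, (restr G Y).Adj x y → c s(x, y) = κ x + κ y := by
    rintro x y ⟨h1, h2 | h2⟩
    · exact hb x y h2 h1
    · rw [add_comm, Sym2.eq_swap]; exact hb y x h2 h1.symm
  have hTU : Nb G Y ⊆ U := by
    rintro x ⟨-, u, -, hux⟩
    exact h.edge_mem _ _ hux.symm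
  have hYne : Y.Nonempty := by
    rw [Set.nonempty_iff_ne_empty]
    intro hh
    rw [hh, Nb_empty, Set.ncard_empty] at h4
    omega
  rcases pack4 (delG G Y) c κ (Nb G Y) h4 with hT | ⟨X, A1, B, ρ, hO⟩
  · left
    obtain ⟨a, b, a', b', hA, P, Q, hP, hQ, hPQ, -, -, hPw, hQw⟩ := hT
    obtain ⟨n1, n2, n3, n4, n5, n6⟩ := quad_ne (hA ▸ h4)
    have hmem : ∀ x, x ∈ ({a, b, a', b'} : Set V) → x ∈ Nb G Y := fun x hx => hA ▸ hx
    have ma := hmem a (by simp)
    have mb := hmem b (by simp)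
    have ma' := hmem a' (by simp)
    have mb' := hmem b' (by simp)
    have hno : ∀ x ∈ Nb G Y, ∀ y ∈ Nb G Y, ¬ (restr G Y).Adj x y := by
      rintro x hx y hy ⟨-, h1 | h1⟩
      · exact hx.1 h1
      · exact hy.1 h1
    have hFr := hF a ma b mb a' ma' b' mb' n1 n2 n3 n4 n5 n6
    have hle := delG_le G Y
    refine tok_of_frame (J := restr G Y) (κ := κ) (F := Y) (Q := Nb G Y) (restr_le G Y) hlab
      ⟨restr G Y, le_rfl, supp_restr, hno a ma b mb, hno a' ma' b' mb', hFr⟩ (Or.inr ma)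
      (Or.inr mb) (Or.inr ma') (Or.inr mb') (P.mapLe hle) (Q.mapLe hle)
      ((Walk.isPath_mapLe hle).2 hP) ((Walk.isPath_mapLe hle).2 hQ) (by rw [wt_mapLe, hPw])
      (by rw [wt_mapLe, hQw]) ?_ ?_ ?_
    · intro x hx
      rw [Walk.support_mapLe_eq_support] at hx ⊢
      exact hPQ x hx
    · intro x hx hxF
      rw [Walk.support_mapLe_eq_support] at hx
      have h1 := notMem_of_mem_support_delG P ma.1 x hx
      rcases hxF with h2 | h2
      · exact absurd h2 h1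
      · rw [hA] at h2
        rcases h2 with h3 | h3 | h3 | h3
        · exact Or.inl h3
        · exact Or.inr h3
        · exact absurd (h3 ▸ Q.start_mem_support) (hPQ x hx)
        · exact absurd (h3 ▸ Q.end_mem_support) (hPQ x hx)
    · intro x hx hxF
      rw [Walk.support_mapLe_eq_support] at hx
      have h1 := notMem_of_mem_support_delG Q ma'.1 x hx
      rcases hxF with h2 | h2
      · exact absurd h2 h1
      · rw [hA] at h2
        rcases h2 with h3 | h3 | h3 | h3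
        · exact absurd hx (hPQ x (h3 ▸ P.start_mem_support))
        · exact absurd hx (hPQ x (h3 ▸ P.end_mem_support))
        · exact Or.inl h3
        · exact Or.inr h3
  obtain ⟨n, hn, hn'⟩ := exists_enum h4
  have hnT : ∀ i, n i ∈ Nb G Y := fun i => hn' ▸ ⟨i, rfl⟩
  set H := delG G Y with hH
  have hρ : ∀ x ∈ Nb G Y, x ∈ A1 → ρ x = κ x := fun x hx hx' => hO.pot x hx hx'
  by_cases hX : X.Nonempty
  · exfalso
    obtain ⟨x0, hx0⟩ := hX
    have hB : B = ∅ := hO.B_empty ⟨x0, hx0⟩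
    have hXe : ∀ x ∈ X, x = x0 := fun x hx => eq_of_ncard_le_one hO.X_le hx hx0
    have hTA : ∀ x ∈ Nb G Y, x ≠ x0 → x ∈ A1 := by
      intro x hx hne
      rcases hO.A_sub hx with h1 | h1
      · exact h1
      · exact absurd (hXe _ h1) hne
    have hel : ∀ i, n i ≠ x0 → (n i ∈ U ∧ (n i ∈ Y ∨ n i ∈ A1) ∧ n i ≠ x0) :=
      fun i hi => ⟨hTU (hnT i), Or.inr (hTA _ (hnT i) hi), hi⟩
    have hfin : ∀ i j k, i ≠ j → i ≠ k → j ≠ k → n i ≠ x0 → n j ≠ x0 → n k ≠ x0 → False := by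
      intro i j k hij hik hjk hi hj hk
      refine h.obs_false (p1 := x0) (D := Y) (A1 := A1) (κ := κ) (ρ := ρ) ?_ ?_ ?_ ?_
        ?_ (hn.ne hij) (hn.ne hik) (hn.ne hjk) (hel i hi) (hel j hj) (hel k hk)
      · intro x hx y hxy
        rcases mem_or_Nb1 hx hxy with h1 | h1
        · exact Or.inl h1
        · by_cases h2 : y = x0
          · exact Or.inr (Or.inl h2)
          · exact Or.inr (Or.inr (hTA y h1 h2))
      · intro x hx y hy hxy
        exact hb x y hx hxy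
      · intro x hx y hyA hyY _ hxy
        rw [hρ y ⟨hyY, x, hx, hxy⟩ hyA]
        exact hb x y hx hxy
      · intro x hx y hy hxY hyY _ _ hxy
        exact hO.edge x hx y hy ⟨hxy, hxY, hyY⟩ (by rw [hB]; simp)
      · intro u hu w hw hne huY hwY _ _ u' w' huu hww p hp
        obtain ⟨r, hr⟩ := exists_walk_delG (Y := Y) p (fun x hx => (hp x hx).2.1)
        have hu' := hp u' p.start_mem_support
        have hw' := hp w' p.end_mem_support
        have h1 := hO.walk u hu w hw hne u' w' ⟨huu, huY, hu'.2.1⟩ ⟨hww, hwY, hw'.2.1⟩ r (by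
            intro x hx
            rw [hr] at hx
            exact ⟨(hp x hx).1, fun h2 => (hp x hx).2.2 (hXe x h2)⟩)
        rw [hB] at h1
        exact h1.1
    by_cases h0 : n 0 = x0
    · exact hfin 1 2 3 (by decide) (by decide) (by decide)
        (fun h1 => absurd (hn (h1.trans h0.symm)) (by decide))
        (fun h1 => absurd (hn (h1.trans h0.symm)) (by decide))
        (fun h1 => absurd (hn (h1.trans h0.symm)) (by decide))
    by_cases h1 : n 1 = x0
    · exact hfin 0 2 3 (by decide) (by decide) (by decide) h0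
        (fun h2 => absurd (hn (h2.trans h1.symm)) (by decide))
        (fun h2 => absurd (hn (h2.trans h1.symm)) (by decide))
    by_cases h2 : n 2 = x0
    · exact hfin 0 1 3 (by decide) (by decide) (by decide) h0 h1
        (fun h3 => absurd (hn (h3.trans h2.symm)) (by decide))
    · exact hfin 0 1 2 (by decide) (by decide) (by decide) h0 h1 h2
  · right
    have hXe : ∀ x, x ∉ X := fun x hx => hX ⟨x, hx⟩
    have hTA : ∀ x ∈ Nb G Y, x ∈ A1 := fun x hx => (hO.A_sub hx).resolve_right (hXe _)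
    have hclosed : ∀ x y, x ∈ A1 → x ∉ B → H.Adj x y → y ∈ A1 := by
      intro x y hx hxB hxy
      by_contra hyA
      set C : Set V := Reach H {y} (A1 ∪ X) with hC
      have hyC : y ∈ C := reach_of_mem rfl (by
        rintro (h1 | h1)
        · exact hyA h1
        · exact hXe _ h1)
      have hCA : ∀ z ∈ C, z ∉ A1 := fun z hz h1 => not_mem_of_reach hz (Or.inl h1)
      have hCm : ∀ z ∈ C, z ∉ Y ∧ z ∈ U := by
        rintro z ⟨a, ha, p, hp⟩
        rw [Set.mem_singleton_iff] at ha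
        subst ha
        refine ⟨notMem_of_mem_support_delG p hxy.2.2 z p.end_mem_support, ?_⟩
        by_cases haz : a = z
        · subst haz
          exact h.edge_mem _ _ hxy.1.symm
        · obtain ⟨w, hw, -⟩ := exists_last_edge p haz
          exact h.edge_mem _ _ hw.1.symm
      have hxN : x ∈ Nb H C := ⟨fun h1 => hCA x h1 hx, y, hyC, hxy.symm⟩
      have hNC : Nb G C ⊆ {x} := by
        rintro w ⟨hwC, z, hz, hzw⟩
        have hz' := hCm z hz
        by_cases hwY : w ∈ Y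
        · exfalso
          exact hCA z hz (hTA z ⟨hz'.1, w, hwY, hzw.symm⟩)
        have hwN : w ∈ Nb H C := ⟨hwC, z, hz, ⟨hzw, hz'.1, hwY⟩⟩
        have hwA : w ∈ A1 := by
          rcases Nb_Reach hwN with h2 | h2
          · exact h2
          · exact absurd h2 (hXe _)
        rw [Set.mem_singleton_iff]
        by_contra hne
        exact hxB (obs_comp hO subset_rfl hwA hwN hx hxN hne).2
      have hN1 := Set.ncard_le_ncard hNC (Set.toFinite _)
      rw [Set.ncard_singleton] at hN1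
      by_cases h2 : 2 ≤ C.ncard
      · have hrest := h.conn C (fun z hz => (hCm z hz).2) h2 (by omega)
        have hr : ∀ i, n i ≠ x → n i ∈ U \ (C ∪ Nb G C) := by
          intro i hi
          refine ⟨hTU (hnT i), ?_⟩
          rintro (h1 | h1)
          · exact hCA _ h1 (hTA _ (hnT i))
          · exact hi (hNC h1)
        by_cases h0 : n 0 = x
        · have h3 := eq_of_ncard_le_one hrest
            (hr 1 (fun h1 => absurd (hn (h1.trans h0.symm)) (by decide)))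
            (hr 2 (fun h1 => absurd (hn (h1.trans h0.symm)) (by decide)))
          exact absurd (hn h3) (by decide)
        by_cases h1 : n 1 = x
        · have h3 := eq_of_ncard_le_one hrest (hr 0 h0)
            (hr 2 (fun h2 => absurd (hn (h2.trans h1.symm)) (by decide)))
          exact absurd (hn h3) (by decide)
        · have h3 := eq_of_ncard_le_one hrest (hr 0 h0) (hr 1 h1)
          exact absurd (hn h3) (by decide)
      · have h3 : C = {y} := by
          apply (Set.eq_of_subset_of_ncard_le _ _ (Set.toFinite _)).symm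
          · rintro z rfl; exact hyC
          · rw [Set.ncard_singleton]; omega
        rw [h3, Nb_singleton] at hN1
        have h4 := h.deg2 y (hCm y hyC).2
        omega
    set Y' : Set V := {x | x ∈ U ∧ (x ∈ Y ∨ (x ∈ A1 ∧ x ∉ B))} with hY'
    set κ' : V → ZMod 2 := fun x => if x ∈ Y then κ x else ρ x with hκ'
    have k1 : ∀ x, x ∈ Y → κ' x = κ x := by
      intro x hx; rw [hκ']; simp only [if_pos hx]
    have k2 : ∀ x, x ∉ Y → κ' x = ρ x := by
      intro x hx; rw [hκ']; simp only [if_neg hx]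
    have hstep : ∀ u w, u ∈ Y' → G.Adj u w → (w ∈ Y' ∨ w ∈ B) ∧ c s(u, w) = κ' u + κ' w := by
      intro u w hu huw
      have hwU := h.edge_mem w u huw.symm
      have hmem : ∀ z, z ∈ U → z ∈ A1 → z ∈ Y' ∨ z ∈ B := by
        intro z h1 h2
        by_cases h4 : z ∈ B
        · exact Or.inr h4
        · exact Or.inl ⟨h1, Or.inr ⟨h2, h4⟩⟩
      have gY : ∀ x y, x ∈ Y → G.Adj x y → c s(x, y) = κ' x + κ' y := by
        intro x y hx hxy
        rw [k1 x hx]
        by_cases hy : y ∈ Y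
        · rw [k1 y hy]; exact hb x y hx hxy
        · have hyT : y ∈ Nb G Y := ⟨hy, x, hx, hxy⟩
          rw [k2 y hy, hρ y hyT (hTA y hyT)]
          exact hb x y hx hxy
      by_cases huY : u ∈ Y
      · refine ⟨?_, gY u w huY huw⟩
        rcases mem_or_Nb1 huY huw with h1 | h1
        · exact Or.inl ⟨hwU, Or.inl h1⟩
        · exact hmem w hwU (hTA w h1)
      by_cases hwY : w ∈ Y
      · exact ⟨Or.inl ⟨hwU, Or.inl hwY⟩, by
          rw [add_comm, Sym2.eq_swap]; exact gY w u hwY huw.symm⟩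
      · have hu' := hu.2.resolve_left huY
        have hH' : H.Adj u w := ⟨huw, huY, hwY⟩
        have hwA := hclosed u w hu'.1 hu'.2 hH'
        refine ⟨hmem w hwU hwA, ?_⟩
        rw [k2 u huY, k2 w hwY]
        exact hO.edge u hu'.1 w hwA hH' (fun h3 => hu'.2 h3.1)
    obtain ⟨i, hi⟩ : ∃ i, n i ∉ B := by
      by_contra hcon
      push Not at hcon
      have h1 : Set.range n ⊆ B := by
        rintro _ ⟨i, rfl⟩; exact hcon i
      have h2 := Set.ncard_le_ncard h1 (Set.toFinite _)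
      rw [hn', h4] at h2
      have := hO.B_le
      omega
    refine ⟨Y', κ', fun x hx => ⟨hY hx, Or.inl hx⟩, ?_, fun x hx => hx.1,
      fun u w hu huw => (hstep u w hu huw).2, ?_, ?_⟩
    · intro hh
      have h1 : n i ∈ Y' := ⟨hTU (hnT i), Or.inr ⟨hTA _ (hnT i), hi⟩⟩
      rw [← hh] at h1
      exact (hnT i).1 h1
    · have h1 : Nb G Y' ⊆ B := by
        rintro w ⟨hw, u, hu, huw⟩
        exact (hstep u w hu huw).1.resolve_left hw
      exact (Set.ncard_le_ncard h1 (Set.toFinite _)).trans hO.B_le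
    · rintro x (hx | hx)
      · exact k1 x hx
      · rw [k2 x hx.1]
        exact hρ x hx (hTA x hx)

lemma fO_of_balOn {G : SimpleGraph V} {c : Sym2 V → ZMod 2} {Y : Set V} {κ : V → ZMod 2}
    (hb : BalOn G c Y κ) : fO G κ Y = fden (odG G c) Y := by
  have : EAt (oddG G κ) Y = EAt (odG G c) Y := by
    ext e
    induction e using Sym2.ind with
    | _ u v =>
      rw [mem_EAt, mem_EAt, oddG_adj, odG_adj]
      constructor
      · rintro ⟨⟨h1, h3⟩, h2⟩
        refine ⟨⟨h1, ?_⟩, h2⟩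
        rcases h2 with h2 | h2
        · rw [hb u v h2 h1]; exact h3
        · rw [Sym2.eq_swap, hb v u h2 h1.symm, add_comm]; exact h3
      · rintro ⟨⟨h1, h3⟩, h2⟩
        refine ⟨⟨h1, ?_⟩, h2⟩
        rcases h2 with h2 | h2
        · rw [← hb u v h2 h1]; exact h3
        · rw [add_comm, ← hb v u h2 h1.symm, Sym2.eq_swap]; exact h3
  unfold fO fden rho
  rw [this]

/-- Subsets of a four-set with three neighbours leave at least two vertices outside. -/
lemma two_le_rest [Finite V] {G : SimpleGraph V} {U Y Y' : Set V}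
    (he : ∀ u v, G.Adj u v → u ∈ U) (hY : Y' ⊆ Y)
    (h4 : (Nb G Y).ncard = 4) (h3 : (Nb G Y').ncard ≤ 3) :
    2 ≤ (U \ (Y' ∪ Nb G Y')).ncard := by
  have hTU : Nb G Y ⊆ U := by
    rintro x ⟨-, u, -, hux⟩
    exact he _ _ hux.symm
  obtain ⟨t, ht, htN⟩ : ∃ t ∈ Nb G Y, t ∉ Nb G Y' := by
    by_contra hcon
    push Not at hcon
    have := Set.ncard_le_ncard hcon (Set.toFinite _)
    omega
  have htr : ∀ t ∈ Nb G Y, t ∉ Nb G Y' → t ∈ U \ (Y' ∪ Nb G Y') := by
    intro t h1 h2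
    refine ⟨hTU h1, ?_⟩
    rintro (h5 | h5)
    · exact h1.1 (hY h5)
    · exact h2 h5
  by_cases hex : ∃ t' ∈ Nb G Y, t' ∉ Nb G Y' ∧ t' ≠ t
  · obtain ⟨t', h1, h2, h5⟩ := hex
    exact two_le_ncard_of (htr t' h1 h2) (htr t ht htN) h5
  · push Not at hex
    -- all neighbours of Y' lie in the boundary
    have h6 : Nb G Y \ {t} ⊆ Nb G Y' := by
      rintro x ⟨hx1, hx2⟩
      by_contra hx3
      exact hx2 (hex x hx1 hx3)
    have h7 : (Nb G Y \ {t}).ncard = 3 := by
      rw [Set.ncard_sdiff_singleton_of_mem ht, h4]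
    have h8 : Nb G Y \ {t} = Nb G Y' :=
      Set.eq_of_subset_of_ncard_le h6 (by omega) (Set.toFinite _)
    obtain ⟨y, hy, hyt⟩ := ht.2
    have hyY' : y ∉ Y' := fun h9 => htN ⟨fun h10 => ht.1 (hY h10), y, h9, hyt⟩
    have hyN : y ∉ Nb G Y' := by
      intro h9
      rw [← h8] at h9
      exact h9.1.1 hy
    refine two_le_ncard_of (a := y) (b := t) ⟨he _ _ hyt, ?_⟩ (htr t ht htN) hyt.ne
    rintro (h9 | h9)
    · exact hyY' h9
    · exact hyN h9

/-- The society of a balanced four-set in the weak class. -/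
theorem W3.soc [Finite V] {G : SimpleGraph V} {c : Sym2 V → ZMod 2} {U : Set V} (h : W3 G c U)
    {Y : Set V} (hY : Y ⊆ U) {κ : V → ZMod 2} (hb : BalOn G c Y κ)
    (hsp : ∀ Y' ⊆ Y, 2 ≤ Y'.ncard → (Nb G Y').ncard = 3 → 2 ≤ (U \ (Y' ∪ Nb G Y')).ncard →
      BalOn G c Y' κ → fden (odG G c) Y' ≤ beta κ (Nb G Y'))
    (h4 : (Nb G Y).ncard = 4) {md : Bool} (hM : thr md κ (Nb G Y) ≤ fO G κ Y)
    (hT : md = true → Is22 κ (Nb G Y)) : Soc md (restr G Y) κ Y (Nb G Y) where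
  T4 := h4
  disj := by
    rw [Set.disjoint_left]
    intro x hx hx'
    exact hx'.1 hx
  edge_mem := by
    rintro u v ⟨h1, h2⟩
    rcases h2 with h2 | h2
    · exact Or.inl h2
    · exact mem_or_Nb1 h2 h1.symm
  edge_S := fun u v huv => huv.2
  M1 := by rw [fO_restr G κ subset_rfl]; exact hM
  TT := hT
  M2 := by
    intro Y' hY' hne hc
    rw [Nb_restr G hY'] at hc ⊢
    rw [fO_restr G κ hY']
    have hb' : BalOn G c Y' κ := fun u v hu huv => hb u v (hY' hu) huv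
    have hrest := two_le_rest h.edge_mem hY' h4 hc
    by_cases h2 : 2 ≤ Y'.ncard
    · by_cases h3 : (Nb G Y').ncard = 3
      · rw [fO_of_balOn hb']
        exact hsp Y' hY' h2 h3 hrest hb'
      · have := h.conn Y' (hY'.trans hY) h2 (by omega)
        omega
    · have hpos : 0 < Y'.ncard := (Set.ncard_pos (Set.toFinite _)).2 hne
      obtain ⟨s, rfl⟩ := Set.ncard_eq_one.1 (by omega : Y'.ncard = 1)
      apply fO_singleton_le
      have h7 := h.deg2 s (hY (hY' rfl))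
      exact (Set.ncard_pos (Set.toFinite _)).1 (by omega)
  C1 := by
    intro s hs
    rw [neighborSet_restr G hs]
    exact h.deg2 s (hY hs)
  C2 := by
    intro Y' hY' h2
    rw [Nb_restr G hY']
    by_contra hlt
    have hrest := two_le_rest h.edge_mem hY' h4 (by omega)
    have := h.conn Y' (hY'.trans hY) h2 (by omega)
    omega

/-- Weak P2: a dense balanced four-set gives a TOK4 or a larger balanced set with at most three
neighbours. -/
theorem W3.P2 [Finite V] {G : SimpleGraph V} {c : Sym2 V → ZMod 2} {U : Set V} (h : W3 G c U)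
    {Y : Set V} (hY : Y ⊆ U) {κ : V → ZMod 2} (hb : BalOn G c Y κ)
    (hsp : ∀ Y' ⊆ Y, 2 ≤ Y'.ncard → (Nb G Y').ncard = 3 → 2 ≤ (U \ (Y' ∪ Nb G Y')).ncard →
      BalOn G c Y' κ → fden (odG G c) Y' ≤ beta κ (Nb G Y'))
    (h4 : (Nb G Y).ncard = 4) (hd : beta κ (Nb G Y) < fden (odG G c) Y) :
    HasTOK4s G c ∨ ∃ Y' κ', Y ⊆ Y' ∧ Y ≠ Y' ∧ Y' ⊆ U ∧ BalOn G c Y' κ' ∧
      (Nb G Y').ncard ≤ 3 ∧ ∀ x ∈ Y ∪ Nb G Y, κ' x = κ x := by
  refine h.tok_of_frames hY hb h4 ?_
  refine theoremD _ _ _ _ (h.soc (md := false) hY hb hsp h4 ?_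
    (fun hh => absurd hh (by decide)))
  show beta κ (Nb G Y) + 1 ≤ fO G κ Y
  rw [fO_of_balOn hb]
  linarith

end Pool.Agent.Helper1.GL
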